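import Pool.Agent.H74.TL.Defs
import Pool.Agent.H94.PC.CSum

set_option autoImplicit false

/-!
# Arithmetic progressions in `F[X]`
-/

namespace Pool.Agent.H74.TL

open Polynomial Pool.Agent.H94.PC Pool.Agent.H94.PS Pool.Agent.H74.ST

variable {F : Type} [Field F] [Finite F]

theorem q_pos : (0 : ℝ) < (Nat.card F : ℝ) := by exact_mod_cast (Nat.card_pos : 0 < Nat.card F)

/-- a set of polynomials whose differences are divisible by `M` and of degree `< n` -/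
theorem card_le_of_sep {M : F[X]} (hM : M.Monic) (n : ℕ) (hn : M.natDegree ≤ n) (S : Finset F[X])
    (h : ∀ Z ∈ S, ∀ Z' ∈ S, M ∣ Z - Z' ∧ (Z - Z').degree < n) :
    (S.card : ℝ) ≤ (Nat.card F : ℝ) ^ n * iv M := by
  classical
  have hq : (0 : ℝ) < (Nat.card F : ℝ) := q_pos
  have e1 : (Nat.card F : ℝ) ^ n * iv M = ((Nat.card F ^ (n - M.natDegree) : ℕ) : ℝ) := by
    unfold iv
    rw [mul_one_div, div_eq_iff (pow_pos hq _).ne']
    push_cast
    rw [← pow_add]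
    congr 1
    omega
  rw [e1]
  have h1 : S.card ≤ Nat.card F ^ (n - M.natDegree) := by
    rcases Finset.eq_empty_or_nonempty S with h0 | ⟨Z0, hZ0⟩
    · rw [h0, Finset.card_empty]; exact Nat.zero_le _
    · rw [← card_Lt (F := F)]
      refine Finset.card_le_card_of_injOn (fun Z => (Z - Z0) /ₘ M) ?_ ?_
      · intro Z hZ
        rw [Finset.mem_coe] at hZ ⊢
        obtain ⟨⟨c, hc⟩, hd⟩ := h Z hZ Z0 hZ0
        have e2 : (Z - Z0) /ₘ M = c := by
          rw [hc]; exact mul_divByMonic_cancel_left c hM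
        show (Z - Z0) /ₘ M ∈ Lt F (n - M.natDegree)
        rw [e2, mem_Lt]
        by_cases hc0 : c = 0
        · rw [hc0, degree_zero]; exact WithBot.bot_lt_coe _
        · rw [hc, degree_mul, degree_eq_natDegree hM.ne_zero, degree_eq_natDegree hc0] at hd
          rw [degree_eq_natDegree hc0]
          have h5 : M.natDegree + c.natDegree < n := by exact_mod_cast hd
          exact_mod_cast (by omega : c.natDegree < n - M.natDegree)
      · intro Z hZ Z' hZ' heq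
        rw [Finset.mem_coe] at hZ hZ'
        obtain ⟨⟨c, hc⟩, _⟩ := h Z hZ Z0 hZ0
        obtain ⟨⟨c', hc'⟩, _⟩ := h Z' hZ' Z0 hZ0
        have e2 : (Z - Z0) /ₘ M = c := by
          rw [hc]; exact mul_divByMonic_cancel_left c hM
        have e3 : (Z' - Z0) /ₘ M = c' := by
          rw [hc']; exact mul_divByMonic_cancel_left c' hM
        have heq' : (Z - Z0) /ₘ M = (Z' - Z0) /ₘ M := heq
        rw [e2, e3] at heq'
        subst heq'
        have : Z - Z0 = Z' - Z0 := by rw [hc, hc']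
        exact sub_left_injective this
  exact_mod_cast h1

theorem degree_sub_Mo {d : ℕ} {Z Z' : F[X]} (hZ : Z ∈ Mo F d) (hZ' : Z' ∈ Mo F d) :
    (Z - Z').degree < d := by
  obtain ⟨h1, h2⟩ := mem_Mo.1 hZ
  obtain ⟨h3, h4⟩ := mem_Mo.1 hZ'
  have e1 : Z.degree = d := by rw [degree_eq_natDegree h1.ne_zero, h2]
  have e2 : Z'.degree = d := by rw [degree_eq_natDegree h3.ne_zero, h4]
  have := degree_sub_lt_left (e1.trans e2.symm) h1.ne_zero (by rw [h1.leadingCoeff, h3.leadingCoeff])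
  rwa [e1] at this

open Classical in
theorem card_sep_Mo {M : F[X]} (hM : M.Monic) {d : ℕ} (hd : M.natDegree ≤ d) {A : F[X] → Prop}
    (hA : Sep M A) : (((Mo F d).filter A).card : ℝ) ≤ (Nat.card F : ℝ) ^ d * iv M := by
  refine card_le_of_sep hM d hd _ fun Z hZ Z' hZ' => ?_
  rw [Finset.mem_filter] at hZ hZ'
  exact ⟨hA Z Z' hZ.2 hZ'.2, degree_sub_Mo hZ.1 hZ'.1⟩

open Classical in
theorem card_sep_Lt {M : F[X]} (hM : M.Monic) {n : ℕ} (hn : M.natDegree ≤ n) {A : F[X] → Prop}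
    (hA : Sep M A) : (((Lt F n).filter A).card : ℝ) ≤ (Nat.card F : ℝ) ^ n * iv M := by
  refine card_le_of_sep hM n hn _ fun Z hZ Z' hZ' => ?_
  rw [Finset.mem_filter] at hZ hZ'
  exact ⟨hA Z Z' hZ.2 hZ'.2, mem_Lt.1 (Lt_sub' hZ.1 hZ'.1)⟩
where
  Lt_sub' {n : ℕ} {a b : F[X]} (ha : a ∈ Lt F n) (hb : b ∈ Lt F n) : a - b ∈ Lt F n := by
    rw [mem_Lt] at *
    exact lt_of_le_of_lt (degree_sub_le _ _) (max_lt ha hb)

omit [Finite F] in
theorem Sep.and {U U' : Finset F[X]} [DecidableEq F[X]] (hU : IsP U) (hU' : IsP U')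
    {A A' : F[X] → Prop} (h : Sep (LL U) A) (h' : Sep (LL U') A') :
    Sep (LL (U ∪ U')) (fun Z => A Z ∧ A' Z) := by
  intro Z Z' hZ hZ'
  have hUU : IsP (U ∪ U') := by
    intro P hP
    rcases Finset.mem_union.1 hP with h1 | h1
    exacts [hU P h1, hU' P h1]
  rw [LL_dvd hUU]
  intro P hP
  rcases Finset.mem_union.1 hP with h1 | h1
  · exact (LL_dvd hU _).1 (h Z Z' hZ.1 hZ'.1) P h1
  · exact (LL_dvd hU' _).1 (h' Z Z' hZ.2 hZ'.2) P h1

omit [Finite F] in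
theorem Per.and {U U' : Finset F[X]} [DecidableEq F[X]] (hU : IsP U) (hU' : IsP U')
    {A A' : F[X] → Prop} (h : Per (LL U) A) (h' : Per (LL U') A') :
    Per (LL (U ∪ U')) (fun Z => A Z ∧ A' Z) := by
  intro Z Z' hZ
  have hUU : IsP (U ∪ U') := by
    intro P hP
    rcases Finset.mem_union.1 hP with h1 | h1
    exacts [hU P h1, hU' P h1]
  have h1 := (LL_dvd hUU _).1 hZ
  have h2 : LL U ∣ Z - Z' := (LL_dvd hU _).2 fun P hP => h1 P (Finset.mem_union_left _ hP)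
  have h3 : LL U' ∣ Z - Z' := (LL_dvd hU' _).2 fun P hP => h1 P (Finset.mem_union_right _ hP)
  exact and_congr (h Z Z' h2) (h' Z Z' h3)

omit [Finite F] in
theorem Sep.dvd (x κ : F[X]) : Sep x (fun Z => x ∣ Z + κ) := by
  intro Z Z' h h'
  have := dvd_sub h h'
  rwa [add_sub_add_right_eq_sub] at this

omit [Finite F] in
theorem Per.dvd (x κ : F[X]) : Per x (fun Z => x ∣ Z + κ) := by
  intro Z Z' h
  have e : Z + κ = (Z' + κ) + (Z - Z') := by ring
  show x ∣ Z + κ ↔ x ∣ Z' + κ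
  rw [e]
  exact dvd_add_left h

/-- translation of the monic polynomials -/
theorem add_mem_Mo {d : ℕ} {Z b : F[X]} (hZ : Z ∈ Mo F d) (hb : b.degree < d) : Z + b ∈ Mo F d := by
  obtain ⟨h1, h2⟩ := mem_Mo.1 hZ
  have e1 : Z.degree = d := by rw [degree_eq_natDegree h1.ne_zero, h2]
  rw [mem_Mo]
  refine ⟨h1.add_of_left (by rw [e1]; exact hb), ?_⟩
  rw [natDegree_add_eq_left_of_degree_lt (by rw [e1]; exact hb), h2]

theorem sum_Mo_add {d : ℕ} {b : F[X]} (hb : b.degree < d) (G : F[X] → ℝ) :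
    ∑ Z ∈ Mo F d, G (Z + b) = ∑ Z ∈ Mo F d, G Z := by
  refine Finset.sum_nbij' (fun Z => Z + b) (fun Z => Z - b) ?_ ?_ ?_ ?_ ?_
  · intro Z hZ; exact Finset.mem_coe.2 (add_mem_Mo (Finset.mem_coe.1 hZ) hb)
  · intro Z hZ
    have := add_mem_Mo (Finset.mem_coe.1 hZ) (b := -b) (by rw [degree_neg]; exact hb)
    rw [← sub_eq_add_neg] at this
    exact Finset.mem_coe.2 this
  · intro Z _; ring
  · intro Z _; ring
  · intro Z _; rfl

omit [Finite F] in
theorem degree_mul_lt {M a : F[X]} {ν d : ℕ} (hM : M ≠ 0) (h : M.natDegree + ν ≤ d)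
    (ha : a.degree < ν) : (M * a).degree < d := by
  by_cases ha0 : a = 0
  · rw [ha0, mul_zero, degree_zero]; exact WithBot.bot_lt_coe _
  · rw [degree_mul, degree_eq_natDegree hM, degree_eq_natDegree ha0]
    rw [degree_eq_natDegree ha0] at ha
    have h1 : a.natDegree < ν := by exact_mod_cast ha
    exact_mod_cast (by omega : M.natDegree + a.natDegree < d)

theorem avg {M : F[X]} (hM : M ≠ 0) {d ν : ℕ} (h : M.natDegree + ν ≤ d) (G : F[X] → ℝ) :
    (Nat.card F : ℝ) ^ ν * ∑ Z ∈ Mo F d, G Z = ∑ Z ∈ Mo F d, ∑ a ∈ Lt F ν, G (Z + M * a) := by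
  rw [Finset.sum_comm]
  have h1 : ∀ a ∈ Lt F ν, ∑ Z ∈ Mo F d, G (Z + M * a) = ∑ Z ∈ Mo F d, G Z := fun a ha =>
    sum_Mo_add (degree_mul_lt hM h (mem_Lt.1 ha)) G
  rw [Finset.sum_congr rfl h1, Finset.sum_const, card_Lt, nsmul_eq_mul]
  push_cast
  rfl

/-- a function on residues modulo `ρ`, shifted and multiplied -/
theorem sum_Lt_affine {ρ M w : F[X]} (hρ : ρ.Monic) (hc : IsCoprime M ρ) (φ : F[X] → ℝ)
    (hφ : ∀ A B : F[X], ρ ∣ A - B → φ A = φ B) :
    ∑ a ∈ Lt F ρ.natDegree, φ (w + M * a) = ∑ a ∈ Lt F ρ.natDegree, φ a := by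
  have h1 := sum_Lt_mul hρ hc (fun r => φ (w + r)) (fun A B h => hφ _ _ (by
    rw [add_sub_add_left_eq_sub]; exact h))
  rw [h1]
  -- shift
  set w0 := w %ₘ ρ with hw0
  have hw0d : w0 ∈ Lt F ρ.natDegree := by
    rw [mem_Lt, ← degree_eq_natDegree hρ.ne_zero]
    exact degree_modByMonic_lt w hρ
  have h2 : ∀ r ∈ Lt F ρ.natDegree, φ (w + r) = φ (w0 + r) := fun r _ => hφ _ _ (by
    rw [add_sub_add_right_eq_sub]
    have : w0 + ρ * (w /ₘ ρ) = w := modByMonic_add_div w ρ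
    exact ⟨w /ₘ ρ, by rw [← this]; ring_nf; rw [this]⟩)
  rw [Finset.sum_congr rfl h2]
  have hadd : ∀ a ∈ Lt F ρ.natDegree, w0 + a ∈ Lt F ρ.natDegree := fun a ha => by
    rw [mem_Lt] at *
    exact lt_of_le_of_lt (degree_add_le _ _) (max_lt hw0d ha)
  have hsub : ∀ a ∈ Lt F ρ.natDegree, a - w0 ∈ Lt F ρ.natDegree := fun a ha => by
    rw [mem_Lt] at *
    exact lt_of_le_of_lt (degree_sub_le _ _) (max_lt ha hw0d)
  refine Finset.sum_nbij' (fun a => w0 + a) (fun a => a - w0) ?_ ?_ ?_ ?_ ?_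
  · intro a ha; exact Finset.mem_coe.2 (hadd a (Finset.mem_coe.1 ha))
  · intro a ha; exact Finset.mem_coe.2 (hsub a (Finset.mem_coe.1 ha))
  · intro a _; ring
  · intro a _; ring
  · intro a _; rfl

theorem vanish (h2 : (2 : F) ≠ 0) {ρ M : F[X]} (hρ : ρ.Monic) (hρi : Irreducible ρ) (hM : M ≠ 0)
    (hc : IsCoprime M ρ) {d : ℕ} (h : M.natDegree + ρ.natDegree ≤ d) (Φ : F[X] → ℝ)
    (hΦ : ∀ Z a, Φ (Z + M * a) = Φ Z) (κ : F[X]) :
    ∑ Z ∈ Mo F d, Φ Z * js (Z + κ) ρ = 0 := by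
  have h1 := avg hM h (fun Z => Φ Z * js (Z + κ) ρ)
  have hs : ¬ IsSquare ρ := by
    rintro ⟨r, hr⟩
    rcases hρi.isUnit_or_isUnit hr with hu | hu
    · exact hρi.not_isUnit (hr ▸ hu.mul hu)
    · exact hρi.not_isUnit (hr ▸ hu.mul hu)
  have h3 : ∑ Z ∈ Mo F d, ∑ a ∈ Lt F ρ.natDegree, Φ (Z + M * a) * js (Z + M * a + κ) ρ = 0 := by
    refine Finset.sum_eq_zero fun Z _ => ?_
    have e : ∀ a ∈ Lt F ρ.natDegree, Φ (Z + M * a) * js (Z + M * a + κ) ρ =
        Φ Z * js ((Z + κ) + M * a) ρ := fun a _ => by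
      rw [hΦ]; congr 2; ring
    rw [Finset.sum_congr rfl e, ← Finset.mul_sum,
      sum_Lt_affine hρ hc (fun A => js A ρ) (fun A B h => js_congr hρ h), sum_js_Lt h2 hρ hs,
      mul_zero]
  rw [h3] at h1
  rcases mul_eq_zero.1 h1 with h4 | h4
  · exact absurd h4 (pow_pos q_pos _).ne'
  · exact h4

open Classical in
theorem equi {W M : F[X]} (hW : W.Monic) (hM : M ≠ 0) (hc : IsCoprime M W) {d : ℕ}
    (h : M.natDegree + W.natDegree ≤ d) (A : F[X] → Prop) (hA : ∀ Z a, A (Z + M * a) ↔ A Z)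
    (κ : F[X]) :
    (Nat.card F : ℝ) ^ W.natDegree * ∑ Z ∈ Mo F d, (if A Z ∧ W ∣ Z + κ then (1 : ℝ) else 0) =
      ∑ Z ∈ Mo F d, if A Z then (1 : ℝ) else 0 := by
  have h1 := avg hM h (fun Z => if A Z ∧ W ∣ Z + κ then (1 : ℝ) else 0)
  rw [h1]
  refine Finset.sum_congr rfl fun Z _ => ?_
  have e : ∀ a ∈ Lt F W.natDegree, (if A (Z + M * a) ∧ W ∣ Z + M * a + κ then (1 : ℝ) else 0) =
      (if A Z then 1 else 0) * (if W ∣ (Z + κ) + M * a then (1 : ℝ) else 0) := fun a _ => by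
    have e1 : Z + M * a + κ = (Z + κ) + M * a := by ring
    rw [e1]
    by_cases h1 : A Z <;> by_cases h2 : W ∣ (Z + κ) + M * a
    · rw [if_pos ⟨(hA Z a).2 h1, h2⟩, if_pos h1, if_pos h2, mul_one]
    · rw [if_neg (fun h => h2 h.2), if_neg h2, mul_zero]
    · rw [if_neg (fun h => h1 ((hA Z a).1 h.1)), if_neg h1, zero_mul]
    · rw [if_neg (fun h => h2 h.2), if_neg h2, mul_zero]
  rw [Finset.sum_congr rfl e, ← Finset.mul_sum,
    sum_Lt_affine hW hc (fun A => if W ∣ A then (1 : ℝ) else 0) (fun A B h => by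
      have : W ∣ A ↔ W ∣ B := by
        have e2 : A = B + (A - B) := by ring
        rw [e2]; exact dvd_add_left h
      simp only [this])]
  have h3 : ∑ a ∈ Lt F W.natDegree, (if W ∣ a then (1 : ℝ) else 0) = 1 := by
    rw [Finset.sum_eq_single (0 : F[X])]
    · rw [if_pos (dvd_zero _)]
    · intro r hr hr0
      rw [if_neg]
      intro hd
      have h3 := mem_Lt.1 hr
      rw [← degree_eq_natDegree hW.ne_zero] at h3
      exact hr0 (eq_zero_of_dvd_of_degree_lt hd h3)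
    · intro h0
      exfalso; apply h0
      rw [mem_Lt, degree_zero]
      exact WithBot.bot_lt_coe _
  rw [h3, mul_one]

end Pool.Agent.H74.TL
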