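import Mathlib

set_option autoImplicit false

/-!
# The square sum after two steps of Cauchy-Schwarz, abstractly
-/

namespace Pool.Agent.H74.TL

theorem absW {α T G : Type} [AddCommGroup G] [Fintype T] [DecidableEq G] (K : Finset α) (M : Finset G)
    (σ : α → G) (a : T → G → Prop) (B : α → G → Prop) [∀ t Z, Decidable (a t Z)]
    [∀ w Z, Decidable (B w Z)] (e : α → G → T → T → ℝ)
    (hM : ∀ w ∈ K, ∀ Z ∈ M, Z + σ w ∈ M) :
    ∑ t, ∑ Z ∈ M, (if a t Z then ∑ t', ∑ Z' ∈ M, (if a t' Z' then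
      (∑ w ∈ K, if Z' = Z + σ w ∧ B w Z then e w Z t t' else 0) ^ 2 else 0) else 0) =
    ∑ t, ∑ t', ∑ w₁ ∈ K, ∑ w₂ ∈ K, if σ w₁ = σ w₂ then ∑ Z ∈ M,
      (if (a t Z ∧ a t' (Z + σ w₁)) ∧ B w₁ Z ∧ B w₂ Z then e w₁ Z t t' * e w₂ Z t t' else 0)
      else 0 := by
  refine Finset.sum_congr rfl fun t _ => ?_
  have key : ∀ Z ∈ M, (if a t Z then ∑ t', ∑ Z' ∈ M, (if a t' Z' then
      (∑ w ∈ K, if Z' = Z + σ w ∧ B w Z then e w Z t t' else 0) ^ 2 else 0) else 0) =
      ∑ t', ∑ w₁ ∈ K, ∑ w₂ ∈ K, (if σ w₁ = σ w₂ then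
        (if (a t Z ∧ a t' (Z + σ w₁)) ∧ B w₁ Z ∧ B w₂ Z then e w₁ Z t t' * e w₂ Z t t' else 0)
        else 0) := by
    intro Z hZ
    by_cases h0 : a t Z
    · rw [if_pos h0]
      refine Finset.sum_congr rfl fun t' _ => ?_
      have e1 : ∀ Z' ∈ M, (if a t' Z' then
          (∑ w ∈ K, if Z' = Z + σ w ∧ B w Z then e w Z t t' else 0) ^ 2 else 0) =
          ∑ w₁ ∈ K, ∑ w₂ ∈ K, (if Z' = Z + σ w₁ then (if σ w₁ = σ w₂ ∧ a t' (Z + σ w₁) ∧ B w₁ Z ∧
            B w₂ Z then e w₁ Z t t' * e w₂ Z t t' else 0) else 0) := by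
        intro Z' _
        by_cases h1 : a t' Z'
        · rw [if_pos h1, sq, Finset.sum_mul_sum]
          refine Finset.sum_congr rfl fun w₁ _ => Finset.sum_congr rfl fun w₂ _ => ?_
          by_cases h2 : Z' = Z + σ w₁
          · by_cases h3 : B w₁ Z
            · by_cases h4 : σ w₁ = σ w₂
              · by_cases h5 : B w₂ Z
                · rw [if_pos ⟨h2, h3⟩, if_pos ⟨by rw [← h4]; exact h2, h5⟩, if_pos h2,
                    if_pos ⟨h4, h2 ▸ h1, h3, h5⟩]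
                · rw [if_neg (c := Z' = Z + σ w₂ ∧ B w₂ Z) (fun h => h5 h.2), mul_zero, if_pos h2,
                    if_neg (fun h => h5 h.2.2.2)]
              · rw [if_neg (c := Z' = Z + σ w₂ ∧ B w₂ Z)
                  (fun h => h4 (add_left_cancel (h2.symm.trans h.1))), mul_zero, if_pos h2,
                  if_neg (fun h => h4 h.1)]
            · rw [if_neg (c := Z' = Z + σ w₁ ∧ B w₁ Z) (fun h => h3 h.2), zero_mul, if_pos h2,
                if_neg (fun h => h3 h.2.2.1)]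
          · rw [if_neg (c := Z' = Z + σ w₁ ∧ B w₁ Z) (fun h => h2 h.1), zero_mul, if_neg h2]
        · rw [if_neg h1]
          symm
          refine Finset.sum_eq_zero fun w₁ _ => Finset.sum_eq_zero fun w₂ _ => ?_
          split_ifs with h2 h3
          · exact absurd (h2 ▸ h3.2.1) h1
          · rfl
          · rfl
      rw [Finset.sum_congr rfl e1, Finset.sum_comm]
      refine Finset.sum_congr rfl fun w₁ hw₁ => ?_
      rw [Finset.sum_comm]
      refine Finset.sum_congr rfl fun w₂ _ => ?_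
      rw [Finset.sum_ite_eq' , if_pos (hM w₁ hw₁ Z hZ)]
      by_cases h1 : σ w₁ = σ w₂
      · rw [if_pos h1]
        by_cases h2 : a t' (Z + σ w₁) ∧ B w₁ Z ∧ B w₂ Z
        · rw [if_pos ⟨h1, h2⟩, if_pos ⟨⟨h0, h2.1⟩, h2.2⟩]
        · rw [if_neg (fun h => h2 h.2), if_neg (fun h => h2 ⟨h.1.2, h.2⟩)]
      · rw [if_neg h1, if_neg (fun h => h1 h.1)]
    · rw [if_neg h0]
      symm
      refine Finset.sum_eq_zero fun t' _ => Finset.sum_eq_zero fun w₁ _ =>
        Finset.sum_eq_zero fun w₂ _ => ?_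
      split_ifs with h1 h2
      · exact absurd h2.1.1 h0
      · rfl
      · rfl
  rw [Finset.sum_congr rfl key, Finset.sum_comm]
  refine Finset.sum_congr rfl fun t' _ => ?_
  rw [Finset.sum_comm]
  refine Finset.sum_congr rfl fun w₁ _ => ?_
  rw [Finset.sum_comm]
  refine Finset.sum_congr rfl fun w₂ _ => ?_
  by_cases h1 : σ w₁ = σ w₂
  · rw [if_pos h1]
    exact Finset.sum_congr rfl fun Z _ => by rw [if_pos h1]
  · rw [if_neg h1]
    exact Finset.sum_eq_zero fun Z _ => by rw [if_neg h1]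

end Pool.Agent.H74.TL
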