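import Pool.Agent.H74.TL.Tb

set_option autoImplicit false

/-!
# Lemma T
-/

namespace Pool.Agent.H74.TL

open Polynomial Pool.Agent.H94.PC Pool.Agent.H94.PS Pool.Agent.H74.ST

variable {F : Type} [Field F] [Finite F]

theorem reidx {x : F[X]} (hx : x.Monic) {d : ℕ} (hd : x.natDegree ≤ d) (Φ : F[X] → ℝ)
    [∀ Y : F[X], Decidable (x ∣ Y)] :
    ∑ Q ∈ Mo F (d - x.natDegree), Φ Q = ∑ Y ∈ Mo F d, if x ∣ Y then Φ (Y /ₘ x) else 0 := by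
  classical
  rw [← Finset.sum_filter]
  refine Finset.sum_bij (fun Q _ => x * Q) ?_ ?_ ?_ ?_
  · intro Q hQ
    obtain ⟨h1, h2⟩ := mem_Mo.1 hQ
    rw [Finset.mem_filter, mem_Mo]
    refine ⟨⟨hx.mul h1, ?_⟩, dvd_mul_right _ _⟩
    rw [hx.natDegree_mul h1]
    omega
  · intro Q _ Q' _ h
    exact mul_left_cancel₀ hx.ne_zero h
  · intro Y hY
    rw [Finset.mem_filter, mem_Mo] at hY
    obtain ⟨⟨h1, h2⟩, Q, hQ⟩ := hY
    have hQm : Q.Monic := hx.of_mul_monic_left (hQ ▸ h1)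
    refine ⟨Q, mem_Mo.2 ⟨hQm, ?_⟩, hQ.symm⟩
    have := congrArg natDegree hQ
    rw [hx.natDegree_mul hQm] at this
    omega
  · intro Q _
    rw [mul_divByMonic_cancel_left Q hx]

section
variable {S T : Type} [Fintype S] [Fintype T]

theorem TS_eq {d μ e r : ℕ} (hed : e ≤ d) (n : F[X]) (b c : F) {sb : S → F[X]} {tb : T → F[X]}
    (hs : SmL e r sb) (ht : SmL e r tb) (f : S → F[X] → ℝ) (g : T → F[X] → ℝ)
    (h : F[X] → S → T → ℝ) (κ : T → F[X]) :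
    TS d μ n b c sb tb f g h κ = TT d μ b c n sb tb (fun s Y => f s (Y /ₘ sb s))
      (fun t Z => g t (Z /ₘ tb t)) (kT sb tb h κ) := by
  classical
  unfold TS TT
  refine Finset.sum_congr rfl fun m _ => Finset.sum_congr rfl fun s _ =>
    Finset.sum_congr rfl fun t _ => ?_
  rw [reidx (hs.mo s) ((hs.dg s).trans hed)]
  refine Finset.sum_congr rfl fun Y _ => ?_
  by_cases h1 : sb s ∣ Y
  · rw [if_pos h1, reidx (ht.mo t) ((ht.dg t).trans hed)]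
    refine Finset.sum_congr rfl fun Z _ => ?_
    have e1 : sb s * (Y /ₘ sb s) = Y := by
      obtain ⟨Q, hQ⟩ := h1
      rw [hQ, mul_divByMonic_cancel_left Q (hs.mo s)]
    by_cases h2 : tb t ∣ Z
    · have e2 : tb t * (Z /ₘ tb t) = Z := by
        obtain ⟨Q, hQ⟩ := h2
        rw [hQ, mul_divByMonic_cancel_left Q (ht.mo t)]
      rw [if_pos h2, e1, e2]
      by_cases h3 : m * n + C b * Y + C c * Z = 0
      · rw [if_pos (c := sb s ∣ Y ∧ tb t ∣ Z ∧ m * n + C b * Y + C c * Z = 0) ⟨h1, h2, h3⟩]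
        unfold kT
        by_cases h4 : IsCoprime Y (tb t)
        · rw [if_pos (c := m * n + C b * Y + C c * Z = 0 ∧ IsCoprime Y (tb t)) ⟨h3, h4⟩, if_pos h4]
          ring
        · rw [if_neg (c := m * n + C b * Y + C c * Z = 0 ∧ IsCoprime Y (tb t)) (fun h => h4 h.2),
            if_neg h4, mul_zero]
      · rw [if_neg (c := m * n + C b * Y + C c * Z = 0 ∧ IsCoprime Y (tb t)) (fun h => h3 h.1),
          if_neg (c := sb s ∣ Y ∧ tb t ∣ Z ∧ m * n + C b * Y + C c * Z = 0) (fun h => h3 h.2.2)]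
    · rw [if_neg h2, if_neg (fun h => h2 h.2.1)]
  · rw [if_neg h1]
    symm
    refine Finset.sum_eq_zero fun Z _ => ?_
    rw [if_neg (fun h => h1 h.1)]

end

/-! ## Counting quadruples of primes -/

theorem card_Pr_le' (μ : ℕ) : ((Pr F μ).card : ℝ) ≤ (Nat.card F : ℝ) ^ μ := by
  exact_mod_cast card_Pr_le (F := F) μ

open Classical in
theorem quad_all (μ : ℕ) :
    ∑ p₁ ∈ Pr F μ ×ˢ Pr F μ, ∑ p₂ ∈ Pr F μ ×ˢ Pr F μ,
      (if p₁.1 - p₁.2 = p₂.1 - p₂.2 then (1 : ℝ) else 0) ≤ (Nat.card F : ℝ) ^ (3 * μ) := by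
  have hq : (0 : ℝ) < (Nat.card F : ℝ) := q_pos
  have h1 : ∀ p₁ ∈ Pr F μ ×ˢ Pr F μ, ∑ p₂ ∈ Pr F μ ×ˢ Pr F μ,
      (if p₁.1 - p₁.2 = p₂.1 - p₂.2 then (1 : ℝ) else 0) ≤ (Nat.card F : ℝ) ^ μ := by
    intro p₁ _
    rw [Finset.sum_boole]
    refine le_trans ?_ (card_Pr_le' (F := F) μ)
    have : ((Pr F μ ×ˢ Pr F μ).filter fun p₂ : F[X] × F[X] => p₁.1 - p₁.2 = p₂.1 - p₂.2).card ≤
        (Pr F μ).card := by
      refine Finset.card_le_card_of_injOn (fun p => p.1) ?_ ?_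
      · intro p hp
        rw [Finset.mem_coe, Finset.mem_filter, Finset.mem_product] at hp
        exact Finset.mem_coe.2 hp.1.1
      · intro p hp p' hp' heq
        rw [Finset.mem_coe, Finset.mem_filter] at hp hp'
        have heq' : p.1 = p'.1 := heq
        have e1 : p.1 - p.2 = p'.1 - p'.2 := hp.2.symm.trans hp'.2
        rw [heq'] at e1
        exact Prod.ext heq' (sub_right_injective e1)
    exact_mod_cast this
  refine (Finset.sum_le_sum h1).trans ?_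
  rw [Finset.sum_const, Finset.card_product, nsmul_eq_mul]
  push_cast
  have h2 := card_Pr_le' (F := F) μ
  have h0 : (0 : ℝ) ≤ ((Pr F μ).card : ℝ) := Nat.cast_nonneg _
  have e : (Nat.card F : ℝ) ^ (3 * μ) = (Nat.card F : ℝ) ^ μ * (Nat.card F : ℝ) ^ μ *
      (Nat.card F : ℝ) ^ μ := by rw [← pow_add, ← pow_add]; congr 1; ring
  rw [e]
  exact mul_le_mul_of_nonneg_right (mul_le_mul h2 h2 h0 (pow_pos hq _).le) (pow_pos hq _).le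

open Classical in
theorem quad_bad (μ : ℕ) :
    ∑ p₁ ∈ Pr F μ ×ˢ Pr F μ, ∑ p₂ ∈ Pr F μ ×ˢ Pr F μ,
      (if p₁.1 - p₁.2 = p₂.1 - p₂.2 ∧ (p₁.1 = p₂.1 ∨ p₁.1 = p₁.2) then (1 : ℝ) else 0) ≤
      2 * (Nat.card F : ℝ) ^ (2 * μ) := by
  have hq : (0 : ℝ) < (Nat.card F : ℝ) := q_pos
  have e : (Nat.card F : ℝ) ^ (2 * μ) = (Nat.card F : ℝ) ^ μ * (Nat.card F : ℝ) ^ μ := by
    rw [← pow_add]; congr 1; ring
  have h2 := card_Pr_le' (F := F) μ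
  have h0 : (0 : ℝ) ≤ ((Pr F μ).card : ℝ) := Nat.cast_nonneg _
  have hcc : ((Pr F μ).card : ℝ) * ((Pr F μ).card : ℝ) ≤ (Nat.card F : ℝ) ^ (2 * μ) := by
    rw [e]; exact mul_le_mul h2 h2 h0 (pow_pos hq _).le
  have hA : ∑ p₁ ∈ Pr F μ ×ˢ Pr F μ, ∑ p₂ ∈ Pr F μ ×ˢ Pr F μ,
      (if p₂ = p₁ then (1 : ℝ) else 0) ≤ (Nat.card F : ℝ) ^ (2 * μ) := by
    refine (Finset.sum_le_sum (g := fun _ => (1 : ℝ)) fun p₁ hp₁ => ?_).trans ?_
    · rw [Finset.sum_ite_eq' , if_pos hp₁]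
    · rw [Finset.sum_const, Finset.card_product, nsmul_eq_mul, mul_one]
      push_cast
      exact hcc
  have hB : ∑ p₁ ∈ Pr F μ ×ˢ Pr F μ, ∑ p₂ ∈ Pr F μ ×ˢ Pr F μ,
      (if p₁.1 = p₁.2 ∧ p₂.1 = p₂.2 then (1 : ℝ) else 0) ≤ (Nat.card F : ℝ) ^ (2 * μ) := by
    have h3 : ∑ p ∈ Pr F μ ×ˢ Pr F μ, (if p.1 = p.2 then (1 : ℝ) else 0) ≤ (Pr F μ).card := by
      rw [Finset.sum_product]
      refine (Finset.sum_le_sum (g := fun _ => (1 : ℝ)) fun a ha => ?_).trans ?_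
      · rw [Finset.sum_ite_eq, if_pos ha]
      · rw [Finset.sum_const, nsmul_eq_mul, mul_one]
    have h4 : ∑ p₁ ∈ Pr F μ ×ˢ Pr F μ, ∑ p₂ ∈ Pr F μ ×ˢ Pr F μ,
        (if p₁.1 = p₁.2 ∧ p₂.1 = p₂.2 then (1 : ℝ) else 0) =
        (∑ p ∈ Pr F μ ×ˢ Pr F μ, (if p.1 = p.2 then (1 : ℝ) else 0)) *
        ∑ p ∈ Pr F μ ×ˢ Pr F μ, (if p.1 = p.2 then (1 : ℝ) else 0) := by
      rw [Finset.sum_mul_sum]
      refine Finset.sum_congr rfl fun p₁ _ => Finset.sum_congr rfl fun p₂ _ => ?_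
      by_cases a1 : p₁.1 = p₁.2 <;> by_cases a2 : p₂.1 = p₂.2 <;> simp [a1, a2]
    rw [h4]
    have h5 : 0 ≤ ∑ p ∈ Pr F μ ×ˢ Pr F μ, (if p.1 = p.2 then (1 : ℝ) else 0) :=
      Finset.sum_nonneg fun p _ => by split_ifs <;> norm_num
    exact (mul_le_mul h3 h3 h5 h0).trans hcc
  have hC : ∑ p₁ ∈ Pr F μ ×ˢ Pr F μ, ∑ p₂ ∈ Pr F μ ×ˢ Pr F μ,
      (if p₁.1 - p₁.2 = p₂.1 - p₂.2 ∧ (p₁.1 = p₂.1 ∨ p₁.1 = p₁.2) then (1 : ℝ) else 0) ≤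
      ∑ p₁ ∈ Pr F μ ×ˢ Pr F μ, ∑ p₂ ∈ Pr F μ ×ˢ Pr F μ, ((if p₂ = p₁ then (1 : ℝ) else 0) +
        (if p₁.1 = p₁.2 ∧ p₂.1 = p₂.2 then (1 : ℝ) else 0)) := by
    refine Finset.sum_le_sum fun p₁ _ => Finset.sum_le_sum fun p₂ _ => ?_
    have hnn1 : (0 : ℝ) ≤ (if p₂ = p₁ then (1 : ℝ) else 0) := by split_ifs <;> norm_num
    have hnn2 : (0 : ℝ) ≤ (if p₁.1 = p₁.2 ∧ p₂.1 = p₂.2 then (1 : ℝ) else 0) := by
      split_ifs <;> norm_num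
    by_cases h3 : p₁.1 - p₁.2 = p₂.1 - p₂.2 ∧ (p₁.1 = p₂.1 ∨ p₁.1 = p₁.2)
    · rw [if_pos h3]
      obtain ⟨h4, h5 | h5⟩ := h3
      · have h6 : p₂ = p₁ := by
          rw [h5] at h4
          exact Prod.ext h5.symm (sub_right_injective h4).symm
        have h7 : (if p₂ = p₁ then (1 : ℝ) else 0) = 1 := if_pos h6
        linarith
      · have h6 : p₁.1 = p₁.2 ∧ p₂.1 = p₂.2 := by
          refine ⟨h5, ?_⟩
          rw [h5, sub_self] at h4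
          exact (sub_eq_zero.1 h4.symm)
        have h7 : (if p₁.1 = p₁.2 ∧ p₂.1 = p₂.2 then (1 : ℝ) else 0) = 1 := if_pos h6
        linarith
    · rw [if_neg h3]
      linarith
  refine hC.trans ?_
  have hD : ∑ p₁ ∈ Pr F μ ×ˢ Pr F μ, ∑ p₂ ∈ Pr F μ ×ˢ Pr F μ, ((if p₂ = p₁ then (1 : ℝ) else 0) +
        (if p₁.1 = p₁.2 ∧ p₂.1 = p₂.2 then (1 : ℝ) else 0)) =
      (∑ p₁ ∈ Pr F μ ×ˢ Pr F μ, ∑ p₂ ∈ Pr F μ ×ˢ Pr F μ, (if p₂ = p₁ then (1 : ℝ) else 0)) +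
      ∑ p₁ ∈ Pr F μ ×ˢ Pr F μ, ∑ p₂ ∈ Pr F μ ×ˢ Pr F μ,
        (if p₁.1 = p₁.2 ∧ p₂.1 = p₂.2 then (1 : ℝ) else 0) := by
    rw [← Finset.sum_add_distrib]
    exact Finset.sum_congr rfl fun p₁ _ => Finset.sum_add_distrib
  rw [hD]
  linarith

section
variable {S T : Type} [Fintype S] [Fintype T]

theorem W2_T_le (h2 : (2 : F) ≠ 0) {e r d μ : ℕ} (he : 1 ≤ e) (hed : 8 * e ≤ d) (hμe : μ ≤ e)
    {b c : F} (hb : b ≠ 0) (hc : c ≠ 0)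
    {n : F[X]} (hn0 : n ≠ 0) (hn : n.natDegree + μ = d) (hlc : n.leadingCoeff + b + c = 0)
    {sb : S → F[X]} {tb : T → F[X]} (hs : SmL e r sb) (ht : SmL e r tb)
    {h : F[X] → S → T → ℝ} (hh : ∀ m s t, |h m s t| ≤ 1) {κ : T → F[X]}
    (hκ : ∀ t, (κ t).Monic ∧ κ t ∣ tb t) :
    W2 d μ b c n sb tb (kT sb tb h κ) ≤
      (2 + 4 * ((1 + r) * (1 + r) * ((1 + r) * (1 + r)) : ℕ)) *
      (3 * e : ℝ) ^ ((1 + r) * (1 + r) * ((1 + r) * (1 + r))) * (Nat.card F : ℝ) ^ (d + 2 * μ) := by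
  classical
  have hq : (0 : ℝ) < (Nat.card F : ℝ) := q_pos
  set R := (1 + r) * (1 + r) * ((1 + r) * (1 + r)) with hR
  set E : ℝ := (3 * e : ℝ) ^ R with hE
  have hE0 : 0 ≤ E := by positivity
  unfold W2
  rw [sum_reorder μ (fun t t' w₁ w₂ => if w₁.2.1 - w₁.2.2 = w₂.2.1 - w₂.2.2 then
        ∑ Z ∈ Mo F d, if A4 c n sb tb t t' w₁.1 w₂.1 (w₁.2.1 - w₁.2.2) w₁.2.1 w₂.2.1 Z then
          kk b c n (kT sb tb h κ) w₁ Z t t' * kk b c n (kT sb tb h κ) w₂ Z t t' else 0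
      else 0)]
  -- for fixed primes
  have hfix : ∀ p₁ ∈ Pr F μ ×ˢ Pr F μ, ∀ p₂ ∈ Pr F μ ×ˢ Pr F μ,
      ∑ x : (T × T) × (S × S), (if p₁.1 - p₁.2 = p₂.1 - p₂.2 then
        ∑ Z ∈ Mo F d, (if A4 c n sb tb x.1.1 x.1.2 x.2.1 x.2.2 (p₁.1 - p₁.2) p₁.1 p₂.1 Z then
          kk b c n (kT sb tb h κ) (x.2.1, p₁) Z x.1.1 x.1.2 *
            kk b c n (kT sb tb h κ) (x.2.2, p₂) Z x.1.1 x.1.2 else 0)
      else 0) ≤
      (if p₁.1 - p₁.2 = p₂.1 - p₂.2 ∧ (p₁.1 = p₂.1 ∨ p₁.1 = p₁.2) then (1 : ℝ) else 0) *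
        ((Nat.card F : ℝ) ^ d * E) +
      (if p₁.1 - p₁.2 = p₂.1 - p₂.2 then (1 : ℝ) else 0) *
        ((Nat.card F : ℝ) ^ d * (4 * ((R : ℕ) * E) / (Nat.card F : ℝ) ^ μ)) := by
    intro p₁ hp₁ p₂ hp₂
    obtain ⟨i1, i1'⟩ := Finset.mem_product.1 hp₁
    obtain ⟨i2, i2'⟩ := Finset.mem_product.1 hp₂
    have hB0 : 0 ≤ (Nat.card F : ℝ) ^ d * (4 * ((R : ℕ) * E) / (Nat.card F : ℝ) ^ μ) := by positivity
    by_cases hl : p₁.1 - p₁.2 = p₂.1 - p₂.2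
    · rw [if_pos (c := p₁.1 - p₁.2 = p₂.1 - p₂.2) hl]
      by_cases hE1 : p₁.1 = p₂.1 ∨ p₁.1 = p₁.2
      · rw [if_pos ⟨hl, hE1⟩, one_mul, one_mul]
        have h3 : ∑ x : (T × T) × (S × S), (if p₁.1 - p₁.2 = p₂.1 - p₂.2 then
            ∑ Z ∈ Mo F d, (if A4 c n sb tb x.1.1 x.1.2 x.2.1 x.2.2 (p₁.1 - p₁.2) p₁.1 p₂.1 Z then
              kk b c n (kT sb tb h κ) (x.2.1, p₁) Z x.1.1 x.1.2 *
                kk b c n (kT sb tb h κ) (x.2.2, p₂) Z x.1.1 x.1.2 else 0)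
            else 0) ≤ ∑ x : (T × T) × (S × S),
              (Nat.card F : ℝ) ^ d * iv (LL (UU sb tb x.1.1 x.1.2 x.2.1 x.2.2)) := by
          refine Finset.sum_le_sum fun x _ => ?_
          rw [if_pos hl]
          exact (le_abs_self _).trans (IS_le (by omega) hs ht _ (abs_kT_le sb tb κ hh) x.1.1 x.1.2
            (x.2.1, p₁) (x.2.2, p₂) (p₁.1 - p₁.2) p₁.1 p₂.1)
        refine h3.trans ?_
        rw [← Finset.mul_sum]
        have h4 := (UF4 hs ht).sum_iv he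
        have h5 := mul_le_mul_of_nonneg_left h4 (pow_pos hq d).le
        linarith
      · rw [if_neg (fun h => hE1 h.2), zero_mul, zero_add, one_mul]
        push Not at hE1
        have h3 : ∑ x : (T × T) × (S × S), (if p₁.1 - p₁.2 = p₂.1 - p₂.2 then
            ∑ Z ∈ Mo F d, (if A4 c n sb tb x.1.1 x.1.2 x.2.1 x.2.2 (p₁.1 - p₁.2) p₁.1 p₂.1 Z then
              kk b c n (kT sb tb h κ) (x.2.1, p₁) Z x.1.1 x.1.2 *
                kk b c n (kT sb tb h κ) (x.2.2, p₂) Z x.1.1 x.1.2 else 0)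
            else 0) ≤ ∑ x : (T × T) × (S × S),
              (Nat.card F : ℝ) ^ d * (if ∃ i, ![p₁.1, p₁.2, p₂.1, p₂.2] i ∈
                UU sb tb x.1.1 x.1.2 x.2.1 x.2.2 then
                iv (LL (UU sb tb x.1.1 x.1.2 x.2.1 x.2.2)) else 0) := by
          refine Finset.sum_le_sum fun x _ => ?_
          rw [if_pos hl]
          by_cases h5 : ∃ i, ![p₁.1, p₁.2, p₂.1, p₂.2] i ∈ UU sb tb x.1.1 x.1.2 x.2.1 x.2.2
          · rw [if_pos h5]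
            exact (le_abs_self _).trans (IS_le (by omega) hs ht _ (abs_kT_le sb tb κ hh) x.1.1 x.1.2
              (x.2.1, p₁) (x.2.2, p₂) (p₁.1 - p₁.2) p₁.1 p₂.1)
          · rw [if_neg h5, mul_zero]
            push Not at h5
            exact le_of_eq (IS_zero h2 hed hμe hb hc hn0 hn hlc hs ht h hκ i1 i1' i2 i2' hl hE1.1
              hE1.2 (h5 0) (h5 1) (h5 2) (h5 3))
        refine h3.trans ?_
        rw [← Finset.mul_sum]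
        refine mul_le_mul_of_nonneg_left ?_ (pow_pos hq d).le
        exact sum_bad he hμe hs ht ![p₁.1, p₁.2, p₂.1, p₂.2] (by
          intro i; fin_cases i <;> assumption)
    · rw [if_neg (fun h => hl h.1), if_neg hl, zero_mul, zero_mul, add_zero]
      refine le_of_eq (Finset.sum_eq_zero fun x _ => ?_)
      rw [if_neg hl]
  refine (Finset.sum_le_sum fun p₁ hp₁ => Finset.sum_le_sum fun p₂ hp₂ => hfix p₁ hp₁ p₂ hp₂).trans ?_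
  have hsplit : ∑ p₁ ∈ Pr F μ ×ˢ Pr F μ, ∑ p₂ ∈ Pr F μ ×ˢ Pr F μ,
      ((if p₁.1 - p₁.2 = p₂.1 - p₂.2 ∧ (p₁.1 = p₂.1 ∨ p₁.1 = p₁.2) then (1 : ℝ) else 0) *
        ((Nat.card F : ℝ) ^ d * E) +
      (if p₁.1 - p₁.2 = p₂.1 - p₂.2 then (1 : ℝ) else 0) *
        ((Nat.card F : ℝ) ^ d * (4 * ((R : ℕ) * E) / (Nat.card F : ℝ) ^ μ))) =
      (∑ p₁ ∈ Pr F μ ×ˢ Pr F μ, ∑ p₂ ∈ Pr F μ ×ˢ Pr F μ,
        (if p₁.1 - p₁.2 = p₂.1 - p₂.2 ∧ (p₁.1 = p₂.1 ∨ p₁.1 = p₁.2) then (1 : ℝ) else 0)) *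
        ((Nat.card F : ℝ) ^ d * E) +
      (∑ p₁ ∈ Pr F μ ×ˢ Pr F μ, ∑ p₂ ∈ Pr F μ ×ˢ Pr F μ,
        (if p₁.1 - p₁.2 = p₂.1 - p₂.2 then (1 : ℝ) else 0)) *
        ((Nat.card F : ℝ) ^ d * (4 * ((R : ℕ) * E) / (Nat.card F : ℝ) ^ μ)) := by
    rw [Finset.sum_mul, Finset.sum_mul, ← Finset.sum_add_distrib]
    refine Finset.sum_congr rfl fun p₁ _ => ?_
    rw [Finset.sum_mul, Finset.sum_mul, ← Finset.sum_add_distrib]
  rw [hsplit]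
  have q1 := quad_bad (F := F) μ
  have q2 := quad_all (F := F) μ
  have hA0 : 0 ≤ (Nat.card F : ℝ) ^ d * E := by positivity
  have hB0 : 0 ≤ (Nat.card F : ℝ) ^ d * (4 * ((R : ℕ) * E) / (Nat.card F : ℝ) ^ μ) := by positivity
  refine (add_le_add (mul_le_mul_of_nonneg_right q1 hA0) (mul_le_mul_of_nonneg_right q2 hB0)).trans
    (le_of_eq ?_)
  have e1 : (Nat.card F : ℝ) ^ (3 * μ) = (Nat.card F : ℝ) ^ (2 * μ) * (Nat.card F : ℝ) ^ μ := by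
    rw [← pow_add]; congr 1; ring
  have e2 : (Nat.card F : ℝ) ^ μ ≠ 0 := (pow_pos hq μ).ne'
  rw [e1, pow_add]
  field_simp

end

theorem three_e_le {e d : ℕ} (h : 10 * e ≤ d) : (3 * e : ℝ) ≤ (d : ℝ) + 1 := by
  have : 3 * e ≤ d + 1 := by omega
  exact_mod_cast this

/-- lemma T -/
theorem tl_main (h2 : (2 : F) ≠ 0) (r : ℕ) : ∃ K : ℕ, ∀ d e μ : ℕ, 10 * e ≤ d → 1 ≤ μ → μ ≤ e →
    ∀ (n : F[X]) (b c : F), b ≠ 0 → c ≠ 0 → n ≠ 0 → n.natDegree + μ = d →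
    ∀ (S T : Type) [Fintype S] [Fintype T] (sb : S → F[X]) (tb : T → F[X]),
      SmL e r sb → SmL e r tb →
    ∀ (f : S → F[X] → ℝ) (g : T → F[X] → ℝ) (h : F[X] → S → T → ℝ) (κ : T → F[X]),
      (∀ s Q, |f s Q| ≤ 1) → (∀ t R, |g t R| ≤ 1) → (∀ m s t, |h m s t| ≤ 1) →
      (∀ t, (κ t).Monic ∧ κ t ∣ tb t) →
      TS d μ n b c sb tb f g h κ ^ 4 * (Nat.card F : ℝ) ^ μ ≤
        K * ((d : ℝ) + 1) ^ K * (K : ℝ) ^ om n * (Nat.card F : ℝ) ^ (4 * (d + μ)) := by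
  set R := (1 + r) * (1 + r) * ((1 + r) * (1 + r)) with hR
  set N := 2 * (1 + r) + (1 + r) * (1 + r) + R with hN
  refine ⟨2 + 4 * R + N, ?_⟩
  intro d e μ hed hμ hμe n b c hb hc hn0 hn S T _ _ sb tb hs ht f g h κ hf hg hh hκ
  have hq : (0 : ℝ) < (Nat.card F : ℝ) := q_pos
  have he : 1 ≤ e := hμ.trans hμe
  have hR1 : (0 : ℝ) ≤ ((2 + 4 * R + N : ℕ) : ℝ) * ((d : ℝ) + 1) ^ (2 + 4 * R + N) *
      ((2 + 4 * R + N : ℕ) : ℝ) ^ om n * (Nat.card F : ℝ) ^ (4 * (d + μ)) := by positivity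
  rw [TS_eq (by omega) n b c hs ht f g h κ]
  by_cases hlc : n.leadingCoeff + b + c = 0
  · obtain ⟨hW0, hmain⟩ := csg he (by omega : 2 * e ≤ d) hb hc hn0 hn hlc hs ht
      (fun s Y => f s (Y /ₘ sb s)) (fun t Z => g t (Z /ₘ tb t)) (kT sb tb h κ)
      (fun s Y => hf _ _) (fun t Z => hg _ _)
    have hW := W2_T_le h2 he (by omega) hμe hb hc hn0 hn hlc hs ht hh hκ
    rw [← hR] at hW
    have h3 := three_e_le hed
    have h30 : (0 : ℝ) ≤ 3 * e := by positivity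
    have hd1 : (1 : ℝ) ≤ (d : ℝ) + 1 := by
      have : (0 : ℝ) ≤ (d : ℝ) := Nat.cast_nonneg d
      linarith
    have step : TT d μ b c n sb tb (fun s Y => f s (Y /ₘ sb s)) (fun t Z => g t (Z /ₘ tb t))
        (kT sb tb h κ) ^ 4 * (Nat.card F : ℝ) ^ μ ≤
        (2 + 4 * (R : ℝ)) * (3 * e : ℝ) ^ N * (Nat.card F : ℝ) ^ (4 * (d + μ)) := by
      refine (mul_le_mul_of_nonneg_right (hmain.trans (mul_le_mul_of_nonneg_left hW
        (by positivity))) (pow_pos hq μ).le).trans (le_of_eq ?_)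
      rw [hN]
      rw [show 4 * (d + μ) = d + d + (d + μ) + (d + 2 * μ) + μ by ring]
      simp only [pow_add, mul_pow, two_mul, ← pow_mul]
      push_cast
      ring
    refine step.trans ?_
    have k1 : (2 + 4 * (R : ℝ)) ≤ ((2 + 4 * R + N : ℕ) : ℝ) := by
      push_cast
      have : (0 : ℝ) ≤ (N : ℝ) := Nat.cast_nonneg N
      linarith
    have k2 : (3 * e : ℝ) ^ N ≤ ((d : ℝ) + 1) ^ (2 + 4 * R + N) :=
      (pow_le_pow_left₀ h30 h3 N).trans (pow_le_pow_right₀ hd1 (by omega))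
    have k3 : (1 : ℝ) ≤ ((2 + 4 * R + N : ℕ) : ℝ) ^ om n := by
      apply one_le_pow₀
      push_cast
      have : (0 : ℝ) ≤ (N : ℝ) := Nat.cast_nonneg N
      have : (0 : ℝ) ≤ (R : ℝ) := Nat.cast_nonneg R
      linarith
    have k4 : (0 : ℝ) ≤ (Nat.card F : ℝ) ^ (4 * (d + μ)) := by positivity
    calc (2 + 4 * (R : ℝ)) * (3 * e : ℝ) ^ N * (Nat.card F : ℝ) ^ (4 * (d + μ))
        ≤ ((2 + 4 * R + N : ℕ) : ℝ) * ((d : ℝ) + 1) ^ (2 + 4 * R + N) *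
          (Nat.card F : ℝ) ^ (4 * (d + μ)) := by
          refine mul_le_mul_of_nonneg_right ?_ k4
          exact mul_le_mul k1 k2 (by positivity) (by positivity)
      _ ≤ _ := by
          refine mul_le_mul_of_nonneg_right ?_ k4
          exact le_mul_of_one_le_right (by positivity) k3
  · rw [TT_zero hn hn0 hlc]
    rw [zero_pow (by norm_num), zero_mul]
    exact hR1

end Pool.Agent.H74.TL
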