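import Pool.Agent.H94.PC.BilinSym
import Pool.Agent.H74.TL.Tfin

set_option autoImplicit false

/-!
# Lemma T2: the bilinear estimate
-/

namespace Pool.Agent.H74.TL

open Polynomial Pool.Agent.H94.PC Pool.Agent.H94.PS Pool.Agent.H74.ST

variable {F : Type} [Field F] [Finite F]

theorem Pr_subset_Sq (μ : ℕ) : Pr F μ ⊆ Sq F μ := by
  intro P hP
  obtain ⟨h1, h2, h3⟩ := mem_Pr.1 hP
  exact mem_Sq.2 ⟨h1, h2, h3.squarefree⟩

theorem bil_one (h2 : (2 : F) ≠ 0) (μ ν : ℕ) (β : F[X] → ℝ) (hβ : ∀ W, |β W| ≤ 1) :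
    (∑ m ∈ Pr F μ, |∑ W ∈ Pr F ν, β W * js m W|) ^ 4 * (Nat.card F : ℝ) ^ (min μ ν) ≤
      (μ + ν + 1) * (Nat.card F : ℝ) ^ (4 * (μ + ν)) := by
  classical
  set X : F[X] → ℝ := fun m => ∑ W ∈ Pr F ν, β W * js m W with hX
  set α : F[X] → ℝ := fun m => if m ∈ Pr F μ then (if 0 ≤ X m then 1 else -1) else 0 with hα
  have hα1 : ∀ m, |α m| ≤ 1 := by
    intro m
    simp only [hα]
    split_ifs <;> norm_num
  have hβ1 : ∀ W, |(if W ∈ Pr F ν then β W else 0)| ≤ 1 := by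
    intro W
    split_ifs
    · exact hβ W
    · rw [abs_zero]; norm_num
  have h1 := bilin_sym h2 μ ν α (fun W => if W ∈ Pr F ν then β W else 0) hα1 hβ1
  have h3 : ∑ A ∈ Sq F μ, ∑ B ∈ Sq F ν, α A * (if B ∈ Pr F ν then β B else 0) * js A B =
      ∑ m ∈ Pr F μ, |X m| := by
    have e1 : ∀ A ∈ Sq F μ, ∑ B ∈ Sq F ν, α A * (if B ∈ Pr F ν then β B else 0) * js A B =
        α A * X A := by
      intro A _
      rw [hX, Finset.mul_sum]
      rw [← Finset.sum_subset (Pr_subset_Sq (F := F) ν) (f := fun B =>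
        α A * (if B ∈ Pr F ν then β B else 0) * js A B)]
      · refine Finset.sum_congr rfl fun B hB => ?_
        rw [if_pos hB]; ring
      · intro B _ hB
        rw [if_neg hB]; ring
    rw [Finset.sum_congr rfl e1]
    rw [← Finset.sum_subset (Pr_subset_Sq (F := F) μ) (f := fun A => α A * X A)]
    · refine Finset.sum_congr rfl fun A hA => ?_
      simp only [hα]
      rw [if_pos hA]
      split_ifs with h4
      · rw [one_mul, abs_of_nonneg h4]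
      · rw [abs_of_neg (not_le.1 h4)]; ring
    · intro A _ hA
      simp only [hα]
      rw [if_neg hA, zero_mul]
  rw [h3] at h1
  exact h1

theorem bil_two (h2 : (2 : F) ≠ 0) (μ ν : ℕ) (β : F[X] → ℝ) (hβ : ∀ W, |β W| ≤ 1) :
    (∑ p ∈ Pr F μ ×ˢ Pr F μ, |∑ W ∈ Pr F ν, β W * (js p.1 W * js p.2 W)|) ^ 4 *
      (Nat.card F : ℝ) ^ (min μ ν) ≤ (μ + ν + 1) * (Nat.card F : ℝ) ^ (4 * (2 * μ + ν)) := by
  have hq : (0 : ℝ) < (Nat.card F : ℝ) := q_pos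
  rw [Finset.sum_product_right]
  have h1 : ∀ m' ∈ Pr F μ, (∑ m ∈ Pr F μ, |∑ W ∈ Pr F ν, β W * (js m W * js m' W)|) ^ 4 ≤
      (μ + ν + 1) * (Nat.card F : ℝ) ^ (4 * (μ + ν)) / (Nat.card F : ℝ) ^ (min μ ν) := by
    intro m' _
    rw [le_div_iff₀ (pow_pos hq _)]
    have h3 := bil_one h2 μ ν (fun W => β W * js m' W) (fun W => by
      rw [abs_mul]
      exact mul_le_one₀ (hβ W) (abs_nonneg _) (abs_js_le _ _))
    refine le_trans (le_of_eq ?_) h3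
    congr 2
    refine Finset.sum_congr rfl fun m _ => ?_
    congr 1
    refine Finset.sum_congr rfl fun W _ => ?_
    ring
  have h4 := inner_bound (Pr F μ) (fun m' => ∑ m ∈ Pr F μ, |∑ W ∈ Pr F ν, β W * (js m W * js m' W)|)
    (fun m' => Finset.sum_nonneg fun m _ => abs_nonneg _)
  have h5 : (∑ m' ∈ Pr F μ, ∑ m ∈ Pr F μ, |∑ W ∈ Pr F ν, β W * (js m W * js m' W)|) ^ 4 ≤
      ((Nat.card F : ℝ) ^ μ) ^ 3 * ((Nat.card F : ℝ) ^ μ *
        ((μ + ν + 1) * (Nat.card F : ℝ) ^ (4 * (μ + ν)) / (Nat.card F : ℝ) ^ (min μ ν))) := by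
    refine h4.trans ?_
    have h6 := card_Pr_le' (F := F) μ
    refine mul_le_mul (pow_le_pow_left₀ (Nat.cast_nonneg _) h6 3) ?_
      (Finset.sum_nonneg fun _ _ => by positivity) (by positivity)
    refine (Finset.sum_le_sum h1).trans ?_
    rw [Finset.sum_const, nsmul_eq_mul]
    exact mul_le_mul_of_nonneg_right h6 (by positivity)
  refine (mul_le_mul_of_nonneg_right h5 (pow_pos hq _).le).trans (le_of_eq ?_)
  rw [show 4 * (2 * μ + ν) = μ * 3 + μ + 4 * (μ + ν) by ring]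
  simp only [pow_add, pow_mul]
  field_simp
where
  inner_bound (s : Finset F[X]) (x : F[X] → ℝ) (hx : ∀ i, 0 ≤ x i) :
      (∑ i ∈ s, x i) ^ 4 ≤ (s.card : ℝ) ^ 3 * ∑ i ∈ s, x i ^ 4 := by
    have h1 : (∑ i ∈ s, x i) ^ 2 ≤ (s.card : ℝ) * ∑ i ∈ s, x i ^ 2 := by
      have := Finset.sum_mul_sq_le_sq_mul_sq s (fun _ => (1 : ℝ)) x
      simpa using this
    have h2 : (∑ i ∈ s, x i ^ 2) ^ 2 ≤ (s.card : ℝ) * ∑ i ∈ s, (x i ^ 2) ^ 2 := by
      have := Finset.sum_mul_sq_le_sq_mul_sq s (fun _ => (1 : ℝ)) (fun i => x i ^ 2)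
      simpa using this
    calc (∑ i ∈ s, x i) ^ 4 = ((∑ i ∈ s, x i) ^ 2) ^ 2 := by ring
      _ ≤ ((s.card : ℝ) * ∑ i ∈ s, x i ^ 2) ^ 2 := pow_le_pow_left₀ (sq_nonneg _) h1 2
      _ = (s.card : ℝ) ^ 2 * (∑ i ∈ s, x i ^ 2) ^ 2 := by ring
      _ ≤ (s.card : ℝ) ^ 2 * ((s.card : ℝ) * ∑ i ∈ s, (x i ^ 2) ^ 2) :=
        mul_le_mul_of_nonneg_left h2 (by positivity)
      _ = (s.card : ℝ) ^ 3 * ∑ i ∈ s, x i ^ 4 := by
        have e : ∀ i ∈ s, (x i ^ 2) ^ 2 = x i ^ 4 := fun i _ => by ring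
        rw [Finset.sum_congr rfl e]; ring

/-- the bound for the bilinear sums -/
noncomputable def BB (F : Type) [Field F] (μ ν : ℕ) : ℝ :=
  ((μ + ν + 1) * (Nat.card F : ℝ) ^ (4 * (2 * μ + ν)) / (Nat.card F : ℝ) ^ (min μ ν)) ^ (1 / 4 : ℝ)

theorem BB_nonneg (μ ν : ℕ) : 0 ≤ BB F μ ν := by
  unfold BB; positivity

theorem BB_pow (μ ν : ℕ) : BB F μ ν ^ 4 * (Nat.card F : ℝ) ^ (min μ ν) =
    (μ + ν + 1) * (Nat.card F : ℝ) ^ (4 * (2 * μ + ν)) := by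
  have hq : (0 : ℝ) < (Nat.card F : ℝ) := q_pos
  unfold BB
  rw [← Real.rpow_natCast, ← Real.rpow_mul (by positivity)]
  norm_num

theorem bil_BB (h2 : (2 : F) ≠ 0) (μ ν : ℕ) (β : F[X] → ℝ) (hβ : ∀ W, |β W| ≤ 1) :
    ∑ p ∈ Pr F μ ×ˢ Pr F μ, |∑ W ∈ Pr F ν, β W * (js p.1 W * js p.2 W)| ≤ BB F μ ν := by
  have hq : (0 : ℝ) < (Nat.card F : ℝ) := q_pos
  have h1 := bil_two h2 μ ν β hβ
  rw [← BB_pow] at h1
  have h3 := le_of_mul_le_mul_right h1 (pow_pos hq _)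
  exact le_of_pow_le_pow_left₀ (by norm_num) (BB_nonneg μ ν) h3

end Pool.Agent.H74.TL
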