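import Mathlib

set_option autoImplicit false

/-!
# Two steps of Cauchy-Schwarz
-/

namespace Pool.Agent.H74.TL

open Classical in
theorem cs2 {α β γ : Type} (I : Finset α) (J : Finset β) (L : Finset γ)
    (Rel : α → β → γ → Prop) (f : β → ℝ) (g : γ → ℝ) (k : α → β → γ → ℝ)
    (hf : ∀ y, |f y| ≤ 1) (hg : ∀ z, |g z| ≤ 1) (N : ℝ)
    (hN : (((L ×ˢ L).filter fun p : γ × γ => ∃ m ∈ I, ∃ m' ∈ I, ∃ y ∈ J,
      Rel m y p.1 ∧ Rel m' y p.2).card : ℝ) ≤ N) :
    (∑ m ∈ I, ∑ y ∈ J, ∑ z ∈ L, (if Rel m y z then f y * g z * k m y z else 0)) ^ 4 ≤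
      (J.card : ℝ) ^ 2 * N * ∑ z ∈ L, ∑ z' ∈ L,
        (∑ y ∈ J, ∑ m ∈ I, ∑ m' ∈ I,
          if Rel m y z ∧ Rel m' y z' then k m y z * k m' y z' else 0) ^ 2 := by
  set G : β → ℝ := fun y => ∑ m ∈ I, ∑ z ∈ L, (if Rel m y z then g z * k m y z else 0) with hG
  set D : γ → γ → ℝ := fun z z' => ∑ y ∈ J, ∑ m ∈ I, ∑ m' ∈ I,
    if Rel m y z ∧ Rel m' y z' then k m y z * k m' y z' else 0 with hD
  have h1 : ∑ m ∈ I, ∑ y ∈ J, ∑ z ∈ L, (if Rel m y z then f y * g z * k m y z else 0) =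
      ∑ y ∈ J, f y * G y := by
    rw [Finset.sum_comm]
    refine Finset.sum_congr rfl fun y _ => ?_
    rw [hG, Finset.mul_sum]
    refine Finset.sum_congr rfl fun m _ => ?_
    rw [Finset.mul_sum]
    refine Finset.sum_congr rfl fun z _ => ?_
    split_ifs <;> ring
  have h2 : (∑ y ∈ J, f y * G y) ^ 2 ≤ (J.card : ℝ) * ∑ y ∈ J, G y ^ 2 := by
    refine (Finset.sum_mul_sq_le_sq_mul_sq J f G).trans ?_
    refine mul_le_mul_of_nonneg_right ?_ (Finset.sum_nonneg fun y _ => sq_nonneg _)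
    refine (Finset.sum_le_sum (g := fun _ => (1 : ℝ)) fun y _ => ?_).trans (by simp)
    rw [← sq_abs]
    exact pow_le_one₀ (abs_nonneg _) (hf y)
  have h3 : ∑ y ∈ J, G y ^ 2 = ∑ z ∈ L, ∑ z' ∈ L, g z * g z' * D z z' := by
    have e1 : ∀ y ∈ J, G y ^ 2 = ∑ z ∈ L, ∑ z' ∈ L, g z * g z' * ∑ m ∈ I, ∑ m' ∈ I,
        (if Rel m y z ∧ Rel m' y z' then k m y z * k m' y z' else 0) := by
      intro y _
      have e2 : G y = ∑ z ∈ L, g z * ∑ m ∈ I, (if Rel m y z then k m y z else 0) := by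
        rw [hG]
        simp only
        rw [Finset.sum_comm]
        refine Finset.sum_congr rfl fun z _ => ?_
        rw [Finset.mul_sum]
        refine Finset.sum_congr rfl fun m _ => ?_
        split_ifs <;> ring
      rw [e2, sq, Finset.sum_mul_sum]
      refine Finset.sum_congr rfl fun z _ => Finset.sum_congr rfl fun z' _ => ?_
      have e3 : ∑ m ∈ I, ∑ m' ∈ I,
          (if Rel m y z ∧ Rel m' y z' then k m y z * k m' y z' else 0) =
          (∑ m ∈ I, (if Rel m y z then k m y z else 0)) *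
          ∑ m' ∈ I, (if Rel m' y z' then k m' y z' else 0) := by
        rw [Finset.sum_mul_sum]
        refine Finset.sum_congr rfl fun m _ => Finset.sum_congr rfl fun m' _ => ?_
        by_cases a1 : Rel m y z <;> by_cases a2 : Rel m' y z'
        · rw [if_pos ⟨a1, a2⟩, if_pos a1, if_pos a2]
        · rw [if_neg (fun h => a2 h.2), if_neg a2, mul_zero]
        · rw [if_neg (fun h => a1 h.1), if_neg a1, zero_mul]
        · rw [if_neg (fun h => a2 h.2), if_neg a2, mul_zero]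
      rw [e3]; ring
    rw [Finset.sum_congr rfl e1, Finset.sum_comm]
    refine Finset.sum_congr rfl fun z _ => ?_
    rw [Finset.sum_comm]
    refine Finset.sum_congr rfl fun z' _ => ?_
    rw [hD, Finset.mul_sum]
  have h4 : (∑ z ∈ L, ∑ z' ∈ L, g z * g z' * D z z') ^ 2 ≤ N * ∑ z ∈ L, ∑ z' ∈ L, D z z' ^ 2 := by
    set Sp := (L ×ˢ L).filter fun p : γ × γ => ∃ m ∈ I, ∃ m' ∈ I, ∃ y ∈ J,
      Rel m y p.1 ∧ Rel m' y p.2 with hSp
    have e1 : ∑ z ∈ L, ∑ z' ∈ L, g z * g z' * D z z' =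
        ∑ p ∈ Sp, (g p.1 * g p.2) * D p.1 p.2 := by
      rw [← Finset.sum_product' (f := fun z z' => g z * g z' * D z z')]
      symm
      refine Finset.sum_subset (Finset.filter_subset _ _) ?_
      intro p hp hp2
      have e2 : D p.1 p.2 = 0 := by
        rw [hD]
        refine Finset.sum_eq_zero fun y hy => Finset.sum_eq_zero fun m hm =>
          Finset.sum_eq_zero fun m' hm' => ?_
        rw [if_neg]
        intro hr
        exact hp2 (Finset.mem_filter.2 ⟨hp, m, hm, m', hm', y, hy, hr⟩)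
      rw [e2, mul_zero]
    rw [e1]
    have e3 := Finset.sum_mul_sq_le_sq_mul_sq Sp (fun _ => (1 : ℝ)) (fun p => (g p.1 * g p.2) * D p.1 p.2)
    simp only [one_mul, one_pow, Finset.sum_const, nsmul_eq_mul, mul_one] at e3
    refine e3.trans ?_
    have e4 : ∑ p ∈ Sp, ((g p.1 * g p.2) * D p.1 p.2) ^ 2 ≤ ∑ z ∈ L, ∑ z' ∈ L, D z z' ^ 2 := by
      rw [← Finset.sum_product' (f := fun z z' => D z z' ^ 2)]
      refine (Finset.sum_le_sum (g := fun p : γ × γ => D p.1 p.2 ^ 2) fun p _ => ?_).trans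
        (Finset.sum_le_sum_of_subset_of_nonneg (Finset.filter_subset _ _) fun _ _ _ => sq_nonneg _)
      rw [mul_pow]
      refine mul_le_of_le_one_left (sq_nonneg _) ?_
      rw [← sq_abs, abs_mul]
      exact pow_le_one₀ (by positivity) (mul_le_one₀ (hg _) (abs_nonneg _) (hg _))
    have e5 : (0 : ℝ) ≤ ∑ z ∈ L, ∑ z' ∈ L, D z z' ^ 2 :=
      Finset.sum_nonneg fun _ _ => Finset.sum_nonneg fun _ _ => sq_nonneg _
    exact mul_le_mul hN e4 (Finset.sum_nonneg fun _ _ => sq_nonneg _)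
      (le_trans (Nat.cast_nonneg _) hN)
  rw [h1]
  have h5 : (∑ y ∈ J, f y * G y) ^ 4 = ((∑ y ∈ J, f y * G y) ^ 2) ^ 2 := by ring
  rw [h5]
  have h6 : ((∑ y ∈ J, f y * G y) ^ 2) ^ 2 ≤ ((J.card : ℝ) * ∑ y ∈ J, G y ^ 2) ^ 2 :=
    pow_le_pow_left₀ (sq_nonneg _) h2 2
  refine h6.trans ?_
  rw [mul_pow, h3, mul_assoc]
  exact mul_le_mul_of_nonneg_left h4 (by positivity)

end Pool.Agent.H74.TL
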