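import Pool.Agent.H74.TL.Cs
import Pool.Agent.H74.TL.Abs
import Pool.Agent.H74.TL.Ap

set_option autoImplicit false

/-!
# Two steps of Cauchy-Schwarz for `m n + b Y + c Z = 0`
-/

namespace Pool.Agent.H74.TL

open Polynomial Pool.Agent.H94.PC Pool.Agent.H94.PS Pool.Agent.H74.ST

variable {F : Type} [Field F] [Finite F]

omit [Finite F] in
/-- `Y` as a function of `m` and `Z` -/
noncomputable def yv (b c : F) (n m Z : F[X]) : F[X] := -(C b⁻¹ * (m * n + C c * Z))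

/-- shifts -/
noncomputable def sh (c : F) (n m : F[X]) : F[X] := C c⁻¹ * (m * n)

omit [Finite F] in
theorem rel_iff {b c : F} (hb : b ≠ 0) (n m Y Z : F[X]) :
    m * n + C b * Y + C c * Z = 0 ↔ Y = yv b c n m Z := by
  have h1 : (C b : F[X]) * C b⁻¹ = 1 := by rw [← C_mul, mul_inv_cancel₀ hb, C_1]
  have h2 : (C b⁻¹ : F[X]) * C b = 1 := by rw [mul_comm]; exact h1
  unfold yv
  constructor
  · intro h
    have h3 : C b * Y = -(m * n + C c * Z) := by linear_combination h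
    calc Y = (C b⁻¹ * C b) * Y := by rw [h2, one_mul]
      _ = C b⁻¹ * (C b * Y) := by ring
      _ = -(C b⁻¹ * (m * n + C c * Z)) := by rw [h3]; ring
  · intro h
    rw [h]
    linear_combination (-(m * n + C c * Z)) * h1

omit [Finite F] in
theorem yv_eq {b c : F} (hc : c ≠ 0) (n m Z : F[X]) :
    yv b c n m Z = -(C (b⁻¹ * c) * (Z + sh c n m)) := by
  unfold yv sh
  have h1 : (C c : F[X]) * C c⁻¹ = 1 := by rw [← C_mul, mul_inv_cancel₀ hc, C_1]
  rw [C_mul]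
  linear_combination (C b⁻¹ * (m * n)) * h1

omit [Finite F] in
theorem dvd_yv {b c : F} (hb : b ≠ 0) (hc : c ≠ 0) (n m Z x : F[X]) :
    x ∣ yv b c n m Z ↔ x ∣ Z + sh c n m := by
  rw [yv_eq hc, dvd_neg]
  have hu : IsUnit (C (b⁻¹ * c) : F[X]) := isUnit_C.2 (mul_ne_zero (inv_ne_zero hb) hc).isUnit
  rw [mul_comm]
  exact hu.dvd_mul_right

omit [Finite F] in
theorem rel2_iff {b c : F} (hb : b ≠ 0) (hc : c ≠ 0) (n m m' Z Z' : F[X]) :
    m' * n + C b * yv b c n m Z + C c * Z' = 0 ↔ Z' = Z + sh c n (m - m') := by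
  have h1 : (C b : F[X]) * C b⁻¹ = 1 := by rw [← C_mul, mul_inv_cancel₀ hb, C_1]
  have h2 : (C c : F[X]) * C c⁻¹ = 1 := by rw [← C_mul, mul_inv_cancel₀ hc, C_1]
  have hC : (C c : F[X]) ≠ 0 := C_ne_zero.2 hc
  unfold yv sh
  constructor
  · intro h
    apply mul_left_cancel₀ hC
    linear_combination h + (m * n + C c * Z) * h1 - ((m - m') * n) * h2
  · intro h
    rw [h]
    linear_combination (-(m * n + C c * Z)) * h1 + ((m - m') * n) * h2

theorem yv_mem {b c : F} (hb : b ≠ 0) {n m Z : F[X]} {d μ : ℕ} (hn : n.natDegree + μ = d)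
    (hn0 : n ≠ 0) (hlc : n.leadingCoeff + b + c = 0) (hm : m.Monic ∧ m.natDegree = μ)
    (hZ : Z ∈ Mo F d) : yv b c n m Z ∈ Mo F d := by
  obtain ⟨hZ1, hZ2⟩ := mem_Mo.1 hZ
  have hmn : (m * n).natDegree = d := by
    rw [natDegree_mul hm.1.ne_zero hn0, hm.2]; omega
  have hle : (yv b c n m Z).natDegree ≤ d := by
    unfold yv
    rw [natDegree_neg]
    refine (natDegree_C_mul_le _ _).trans ((natDegree_add_le _ _).trans (max_le hmn.le ?_))
    exact (natDegree_C_mul_le _ _).trans hZ2.le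
  have hco : (yv b c n m Z).coeff d = 1 := by
    unfold yv
    rw [coeff_neg, coeff_C_mul, coeff_add, coeff_C_mul]
    have e1 : (m * n).coeff d = n.leadingCoeff := by
      rw [← hmn, coeff_natDegree, leadingCoeff_mul, hm.1.leadingCoeff, one_mul]
    have e2 : Z.coeff d = 1 := by rw [← hZ2]; exact hZ1.coeff_natDegree
    rw [e1, e2, mul_one]
    have e3 : n.leadingCoeff + c = -b := by linear_combination hlc
    rw [e3, mul_neg, inv_mul_cancel₀ hb, neg_neg]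
  have hdeg : (yv b c n m Z).natDegree = d :=
    le_antisymm hle (le_natDegree_of_ne_zero (by rw [hco]; exact one_ne_zero))
  rw [mem_Mo]
  refine ⟨?_, hdeg⟩
  rw [Monic, leadingCoeff, hdeg, hco]

omit [Finite F] in
theorem degree_sh {c : F} {n l : F[X]} {d μ : ℕ} (hn : n.natDegree + μ = d) (hl : l.degree < μ) :
    (sh c n l).degree < d := by
  unfold sh
  refine lt_of_le_of_lt (degree_C_mul_le _ _) ?_
  by_cases hl0 : l = 0
  · rw [hl0, zero_mul, degree_zero]; exact WithBot.bot_lt_coe _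
  by_cases hn0 : n = 0
  · rw [hn0, mul_zero, degree_zero]; exact WithBot.bot_lt_coe _
  rw [degree_mul, degree_eq_natDegree hl0, degree_eq_natDegree hn0]
  rw [degree_eq_natDegree hl0] at hl
  have h1 : l.natDegree < μ := by exact_mod_cast hl
  exact_mod_cast (by omega : l.natDegree + n.natDegree < d)
where
  degree_C_mul_le (a : F) (p : F[X]) : (C a * p).degree ≤ p.degree := by
    by_cases ha : a = 0
    · rw [ha, C_0, zero_mul, degree_zero]; exact bot_le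
    · rw [degree_C_mul ha]

omit [Finite F] in
theorem sh_inj {c : F} (hc : c ≠ 0) {n : F[X]} (hn : n ≠ 0) {l l' : F[X]} :
    sh c n l = sh c n l' ↔ l = l' := by
  unfold sh
  have hC : (C c⁻¹ : F[X]) ≠ 0 := C_ne_zero.2 (inv_ne_zero hc)
  constructor
  · intro h
    exact mul_right_cancel₀ hn (mul_left_cancel₀ hC h)
  · rintro rfl; rfl

section
variable {S T : Type} [Fintype S] [Fintype T]

/-- the congruence conditions -/
def A4 (c : F) (n : F[X]) (sb : S → F[X]) (tb : T → F[X]) (t t' : T) (s₁ s₂ : S) (l m₁ m₂ Z : F[X]) :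
    Prop :=
  (tb t ∣ Z ∧ tb t' ∣ Z + sh c n l) ∧ sb s₁ ∣ Z + sh c n m₁ ∧ sb s₂ ∣ Z + sh c n m₂

/-- the product of two values of the kernel -/
noncomputable def kk (b c : F) (n : F[X]) (k : F[X] → S → F[X] → T → ℝ) (w : S × (F[X] × F[X]))
    (Z : F[X]) (t t' : T) : ℝ :=
  k w.2.1 w.1 (yv b c n w.2.1 Z) t * k w.2.2 w.1 (yv b c n w.2.1 Z) t'

variable (S F) in
/-- the inner index set -/
noncomputable def KK (μ : ℕ) : Finset (S × (F[X] × F[X])) :=
  (Finset.univ : Finset S) ×ˢ (Pr F μ ×ˢ Pr F μ)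

open Classical in
/-- the sum after two steps of Cauchy-Schwarz -/
noncomputable def W2 (d μ : ℕ) (b c : F) (n : F[X]) (sb : S → F[X]) (tb : T → F[X])
    (k : F[X] → S → F[X] → T → ℝ) : ℝ :=
  ∑ t, ∑ t', ∑ w₁ ∈ KK F S μ, ∑ w₂ ∈ KK F S μ,
      if w₁.2.1 - w₁.2.2 = w₂.2.1 - w₂.2.2 then
        ∑ Z ∈ Mo F d, if A4 c n sb tb t t' w₁.1 w₂.1 (w₁.2.1 - w₁.2.2) w₁.2.1 w₂.2.1 Z then
          kk b c n k w₁ Z t t' * kk b c n k w₂ Z t t' else 0
      else 0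

open Classical in
/-- the sum before -/
noncomputable def TT (d μ : ℕ) (b c : F) (n : F[X]) (sb : S → F[X]) (tb : T → F[X])
    (f : S → F[X] → ℝ) (g : T → F[X] → ℝ) (k : F[X] → S → F[X] → T → ℝ) : ℝ :=
  ∑ m ∈ Pr F μ, ∑ s, ∑ t, ∑ Y ∈ Mo F d, ∑ Z ∈ Mo F d,
    if sb s ∣ Y ∧ tb t ∣ Z ∧ m * n + C b * Y + C c * Z = 0 then
      f s Y * g t Z * k m s Y t else 0

theorem TT_zero {d μ : ℕ} {b c : F} {n : F[X]} (hn : n.natDegree + μ = d) (hn0 : n ≠ 0)
    (hlc : n.leadingCoeff + b + c ≠ 0) (sb : S → F[X]) (tb : T → F[X])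
    (f : S → F[X] → ℝ) (g : T → F[X] → ℝ) (k : F[X] → S → F[X] → T → ℝ) :
    TT d μ b c n sb tb f g k = 0 := by
  classical
  unfold TT
  refine Finset.sum_eq_zero fun m hm => Finset.sum_eq_zero fun s _ => Finset.sum_eq_zero fun t _ =>
    Finset.sum_eq_zero fun Y hY => Finset.sum_eq_zero fun Z hZ => ?_
  rw [if_neg]
  rintro ⟨_, _, h⟩
  obtain ⟨hm1, hm2, _⟩ := mem_Pr.1 hm
  obtain ⟨hY1, hY2⟩ := mem_Mo.1 hY
  obtain ⟨hZ1, hZ2⟩ := mem_Mo.1 hZ
  apply hlc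
  have h1 := congrArg (fun p : F[X] => p.coeff d) h
  simp only [coeff_add, coeff_C_mul, coeff_zero] at h1
  have hmn : (m * n).natDegree = d := by
    rw [natDegree_mul hm1.ne_zero hn0, hm2]; omega
  have e1 : (m * n).coeff d = n.leadingCoeff := by
    rw [← hmn, coeff_natDegree, leadingCoeff_mul, hm1.leadingCoeff, one_mul]
  have e2 : Z.coeff d = 1 := by rw [← hZ2]; exact hZ1.coeff_natDegree
  have e3 : Y.coeff d = 1 := by rw [← hY2]; exact hY1.coeff_natDegree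
  rw [e1, e2, e3, mul_one, mul_one] at h1
  exact h1

open Classical in
/-- the multiples in `Mo` -/
theorem card_JJ {e r d : ℕ} (he : 1 ≤ e) (hed : e ≤ d) {sb : S → F[X]} (hs : SmL e r sb) :
    ((((Finset.univ : Finset S) ×ˢ Mo F d).filter fun y : S × F[X] => sb y.1 ∣ y.2).card : ℝ) ≤
      (Nat.card F : ℝ) ^ d * (3 * e : ℝ) ^ (1 + r) := by
  have h1 : ((((Finset.univ : Finset S) ×ˢ Mo F d).filter fun y : S × F[X] => sb y.1 ∣ y.2).card : ℝ) =
      ∑ s, (((Mo F d).filter fun Y => sb s ∣ Y).card : ℝ) := by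
    rw [Finset.card_filter]
    push_cast
    rw [Finset.sum_product]
    refine Finset.sum_congr rfl fun s _ => ?_
    rw [Finset.card_filter]
    push_cast
    rfl
  rw [h1]
  have h2 : ∀ s ∈ (Finset.univ : Finset S), (((Mo F d).filter fun Y => sb s ∣ Y).card : ℝ) ≤
      (Nat.card F : ℝ) ^ d * iv (LL (pf (sb s))) := fun s _ => by
    rw [LL_pf (hs.mo s) (hs.sq s)]
    have h3 := card_sep_Mo (hs.mo s) ((hs.dg s).trans hed) (A := fun Y => sb s ∣ Y + 0)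
      (Sep.dvd (sb s) 0)
    simpa using h3
  refine (Finset.sum_le_sum h2).trans ?_
  rw [← Finset.mul_sum]
  exact mul_le_mul_of_nonneg_left ((UF.of_SmL hs).sum_iv he) (pow_pos q_pos _).le

omit [Finite F] in
theorem deg_union [DecidableEq F[X]] {U V : Finset F[X]} (hU : IsP U) (hV : IsP V) :
    (LL (U ∪ V)).natDegree ≤ (LL U).natDegree + (LL V).natDegree := by
  have h1 : LL (U ∪ V) ∣ LL U * LL V := by
    have hUV : IsP (U ∪ V) := by
      intro P hP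
      rcases Finset.mem_union.1 hP with h | h
      exacts [hU P h, hV P h]
    rw [LL_dvd hUV]
    intro P hP
    rcases Finset.mem_union.1 hP with h | h
    · exact ((LL_dvd hU (LL U)).1 dvd_rfl P h).mul_right _
    · exact ((LL_dvd hV (LL V)).1 dvd_rfl P h).mul_left _
  have h2 := natDegree_le_of_dvd h1 ((LL_monic hU).mul (LL_monic hV)).ne_zero
  rwa [(LL_monic hU).natDegree_mul (LL_monic hV)] at h2

open Classical in
/-- the second counting -/
theorem card_LL {e r d μ : ℕ} (he : 1 ≤ e) (hed : 2 * e ≤ d) {c : F}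
    {n : F[X]} {tb : T → F[X]} (ht : SmL e r tb) :
    ∑ l ∈ Lt F μ, ∑ t, ∑ t', (((Mo F d).filter fun Z => tb t ∣ Z ∧ tb t' ∣ Z + sh c n l).card : ℝ) ≤
      (Nat.card F : ℝ) ^ (d + μ) * (3 * e : ℝ) ^ ((1 + r) * (1 + r)) := by
  have h1 : ∀ l ∈ Lt F μ, ∑ t, ∑ t', (((Mo F d).filter fun Z => tb t ∣ Z ∧ tb t' ∣ Z + sh c n l).card : ℝ) ≤
      (Nat.card F : ℝ) ^ d * (3 * e : ℝ) ^ ((1 + r) * (1 + r)) := by
    intro l _
    have hu := UF.of_SmL ht
    have huu := UF.prod hu hu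
    have h3 := huu.sum_iv he
    rw [Fintype.sum_prod_type] at h3
    refine le_trans ?_ (mul_le_mul_of_nonneg_left h3 (pow_pos q_pos _).le)
    rw [Finset.mul_sum]
    refine Finset.sum_le_sum fun t _ => ?_
    rw [Finset.mul_sum]
    refine Finset.sum_le_sum fun t' _ => ?_
    have hdeg : (LL (pf (tb t) ∪ pf (tb t'))).natDegree ≤ d := by
      refine (deg_union (isP_pf _) (isP_pf _)).trans ?_
      rw [LL_pf (ht.mo t) (ht.sq t), LL_pf (ht.mo t') (ht.sq t')]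
      have := ht.dg t
      have := ht.dg t'
      omega
    have hP : IsP (pf (tb t) ∪ pf (tb t')) := by
      intro P hP
      rcases Finset.mem_union.1 hP with h | h
      exacts [isP_pf _ P h, isP_pf _ P h]
    have hsep : Sep (LL (pf (tb t) ∪ pf (tb t'))) (fun Z => tb t ∣ Z + 0 ∧ tb t' ∣ Z + sh c n l) := by
      refine Sep.and (isP_pf _) (isP_pf _) ?_ ?_
      · rw [LL_pf (ht.mo t) (ht.sq t)]; exact Sep.dvd _ _
      · rw [LL_pf (ht.mo t') (ht.sq t')]; exact Sep.dvd _ _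
    have h4 := card_sep_Mo (LL_monic hP) hdeg hsep
    simpa using h4
  refine (Finset.sum_le_sum h1).trans ?_
  rw [Finset.sum_const, card_Lt, nsmul_eq_mul]
  push_cast
  rw [pow_add]
  exact le_of_eq (by ring)

/-- the relation -/
def Rl (b c : F) (n m : F[X]) (y : S × F[X]) (z : T × F[X]) : Prop :=
  m * n + C b * y.2 + C c * z.2 = 0

open Classical in
/-- labelled multiples -/
noncomputable def JJ (d : ℕ) (sb : S → F[X]) : Finset (S × F[X]) :=
  ((Finset.univ : Finset S) ×ˢ Mo F d).filter fun y : S × F[X] => sb y.1 ∣ y.2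

omit [Fintype T] in
theorem mem_JJ {d : ℕ} {sb : S → F[X]} {y : S × F[X]} :
    y ∈ JJ d sb ↔ y.2 ∈ Mo F d ∧ sb y.1 ∣ y.2 := by
  classical
  unfold JJ
  rw [Finset.mem_filter, Finset.mem_product]
  simp

theorem sum_JJ (d : ℕ) (sb : S → F[X]) (G : S × F[X] → ℝ) [∀ s Y, Decidable (sb s ∣ Y)] :
    ∑ y ∈ JJ d sb, G y = ∑ s, ∑ Y ∈ Mo F d, if sb s ∣ Y then G (s, Y) else 0 := by
  classical
  unfold JJ
  rw [Finset.sum_filter, Finset.sum_product]
  refine Finset.sum_congr rfl fun s _ => Finset.sum_congr rfl fun Y _ => ?_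
  by_cases h : sb s ∣ Y
  · rw [if_pos h, if_pos h]
  · rw [if_neg h, if_neg h]

open Classical in
theorem TT_eq (d μ : ℕ) (b c : F) (n : F[X]) (sb : S → F[X]) (tb : T → F[X])
    (f : S → F[X] → ℝ) (g : T → F[X] → ℝ) (k : F[X] → S → F[X] → T → ℝ) :
    TT d μ b c n sb tb f g k = ∑ m ∈ Pr F μ, ∑ y ∈ JJ d sb, ∑ z ∈ JJ d tb,
      (if Rl b c n m y z then (f y.1 y.2) * (g z.1 z.2) * k m y.1 y.2 z.1 else 0) := by
  unfold TT
  refine Finset.sum_congr rfl fun m _ => ?_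
  rw [sum_JJ]
  refine Finset.sum_congr rfl fun s _ => ?_
  rw [Finset.sum_comm]
  refine Finset.sum_congr rfl fun Y _ => ?_
  by_cases h1 : sb s ∣ Y
  · rw [if_pos h1, sum_JJ]
    refine Finset.sum_congr rfl fun t _ => Finset.sum_congr rfl fun Z _ => ?_
    by_cases h2 : tb t ∣ Z
    · rw [if_pos h2]
      by_cases h3 : m * n + C b * Y + C c * Z = 0
      · have h3' : Rl b c n m (s, Y) (t, Z) := h3
        rw [if_pos ⟨h1, h2, h3⟩, if_pos h3']
      · have h3' : ¬ Rl b c n m (s, Y) (t, Z) := h3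
        rw [if_neg (fun h => h3 h.2.2), if_neg h3']
    · rw [if_neg h2, if_neg (fun h => h2 h.2.1)]
  · rw [if_neg h1]
    refine Finset.sum_eq_zero fun t _ => Finset.sum_eq_zero fun Z _ => ?_
    rw [if_neg (fun h => h1 h.1)]

theorem diff_deg {μ : ℕ} {m m' : F[X]} (hm : m ∈ Pr F μ) (hm' : m' ∈ Pr F μ) :
    (m - m').degree < μ :=
  degree_sub_Mo (mem_Mo.2 ⟨(mem_Pr.1 hm).1, (mem_Pr.1 hm).2.1⟩)
    (mem_Mo.2 ⟨(mem_Pr.1 hm').1, (mem_Pr.1 hm').2.1⟩)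

open Classical in
theorem card_supp {e r d μ : ℕ} (he : 1 ≤ e) (hed : 2 * e ≤ d) {b c : F} (hb : b ≠ 0) (hc : c ≠ 0)
    {n : F[X]} {sb : S → F[X]} {tb : T → F[X]} (ht : SmL e r tb) :
    (((JJ d tb ×ˢ JJ d tb).filter fun p : (T × F[X]) × (T × F[X]) => ∃ m ∈ Pr F μ, ∃ m' ∈ Pr F μ,
      ∃ y ∈ JJ d sb, Rl b c n m y p.1 ∧ Rl b c n m' y p.2).card : ℝ) ≤
      (Nat.card F : ℝ) ^ (d + μ) * (3 * e : ℝ) ^ ((1 + r) * (1 + r)) := by
  refine le_trans ?_ (card_LL (F := F) (μ := μ) (c := c) (n := n) he hed ht)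
  have h1 : ((JJ d tb ×ˢ JJ d tb).filter fun p : (T × F[X]) × (T × F[X]) => ∃ m ∈ Pr F μ, ∃ m' ∈ Pr F μ,
      ∃ y ∈ JJ d sb, Rl b c n m y p.1 ∧ Rl b c n m' y p.2).card ≤
    ((Lt F μ).sigma fun l => (Finset.univ : Finset (T × T)).sigma fun tt =>
      (Mo F d).filter fun Z => tb tt.1 ∣ Z ∧ tb tt.2 ∣ Z + sh c n l).card := by
    have hex : ∀ p ∈ (JJ d tb ×ˢ JJ d tb).filter (fun p : (T × F[X]) × (T × F[X]) => ∃ m ∈ Pr F μ,
        ∃ m' ∈ Pr F μ, ∃ y ∈ JJ d sb, Rl b c n m y p.1 ∧ Rl b c n m' y p.2),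
        ∃ l ∈ Lt F μ, p.2.2 = p.1.2 + sh c n l := by
      rintro ⟨z, z'⟩ hp
      rw [Finset.mem_filter] at hp
      obtain ⟨_, m, hm, m', hm', y, hy, hr1, hr2⟩ := hp
      refine ⟨m - m', mem_Lt.2 (diff_deg hm hm'), ?_⟩
      have e1 := (rel_iff hb n m y.2 z.2).1 hr1
      have hr2' : m' * n + C b * y.2 + C c * z'.2 = 0 := hr2
      rw [e1] at hr2'
      exact (rel2_iff hb hc n m m' z.2 z'.2).1 hr2'
    choose! lf hlf1 hlf2 using hex
    refine Finset.card_le_card_of_injOn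
      (fun p => (⟨lf p, ⟨(p.1.1, p.2.1), p.1.2⟩⟩ : (_ : F[X]) × ((_ : T × T) × F[X]))) ?_ ?_
    · intro p hp
      rw [Finset.mem_coe] at hp ⊢
      have e1 := hlf1 p hp
      have e2 := hlf2 p hp
      rw [Finset.mem_filter, Finset.mem_product, mem_JJ, mem_JJ] at hp
      rw [Finset.mem_sigma, Finset.mem_sigma, Finset.mem_filter]
      refine ⟨e1, Finset.mem_univ _, hp.1.1.1, hp.1.1.2, ?_⟩
      rw [← e2]
      exact hp.1.2.2
    · intro p hp p' hp' heq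
      rw [Finset.mem_coe] at hp hp'
      have e2 := hlf2 p hp
      have e2' := hlf2 p' hp'
      simp only [Sigma.mk.injEq, heq_eq_eq, Prod.mk.injEq] at heq
      obtain ⟨a1, ⟨a2, a3⟩, a4⟩ := heq
      rw [a1, a4, ← e2'] at e2
      exact Prod.ext (Prod.ext a2 a4) (Prod.ext a3 e2)
  have h2 : ((((Lt F μ).sigma fun l => (Finset.univ : Finset (T × T)).sigma fun tt =>
      (Mo F d).filter fun Z => tb tt.1 ∣ Z ∧ tb tt.2 ∣ Z + sh c n l).card : ℕ) : ℝ) =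
      ∑ l ∈ Lt F μ, ∑ t, ∑ t',
        (((Mo F d).filter fun Z => tb t ∣ Z ∧ tb t' ∣ Z + sh c n l).card : ℝ) := by
    rw [Finset.card_sigma]
    push_cast
    refine Finset.sum_congr rfl fun l _ => ?_
    rw [Finset.card_sigma]
    push_cast
    rw [Fintype.sum_prod_type]
  rw [← h2]
  exact_mod_cast h1

open Classical in
/-- the inner sum -/
theorem inner_eq {d μ : ℕ} {b c : F} (hb : b ≠ 0) (hc : c ≠ 0)
    {n : F[X]} (hn0 : n ≠ 0) (hn : n.natDegree + μ = d) (hlc : n.leadingCoeff + b + c = 0)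
    (sb : S → F[X]) (k : F[X] → S → F[X] → T → ℝ) (t t' : T) (Z Z' : F[X]) (hZ : Z ∈ Mo F d) :
    (∑ y ∈ JJ d sb, ∑ m ∈ Pr F μ, ∑ m' ∈ Pr F μ,
      if Rl b c n m y (t, Z) ∧ Rl b c n m' y (t', Z') then k m y.1 y.2 t * k m' y.1 y.2 t' else 0) =
    ∑ w ∈ KK F S μ, if Z' = Z + sh c n (w.2.1 - w.2.2) ∧ sb w.1 ∣ Z + sh c n w.2.1 then
      kk b c n k w Z t t' else 0 := by
  unfold KK
  rw [Finset.sum_product, sum_JJ]
  refine Finset.sum_congr rfl fun s _ => ?_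
  rw [Finset.sum_product]
  have e1 : ∀ Y ∈ Mo F d, (if sb s ∣ Y then ∑ m ∈ Pr F μ, ∑ m' ∈ Pr F μ,
      (if Rl b c n m (s, Y) (t, Z) ∧ Rl b c n m' (s, Y) (t', Z') then k m s Y t * k m' s Y t' else 0)
      else 0) =
      ∑ m ∈ Pr F μ, ∑ m' ∈ Pr F μ, (if sb s ∣ Y ∧ Rl b c n m (s, Y) (t, Z) ∧
        Rl b c n m' (s, Y) (t', Z') then k m s Y t * k m' s Y t' else 0) := by
    intro Y _
    by_cases h1 : sb s ∣ Y
    · rw [if_pos h1]
      refine Finset.sum_congr rfl fun m _ => Finset.sum_congr rfl fun m' _ => ?_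
      by_cases h2 : Rl b c n m (s, Y) (t, Z) ∧ Rl b c n m' (s, Y) (t', Z')
      · rw [if_pos h2, if_pos ⟨h1, h2⟩]
      · rw [if_neg h2, if_neg (fun h => h2 h.2)]
    · rw [if_neg h1]
      symm
      refine Finset.sum_eq_zero fun m _ => Finset.sum_eq_zero fun m' _ => ?_
      rw [if_neg (fun h => h1 h.1)]
  rw [Finset.sum_congr rfl e1, Finset.sum_comm]
  refine Finset.sum_congr rfl fun m hm => ?_
  rw [Finset.sum_comm]
  refine Finset.sum_congr rfl fun m' hm' => ?_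
  rw [Finset.sum_eq_single (yv b c n m Z)]
  · have h1 : Rl b c n m (s, yv b c n m Z) (t, Z) := (rel_iff hb n m _ _).2 rfl
    have h2 : Rl b c n m' (s, yv b c n m Z) (t', Z') ↔ Z' = Z + sh c n (m - m') :=
      rel2_iff hb hc n m m' Z Z'
    have h3 : sb s ∣ yv b c n m Z ↔ sb s ∣ Z + sh c n m := dvd_yv hb hc n m Z (sb s)
    by_cases h4 : Z' = Z + sh c n (m - m') ∧ sb s ∣ Z + sh c n m
    · rw [if_pos h4, if_pos ⟨h3.2 h4.2, h1, h2.2 h4.1⟩]
      rfl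
    · rw [if_neg h4, if_neg (fun h => h4 ⟨h2.1 h.2.2, h3.1 h.1⟩)]
  · intro Y _ hY
    rw [if_neg]
    rintro ⟨_, h1, _⟩
    exact hY ((rel_iff hb n m _ _).1 h1)
  · intro h
    exact absurd (yv_mem hb hn hn0 hlc ⟨(mem_Pr.1 hm).1, (mem_Pr.1 hm).2.1⟩ hZ) h

open Classical in
theorem W2_eq {d μ : ℕ} {b c : F} (hb : b ≠ 0) (hc : c ≠ 0)
    {n : F[X]} (hn0 : n ≠ 0) (hn : n.natDegree + μ = d) (hlc : n.leadingCoeff + b + c = 0)
    (sb : S → F[X]) (tb : T → F[X]) (k : F[X] → S → F[X] → T → ℝ) :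
    ∑ z ∈ JJ d tb, ∑ z' ∈ JJ d tb, (∑ y ∈ JJ d sb, ∑ m ∈ Pr F μ, ∑ m' ∈ Pr F μ,
      if Rl b c n m y z ∧ Rl b c n m' y z' then k m y.1 y.2 z.1 * k m' y.1 y.2 z'.1 else 0) ^ 2 =
    W2 d μ b c n sb tb k := by
  have h1 := absW (KK F S μ) (Mo F d) (fun w => sh c n (w.2.1 - w.2.2)) (fun t Z => tb t ∣ Z)
    (fun w Z => sb w.1 ∣ Z + sh c n w.2.1) (fun w Z t t' => kk b c n k w Z t t') (by
      intro w hw Z hZ
      unfold KK at hw
      rw [Finset.mem_product, Finset.mem_product] at hw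
      exact add_mem_Mo hZ (degree_sh hn (diff_deg hw.2.1 hw.2.2)))
  have h2 : W2 d μ b c n sb tb k = ∑ t, ∑ t', ∑ w₁ ∈ KK F S μ, ∑ w₂ ∈ KK F S μ,
      if sh c n (w₁.2.1 - w₁.2.2) = sh c n (w₂.2.1 - w₂.2.2) then ∑ Z ∈ Mo F d,
      (if (tb t ∣ Z ∧ tb t' ∣ Z + sh c n (w₁.2.1 - w₁.2.2)) ∧ sb w₁.1 ∣ Z + sh c n w₁.2.1 ∧
        sb w₂.1 ∣ Z + sh c n w₂.2.1 then kk b c n k w₁ Z t t' * kk b c n k w₂ Z t t' else 0)
      else 0 := by
    unfold W2
    refine Finset.sum_congr rfl fun t _ => Finset.sum_congr rfl fun t' _ =>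
      Finset.sum_congr rfl fun w₁ _ => Finset.sum_congr rfl fun w₂ _ => ?_
    by_cases h3 : w₁.2.1 - w₁.2.2 = w₂.2.1 - w₂.2.2
    · rw [if_pos h3, if_pos ((sh_inj hc hn0).2 h3)]
      exact Finset.sum_congr rfl fun Z _ => if_congr Iff.rfl rfl rfl
    · rw [if_neg h3, if_neg (fun h => h3 ((sh_inj hc hn0).1 h))]
  rw [h2, ← h1, sum_JJ]
  refine Finset.sum_congr rfl fun t _ => Finset.sum_congr rfl fun Z hZ => ?_
  by_cases h3 : tb t ∣ Z
  · rw [if_pos h3, if_pos h3, sum_JJ]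
    refine Finset.sum_congr rfl fun t' _ => Finset.sum_congr rfl fun Z' _ => ?_
    by_cases h4 : tb t' ∣ Z'
    · rw [if_pos h4, if_pos h4]
      have h5 := inner_eq hb hc hn0 hn hlc sb k t t' Z Z' hZ
      exact congrArg (fun x : ℝ => x ^ 2) h5
    · rw [if_neg h4, if_neg h4]
  · rw [if_neg h3, if_neg h3]

/-- two steps of Cauchy-Schwarz -/
theorem csg {e r d μ : ℕ} (he : 1 ≤ e) (hed : 2 * e ≤ d) {b c : F} (hb : b ≠ 0) (hc : c ≠ 0)
    {n : F[X]} (hn0 : n ≠ 0) (hn : n.natDegree + μ = d) (hlc : n.leadingCoeff + b + c = 0)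
    {sb : S → F[X]} {tb : T → F[X]} (hs : SmL e r sb) (ht : SmL e r tb)
    (f : S → F[X] → ℝ) (g : T → F[X] → ℝ) (k : F[X] → S → F[X] → T → ℝ)
    (hf : ∀ s Y, |f s Y| ≤ 1) (hg : ∀ t Z, |g t Z| ≤ 1) :
    0 ≤ W2 d μ b c n sb tb k ∧
    TT d μ b c n sb tb f g k ^ 4 ≤ ((Nat.card F : ℝ) ^ d * (3 * e : ℝ) ^ (1 + r)) ^ 2 *
      ((Nat.card F : ℝ) ^ (d + μ) * (3 * e : ℝ) ^ ((1 + r) * (1 + r))) * W2 d μ b c n sb tb k := by
  classical
  have hcs := cs2 (Pr F μ) (JJ d sb) (JJ d tb) (Rl b c n) (fun y => f y.1 y.2)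
    (fun z => g z.1 z.2) (fun m y z => k m y.1 y.2 z.1) (fun y => hf _ _) (fun z => hg _ _) _
    (card_supp (F := F) (μ := μ) he hed hb hc (n := n) (sb := sb) ht)
  have h1 := TT_eq d μ b c n sb tb f g k
  have h2 := W2_eq hb hc hn0 hn hlc sb tb k
  rw [h2, ← h1] at hcs
  have hW0 : 0 ≤ W2 d μ b c n sb tb k := by
    rw [← h2]
    exact Finset.sum_nonneg fun _ _ => Finset.sum_nonneg fun _ _ => sq_nonneg _
  refine ⟨hW0, hcs.trans ?_⟩
  refine mul_le_mul_of_nonneg_right ?_ hW0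
  refine mul_le_mul_of_nonneg_right ?_ (by have := q_pos (F := F); positivity)
  refine pow_le_pow_left₀ (Nat.cast_nonneg _) ?_ 2
  exact card_JJ he (by omega) hs

end

end Pool.Agent.H74.TL
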