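import Pool.Agent.H94.PS.Defs
import Pool.Agent.H74.ST.Gs

set_option autoImplicit false

/-!
# The sums of the lemmas T and T2, and families of sets of primes
-/

namespace Pool.Agent.H94.PS

open Polynomial
open Pool.Agent.H94.PC

section
variable {F : Type} [Field F] [Finite F]

open Classical in
/-- small labelled polynomials: monic squarefree of degree at most `e`, at most `r ^ om N` of them with
product `N` -/
structure SmL {S : Type} [Fintype S] (e r : ℕ) (sb : S → F[X]) : Prop where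
  mo : ∀ s, (sb s).Monic
  sq : ∀ s, Squarefree (sb s)
  dg : ∀ s, (sb s).natDegree ≤ e
  fib : ∀ N : F[X], (Finset.univ.filter fun s => sb s = N).card ≤ r ^ om N

open Classical in
/-- the sum of lemma T -/
noncomputable def TS {S T : Type} [Fintype S] [Fintype T] (d μ : ℕ) (n : F[X]) (b c : F)
    (sb : S → F[X]) (tb : T → F[X]) (f : S → F[X] → ℝ) (g : T → F[X] → ℝ)
    (h : F[X] → S → T → ℝ) (κ : T → F[X]) : ℝ :=
  ∑ m ∈ Pr F μ, ∑ s, ∑ t, ∑ Q ∈ Mo F (d - (sb s).natDegree),
    ∑ R ∈ Mo F (d - (tb t).natDegree),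
      if m * n + C b * (sb s * Q) + C c * (tb t * R) = 0 ∧ IsCoprime (sb s * Q) (tb t) then
        f s Q * g t R * h m s t * js Q (κ t) * js m Q else 0

open Classical in
/-- the sum of lemma T2 -/
noncomputable def TS2 {S T : Type} [Fintype S] [Fintype T] (d μ ν : ℕ) (n : F[X]) (b c : F)
    (sb : S → F[X]) (tb : T → F[X]) (f : F[X] → S → F[X] → ℝ) (g : T → F[X] → ℝ)
    (h : F[X] → S → T → ℝ) (η : F[X] → S → T → ℝ) (κ : T → F[X]) : ℝ :=
  ∑ m ∈ Pr F μ, ∑ W ∈ Pr F ν, ∑ s, ∑ t, ∑ Q ∈ Mo F (d - ν - (sb s).natDegree),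
    ∑ R ∈ Mo F (d - (tb t).natDegree),
      if m * n + C b * (W * sb s * Q) + C c * (tb t * R) = 0 ∧
          IsCoprime (W * sb s * Q) (tb t) ∧ IsCoprime W (sb s) then
        f W s Q * g t R * h m s t * η W s t * js Q (κ t) * js m W else 0

end

end Pool.Agent.H94.PS

namespace Pool.Agent.H74.TL

open Polynomial Pool.Agent.H94.PC Pool.Agent.H94.PS Pool.Agent.H74.ST

variable {F : Type} [Field F] [Finite F]

/-- the product of a finite set of polynomials -/
noncomputable def LL (U : Finset F[X]) : F[X] := ∏ P ∈ U, P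

/-- `A` is periodic modulo `M` -/
def Per (M : F[X]) (A : F[X] → Prop) : Prop := ∀ Z Z' : F[X], M ∣ Z - Z' → (A Z ↔ A Z')

/-- two solutions of `A` are congruent modulo `M` -/
def Sep (M : F[X]) (A : F[X] → Prop) : Prop := ∀ Z Z' : F[X], A Z → A Z' → M ∣ Z - Z'

open Classical in
/-- a finite family of sets of primes of degree at most `e`, at most `c ^ #B0` of them inside `B0` -/
structure UF {S : Type} [Fintype S] (c e : ℕ) (u : S → Finset F[X]) : Prop where
  sub : ∀ s, u s ⊆ PP F e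
  cnt : ∀ B0 : Finset F[X], (Finset.univ.filter fun s => u s ⊆ B0).card ≤ c ^ B0.card

/-! ## Products of sets of primes -/

omit [Finite F] in
/-- all members are monic irreducible -/
def IsP (U : Finset F[X]) : Prop := ∀ P ∈ U, P.Monic ∧ Irreducible P

omit [Finite F] in
theorem LL_monic {U : Finset F[X]} (hU : IsP U) : (LL U).Monic :=
  monic_prod_of_monic _ _ fun P hP => (hU P hP).1

omit [Finite F] in
theorem coprime_of_ne {P Q : F[X]} (hP : P.Monic ∧ Irreducible P) (hQ : Q.Monic ∧ Irreducible Q)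
    (h : P ≠ Q) : IsCoprime P Q := by
  rw [hP.2.coprime_iff_not_dvd]
  intro hd
  exact h (eq_of_monic_of_associated hP.1 hQ.1 (hP.2.associated_of_dvd hQ.2 hd))

omit [Finite F] in
theorem LL_dvd {U : Finset F[X]} (hU : IsP U) (Z : F[X]) : LL U ∣ Z ↔ ∀ P ∈ U, P ∣ Z := by
  constructor
  · intro h P hP
    exact (Finset.dvd_prod_of_mem (fun P => P) hP).trans h
  · intro h
    unfold LL
    apply Finset.prod_dvd_of_coprime
    · intro P hP Q hQ hne
      exact coprime_of_ne (hU P hP) (hU Q hQ) hne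
    · exact h

omit [Finite F] in
theorem coprime_LL {U : Finset F[X]} (hU : IsP U) {ρ : F[X]} (hρ : ρ.Monic ∧ Irreducible ρ)
    (h : ρ ∉ U) : IsCoprime (LL U) ρ := by
  unfold LL
  apply IsCoprime.prod_left
  intro P hP
  exact coprime_of_ne (hU P hP) hρ (fun he => h (he ▸ hP))

theorem isP_pf (D : F[X]) : IsP (pf D) := fun P hP => by
  have := mem_pf' hP
  exact ⟨this.1, this.2.1⟩

/-- a monic squarefree polynomial is the product of its primes -/
theorem LL_pf {A : F[X]} (hA : A.Monic) (hs : Squarefree A) : LL (pf A) = A := by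
  classical
  have h5 : (LL (pf A)).Monic := LL_monic (isP_pf A)
  have h4 : LL (pf A) ∣ A := (LL_dvd (isP_pf A) A).2 fun P hP => (mem_pf' hP).2.2
  obtain ⟨c, hc⟩ := h4
  have hcm : c.Monic := h5.of_mul_monic_left (hc ▸ hA)
  have hcu : IsUnit c := by
    by_contra hu
    obtain ⟨P, hP1, hP2, hP3⟩ := exists_monic_irreducible_factor c hu
    have hPA : P ∣ A := by rw [hc]; exact hP3.mul_left _
    have hPp : P ∣ LL (pf A) :=
      Finset.dvd_prod_of_mem (fun P => P) ((mem_pf hA.ne_zero).2 ⟨hP1, hP2, hPA⟩)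
    have : P * P ∣ A := by rw [hc]; exact mul_dvd_mul hPp hP3
    exact hP2.not_isUnit (hs P this)
  rw [hcm.eq_one_of_isUnit hcu, mul_one] at hc
  exact hc.symm

omit [Finite F] in
theorem iv_LL {U : Finset F[X]} (hU : IsP U) : iv (LL U) = ∏ P ∈ U, iv P :=
  iv_prod _ _ fun P hP => (hU P hP).1

theorem isP_PP (n : ℕ) : IsP (PP F n) := fun P hP => by
  have := mem_PP.1 hP
  exact ⟨this.1, this.2.1⟩

omit [Finite F] in
theorem IsP.mono {U V : Finset F[X]} (hV : IsP V) (h : U ⊆ V) : IsP U := fun P hP => hV P (h hP)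

/-! ## Families -/

open Classical in
theorem UF.prod {S T : Type} [Fintype S] [Fintype T] {c c' e : ℕ}
    {u : S → Finset F[X]} {v : T → Finset F[X]} (hu : UF c e u) (hv : UF c' e v) :
    UF (c * c') e (fun p : S × T => u p.1 ∪ v p.2) := by
  refine ⟨fun p => Finset.union_subset (hu.sub p.1) (hv.sub p.2), fun B0 => ?_⟩
  have h1 : (Finset.univ.filter fun p : S × T => u p.1 ∪ v p.2 ⊆ B0) ⊆
      (Finset.univ.filter fun s => u s ⊆ B0) ×ˢ (Finset.univ.filter fun t => v t ⊆ B0) := by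
    intro p hp
    have hp2 := Finset.union_subset_iff.1 (Finset.mem_filter.1 hp).2
    exact Finset.mem_product.2 ⟨Finset.mem_filter.2 ⟨Finset.mem_univ _, hp2.1⟩,
      Finset.mem_filter.2 ⟨Finset.mem_univ _, hp2.2⟩⟩
  have h2 := Finset.card_le_card h1
  rw [Finset.card_product] at h2
  rw [mul_pow]
  exact h2.trans (Nat.mul_le_mul (hu.cnt B0) (hv.cnt B0))

theorem UF.of_SmL {S : Type} [Fintype S] {e r : ℕ} {sb : S → F[X]} (h : SmL e r sb) :
    UF (1 + r) e (fun s => pf (sb s)) := by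
  classical
  refine ⟨fun s P hP => ?_, fun B0 => ?_⟩
  · have h1 := mem_pf' hP
    exact mem_PP.2 ⟨h1.1, h1.2.1, (natDegree_le_of_dvd h1.2.2 (h.mo s).ne_zero).trans (h.dg s)⟩
  · have h1 : (Finset.univ.filter fun s => pf (sb s) ⊆ B0) ⊆
        B0.powerset.biUnion fun C0 => Finset.univ.filter fun s => pf (sb s) = C0 := by
      intro s hs
      rw [Finset.mem_filter] at hs
      rw [Finset.mem_biUnion]
      exact ⟨pf (sb s), Finset.mem_powerset.2 hs.2, Finset.mem_filter.2 ⟨Finset.mem_univ _, rfl⟩⟩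
    have h2 : ∀ C0 ∈ B0.powerset, (Finset.univ.filter fun s => pf (sb s) = C0).card ≤ r ^ C0.card := by
      intro C0 _
      rcases Finset.eq_empty_or_nonempty (Finset.univ.filter fun s => pf (sb s) = C0) with h3 | ⟨s0, hs0⟩
      · rw [h3, Finset.card_empty]; exact Nat.zero_le _
      · have hs1 := (Finset.mem_filter.1 hs0).2
        have h4 := h.fib (sb s0)
        have h5 : om (sb s0) = C0.card := by unfold om; rw [hs1]
        rw [h5] at h4
        refine le_trans (Finset.card_le_card ?_) h4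
        intro s hs
        have hs2 := (Finset.mem_filter.1 hs).2
        refine Finset.mem_filter.2 ⟨Finset.mem_univ _, ?_⟩
        rw [← LL_pf (h.mo s) (h.sq s), ← LL_pf (h.mo s0) (h.sq s0), hs2, hs1]
    have h6 : (∑ C0 ∈ B0.powerset, r ^ C0.card) = (1 + r) ^ B0.card := by
      have := Finset.prod_one_add (s := B0) (f := fun _ : F[X] => r)
      rw [Finset.prod_const] at this
      rw [this]
      exact Finset.sum_congr rfl fun C0 _ => by rw [Finset.prod_const]
    calc (Finset.univ.filter fun s => pf (sb s) ⊆ B0).card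
        ≤ (B0.powerset.biUnion fun C0 => Finset.univ.filter fun s => pf (sb s) = C0).card :=
          Finset.card_le_card h1
      _ ≤ ∑ C0 ∈ B0.powerset, (Finset.univ.filter fun s => pf (sb s) = C0).card :=
          Finset.card_biUnion_le
      _ ≤ ∑ C0 ∈ B0.powerset, r ^ C0.card := Finset.sum_le_sum h2
      _ = (1 + r) ^ B0.card := h6

theorem UF.sum_le {S : Type} [Fintype S] {c e : ℕ} {u : S → Finset F[X]} (hu : UF c e u)
    (Φ : Finset F[X] → ℝ) (hΦ : ∀ U, 0 ≤ Φ U) :
    ∑ s, Φ (u s) ≤ ∑ U ∈ (PP F e).powerset, (c : ℝ) ^ U.card * Φ U := by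
  classical
  have h1 : ∀ s ∈ (Finset.univ : Finset S), u s ∈ (PP F e).powerset := fun s _ =>
    Finset.mem_powerset.2 (hu.sub s)
  rw [← Finset.sum_fiberwise_of_maps_to h1]
  refine Finset.sum_le_sum fun U _ => ?_
  have h2 : ∀ s ∈ Finset.univ.filter (fun s => u s = U), Φ (u s) = Φ U := fun s hs => by
    rw [(Finset.mem_filter.1 hs).2]
  rw [Finset.sum_congr rfl h2, Finset.sum_const, nsmul_eq_mul]
  refine mul_le_mul_of_nonneg_right ?_ (hΦ U)
  have h3 := hu.cnt U
  have h4 : (Finset.univ.filter fun s => u s = U).card ≤ c ^ U.card := by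
    refine le_trans (Finset.card_le_card ?_) h3
    intro s hs
    have := (Finset.mem_filter.1 hs).2
    exact Finset.mem_filter.2 ⟨Finset.mem_univ _, this.subset⟩
  exact_mod_cast h4

theorem prod_PP_pow_le (c : ℕ) {e : ℕ} (he : 1 ≤ e) :
    ∏ P ∈ PP F e, (1 + c * iv P) ≤ (3 * e : ℝ) ^ c := by
  have h1 : ∏ P ∈ PP F e, (1 + c * iv P) ≤ Real.exp (∑ P ∈ PP F e, c * iv P) := by
    rw [Real.exp_sum]
    refine Finset.prod_le_prod (fun P _ => by have := iv_nonneg P; positivity) fun P _ => ?_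
    have := Real.add_one_le_exp (c * iv P)
    linarith
  refine h1.trans ?_
  have h2 : ∑ P ∈ PP F e, iv P = SP F e := sum_PP_inv e
  rw [← Finset.mul_sum, h2]
  have h3 : SP F e ≤ 1 + Real.log e := SP_le_log he
  have he0 : (0 : ℝ) < e := by exact_mod_cast he
  have h4 : Real.exp (c * SP F e) = Real.exp (SP F e) ^ c := by
    rw [← Real.exp_nat_mul]
  rw [h4]
  refine pow_le_pow_left₀ (Real.exp_pos _).le ?_ c
  refine (Real.exp_le_exp.2 h3).trans ?_
  rw [Real.exp_add, Real.exp_log he0]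
  have := Real.exp_one_lt_d9
  nlinarith

theorem UF.sum_iv {S : Type} [Fintype S] {c e : ℕ} {u : S → Finset F[X]} (hu : UF c e u)
    (he : 1 ≤ e) : ∑ s, iv (LL (u s)) ≤ (3 * e : ℝ) ^ c := by
  classical
  refine (hu.sum_le (fun U => iv (LL U)) fun U => iv_nonneg _).trans ?_
  have h1 : ∀ U ∈ (PP F e).powerset, (c : ℝ) ^ U.card * iv (LL U) = ∏ P ∈ U, (c * iv P) := by
    intro U hU
    rw [iv_LL ((isP_PP e).mono (Finset.mem_powerset.1 hU)), Finset.prod_mul_distrib,
      Finset.prod_const]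
  rw [Finset.sum_congr rfl h1, ← Finset.prod_one_add]
  exact prod_PP_pow_le c he

open Classical in
theorem UF.sum_iv_mem {S : Type} [Fintype S] {c e : ℕ} {u : S → Finset F[X]} (hu : UF c e u)
    (he : 1 ≤ e) {ρ : F[X]} (hρ : ρ ∈ PP F e) :
    ∑ s, (if ρ ∈ u s then iv (LL (u s)) else 0) ≤ c * iv ρ * (3 * e : ℝ) ^ c := by
  refine (hu.sum_le (fun U => if ρ ∈ U then iv (LL U) else 0) fun U => by
    split_ifs; exacts [iv_nonneg _, le_rfl]).trans ?_
  have h1 : ∀ U ∈ (PP F e).powerset, (c : ℝ) ^ U.card * (if ρ ∈ U then iv (LL U) else 0) =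
      if ρ ∈ U then ∏ P ∈ U, (c * iv P) else 0 := by
    intro U hU
    split_ifs
    · rw [iv_LL ((isP_PP e).mono (Finset.mem_powerset.1 hU)), Finset.prod_mul_distrib,
        Finset.prod_const]
    · rw [mul_zero]
  rw [Finset.sum_congr rfl h1, ← Finset.sum_filter]
  have h2 : ∑ U ∈ (PP F e).powerset.filter (fun U => ρ ∈ U), ∏ P ∈ U, (c * iv P) =
      ∑ U ∈ ((PP F e).erase ρ).powerset, (c * iv ρ) * ∏ P ∈ U, (c * iv P) := by
    symm
    refine Finset.sum_bij (fun U _ => insert ρ U) ?_ ?_ ?_ ?_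
    · intro U hU
      rw [Finset.mem_powerset] at hU
      rw [Finset.mem_filter, Finset.mem_powerset]
      refine ⟨Finset.insert_subset hρ (hU.trans (Finset.erase_subset _ _)), Finset.mem_insert_self _ _⟩
    · intro U hU U' hU' h
      rw [Finset.mem_powerset] at hU hU'
      have e1 : ρ ∉ U := fun h => (Finset.mem_erase.1 (hU h)).1 rfl
      have e2 : ρ ∉ U' := fun h => (Finset.mem_erase.1 (hU' h)).1 rfl
      rw [← Finset.erase_insert e1, ← Finset.erase_insert e2, h]
    · intro U hU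
      rw [Finset.mem_filter, Finset.mem_powerset] at hU
      refine ⟨U.erase ρ, ?_, Finset.insert_erase hU.2⟩
      rw [Finset.mem_powerset]
      exact Finset.erase_subset_erase _ hU.1
    · intro U hU
      rw [Finset.mem_powerset] at hU
      have e1 : ρ ∉ U := fun h => (Finset.mem_erase.1 (hU h)).1 rfl
      rw [Finset.prod_insert e1]
  rw [h2, ← Finset.mul_sum, ← Finset.prod_one_add]
  have h3 : ∏ P ∈ (PP F e).erase ρ, (1 + c * iv P) ≤ ∏ P ∈ PP F e, (1 + c * iv P) := by
    refine Finset.prod_le_prod_of_subset_of_one_le (Finset.erase_subset _ _) ?_ ?_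
    · intro P _; have := iv_nonneg P; positivity
    · intro P _ _; have := iv_nonneg P
      have : 0 ≤ c * iv P := by positivity
      linarith
  refine mul_le_mul_of_nonneg_left (h3.trans (prod_PP_pow_le c he)) ?_
  have := iv_nonneg ρ
  positivity

end Pool.Agent.H74.TL
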