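import Pool.Agent.H74.TL.Csg

set_option autoImplicit false

/-!
# The kernels of lemma T
-/

namespace Pool.Agent.H74.TL

open Polynomial Pool.Agent.H94.PC Pool.Agent.H94.PS Pool.Agent.H74.ST

variable {F : Type} [Field F] [Finite F] {S T : Type}

open Classical in
/-- the kernel of lemma T -/
noncomputable def kT (sb : S → F[X]) (tb : T → F[X]) (h : F[X] → S → T → ℝ) (κ : T → F[X])
    (m : F[X]) (s : S) (Y : F[X]) (t : T) : ℝ :=
  if IsCoprime Y (tb t) then h m s t * js (Y /ₘ sb s) (κ t) * js m (Y /ₘ sb s) else 0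

theorem abs_kT_le (sb : S → F[X]) (tb : T → F[X]) {h : F[X] → S → T → ℝ} (κ : T → F[X])
    (hh : ∀ m s t, |h m s t| ≤ 1) (m : F[X]) (s : S) (Y : F[X]) (t : T) :
    |kT sb tb h κ m s Y t| ≤ 1 := by
  unfold kT
  split_ifs
  · rw [abs_mul, abs_mul]
    exact mul_le_one₀ (mul_le_one₀ (hh _ _ _) (abs_nonneg _) (abs_js_le _ _)) (abs_nonneg _)
      (abs_js_le _ _)
  · rw [abs_zero]; norm_num

omit [Finite F] in
theorem js_sq_one [Finite F] {A B : F[X]} (hB : B.Monic) (h : IsCoprime A B) : js A B * js A B = 1 := by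
  rcases js_cases' hB h with h1 | h1 <;> rw [h1] <;> norm_num

/-- the part of the kernel at the small label -/
theorem eval_small {b c : F} (hb : b ≠ 0) (hc : c ≠ 0) {n m Z x τ κ : F[X]} (hx : x.Monic)
    (hκ : κ.Monic) (hκτ : κ ∣ τ) (hxY : x ∣ yv b c n m Z) (hτZ : τ ∣ Z) :
    (IsCoprime (yv b c n m Z) τ ↔ IsCoprime (-(C b⁻¹ * (m * n))) τ) ∧
    (IsCoprime (yv b c n m Z) τ → js (yv b c n m Z /ₘ x) κ = js x κ * js (-(C b⁻¹ * (m * n))) κ) := by
  have h1 : τ ∣ yv b c n m Z - (-(C b⁻¹ * (m * n))) := by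
    have e : yv b c n m Z - (-(C b⁻¹ * (m * n))) = -(C b⁻¹ * C c) * Z := by unfold yv; ring
    rw [e]
    exact hτZ.mul_left _
  constructor
  · obtain ⟨w, hw⟩ := h1
    have e : yv b c n m Z = -(C b⁻¹ * (m * n)) + τ * w := by rw [← hw]; ring
    rw [e]
    exact IsCoprime.add_mul_left_left_iff
  · intro hcop
    obtain ⟨Q, hQ⟩ := hxY
    have h2 : yv b c n m Z /ₘ x = Q := by
      rw [hQ]; exact mul_divByMonic_cancel_left Q hx
    have h3 : IsCoprime (yv b c n m Z) κ := hcop.of_isCoprime_of_dvd_right hκτ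
    have h4 : IsCoprime x κ := h3.of_isCoprime_of_dvd_left ⟨Q, hQ⟩
    have h5 : js (yv b c n m Z) κ = js (-(C b⁻¹ * (m * n))) κ := js_congr hκ (hκτ.trans h1)
    have h6 : js (yv b c n m Z) κ = js x κ * js Q κ := by
      rw [hQ]; exact js_mul_left hκ x Q
    rw [h2, ← h5, h6, ← mul_assoc, js_sq_one hκ h4, one_mul]

/-- the symbol at `m` -/
theorem eval_m {b c : F} (hb : b ≠ 0) (hc : c ≠ 0) {n m Z x : F[X]} {d : ℕ} (hx : x.Monic)
    (hm : m.Monic) (hmi : Irreducible m) (hmx : ¬ m ∣ x) (hxY : x ∣ yv b c n m Z)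
    (hY : yv b c n m Z ∈ Mo F d) :
    js m (yv b c n m Z /ₘ x) = (ch (-1 : F) ^ (m.natDegree * (d - x.natDegree)) * js x m *
      js (C (-(b⁻¹ * c))) m) * js Z m := by
  obtain ⟨hY1, hY2⟩ := mem_Mo.1 hY
  obtain ⟨Q, hQ⟩ := hxY
  have hQm : Q.Monic := hx.of_mul_monic_left (hQ ▸ hY1)
  have h2 : yv b c n m Z /ₘ x = Q := by
    rw [hQ]; exact mul_divByMonic_cancel_left Q hx
  have hdeg : Q.natDegree = d - x.natDegree := by
    have := congrArg natDegree hQ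
    rw [hx.natDegree_mul hQm, hY2] at this
    omega
  have hcop : IsCoprime x m := (hmi.coprime_iff_not_dvd.2 hmx).symm
  have h3 : js (yv b c n m Z) m = js (C (-(b⁻¹ * c)) * Z) m := by
    refine js_congr hm ?_
    rw [yv_eq hc]
    refine ⟨-(C (b⁻¹ * c) * (C c⁻¹ * n)), ?_⟩
    unfold sh
    rw [C_neg]
    ring
  have h4 : js (yv b c n m Z) m = js x m * js Q m := by
    rw [hQ]; exact js_mul_left hm x Q
  have h5 : js Q m = js x m * (js (C (-(b⁻¹ * c))) m * js Z m) := by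
    rw [← js_mul_left hm (C (-(b⁻¹ * c))) Z, ← h3, h4, ← mul_assoc, js_sq_one hm hcop, one_mul]
  rw [h2, js_recip hm hQm, hdeg, h5]
  ring

open Classical in
/-- the constant in the evaluation of the kernel -/
noncomputable def DT (d : ℕ) (b c : F) (n : F[X]) (sb : S → F[X]) (tb : T → F[X])
    (h : F[X] → S → T → ℝ) (κ : T → F[X]) (m : F[X]) (s : S) (t : T) : ℝ :=
  if IsCoprime (-(C b⁻¹ * (m * n))) (tb t) then
    h m s t * (js (sb s) (κ t) * js (-(C b⁻¹ * (m * n))) (κ t)) *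
      (ch (-1 : F) ^ (m.natDegree * (d - (sb s).natDegree)) * js (sb s) m * js (C (-(b⁻¹ * c))) m)
  else 0

theorem kT_eval {b c : F} (hb : b ≠ 0) (hc : c ≠ 0) {n m Z : F[X]} {d : ℕ} {sb : S → F[X]}
    {tb : T → F[X]} (h : F[X] → S → T → ℝ) {κ : T → F[X]} (hsb : ∀ s, (sb s).Monic)
    (hκ : ∀ t, (κ t).Monic ∧ κ t ∣ tb t) (hm : m.Monic) (hmi : Irreducible m) {s : S} {t : T}
    (hms : ¬ m ∣ sb s) (hs : sb s ∣ yv b c n m Z) (ht : tb t ∣ Z) (hY : yv b c n m Z ∈ Mo F d) :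
    kT sb tb h κ m s (yv b c n m Z) t = DT d b c n sb tb h κ m s t * js Z m := by
  obtain ⟨h1, h2⟩ := eval_small hb hc (hsb s) (hκ t).1 (hκ t).2 hs ht
  have h3 := eval_m hb hc (hsb s) hm hmi hms hs hY
  unfold kT DT
  by_cases h4 : IsCoprime (yv b c n m Z) (tb t)
  · rw [if_pos h4, if_pos (h1.1 h4), h2 h4, h3]
    ring
  · rw [if_neg h4, if_neg (fun h5 => h4 (h1.2 h5)), zero_mul]

omit [Finite F] in
theorem yv_shift {b c : F} (hc : c ≠ 0) (n m m' Z : F[X]) :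
    yv b c n m Z = yv b c n m' (Z + sh c n (m - m')) := by
  unfold yv sh
  have h2 : (C c : F[X]) * C c⁻¹ = 1 := by rw [← C_mul, mul_inv_cancel₀ hc, C_1]
  linear_combination (C b⁻¹ * ((m - m') * n)) * h2

end Pool.Agent.H74.TL
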