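import Pool.Agent.H74.TL.Bi

set_option autoImplicit false

/-!
# Lemma T2: the family with a prime of degree `ν`, the kernel
-/

namespace Pool.Agent.H74.TL

open Polynomial Pool.Agent.H94.PC Pool.Agent.H94.PS Pool.Agent.H74.ST

variable {F : Type} [Field F] [Finite F] {S T : Type}

theorem SmL.mono {S : Type} [Fintype S] {e r r' : ℕ} {sb : S → F[X]} (h : SmL e r sb) (hr : r ≤ r') :
    SmL e r' sb :=
  ⟨h.mo, h.sq, h.dg, fun N => (h.fib N).trans (Nat.pow_le_pow_left hr _)⟩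

/-- the labels together with a prime of degree `ν` prime to them -/
abbrev S2 (ν : ℕ) (sb : S → F[X]) : Type :=
  {p : {W : F[X] // W ∈ Pr F ν} × S // IsCoprime p.1.1 (sb p.2)}

noncomputable instance (ν : ℕ) (sb : S → F[X]) [Fintype S] : Fintype (S2 ν sb) := by
  classical exact inferInstanceAs (Fintype {p : {W : F[X] // W ∈ Pr F ν} × S // IsCoprime p.1.1 (sb p.2)})

/-- the products -/
noncomputable def sb2 (ν : ℕ) (sb : S → F[X]) (p : S2 ν sb) : F[X] := p.1.1.1 * sb p.1.2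

theorem sum_S2 [Fintype S] (ν : ℕ) (sb : S → F[X]) (G : F[X] → S → ℝ)
    [∀ W s, Decidable (IsCoprime W (sb s))] :
    ∑ p : S2 ν sb, G p.1.1.1 p.1.2 =
      ∑ W ∈ Pr F ν, ∑ s, if IsCoprime W (sb s) then G W s else 0 := by
  classical
  have h1 : ∑ W ∈ Pr F ν, ∑ s, (if IsCoprime W (sb s) then G W s else 0) =
      ∑ W : {W : F[X] // W ∈ Pr F ν}, ∑ s, if IsCoprime W.1 (sb s) then G W.1 s else 0 := by
    rw [← Finset.sum_coe_sort (Pr F ν)
      (fun W => ∑ s, (if IsCoprime W (sb s) then G W s else 0))]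
  rw [h1, ← Fintype.sum_prod_type (f := fun p : {W : F[X] // W ∈ Pr F ν} × S =>
    if IsCoprime p.1.1 (sb p.2) then G p.1.1 p.2 else 0), ← Finset.sum_filter]
  symm
  refine Finset.sum_subtype _ (fun x => ?_) (fun p : {W : F[X] // W ∈ Pr F ν} × S => G p.1.1 p.2)
  simp

theorem SmL_sb2 [Fintype S] {e r ν : ℕ} (hν : ν ≤ e) {sb : S → F[X]} (h : SmL (e - ν) r sb) :
    SmL e (2 * (r + 1)) (sb2 ν sb) := by
  classical
  have hW : ∀ p : S2 ν sb, p.1.1.1.Monic ∧ p.1.1.1.natDegree = ν ∧ Irreducible p.1.1.1 := fun p =>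
    mem_Pr.1 p.1.1.2
  refine ⟨fun p => (hW p).1.mul (h.mo _), fun p => ?_, fun p => ?_, fun N => ?_⟩
  · unfold sb2
    rw [squarefree_mul_iff]
    exact ⟨p.2.isRelPrime, (hW p).2.2.squarefree, h.sq _⟩
  · unfold sb2
    rw [(hW p).1.natDegree_mul (h.mo _), (hW p).2.1]
    have := h.dg p.1.2
    omega
  · -- the number of representations
    rcases Finset.eq_empty_or_nonempty (Finset.univ.filter fun p : S2 ν sb => sb2 ν sb p = N) with
      h0 | ⟨p0, hp0⟩
    · rw [h0, Finset.card_empty]; exact Nat.zero_le _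
    · have hp0' := (Finset.mem_filter.1 hp0).2
      have hN : N.Monic := by rw [← hp0']; exact (hW p0).1.mul (h.mo _)
      have h1 : (Finset.univ.filter fun p : S2 ν sb => sb2 ν sb p = N).card ≤
          ((pf N).sigma fun W => Finset.univ.filter fun s => sb s = N /ₘ W).card := by
        refine Finset.card_le_card_of_injOn (fun p => (⟨p.1.1.1, p.1.2⟩ : (_ : F[X]) × S)) ?_ ?_
        · intro p hp
          rw [Finset.mem_coe, Finset.mem_filter] at hp
          have hp2 : p.1.1.1 * sb p.1.2 = N := hp.2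
          rw [Finset.mem_coe, Finset.mem_sigma, Finset.mem_filter]
          refine ⟨(mem_pf hN.ne_zero).2 ⟨(hW p).1, (hW p).2.2, ⟨_, hp2.symm⟩⟩, Finset.mem_univ _, ?_⟩
          show sb p.1.2 = N /ₘ p.1.1.1
          rw [← hp2, mul_divByMonic_cancel_left _ (hW p).1]
        · rintro ⟨⟨⟨W, hWm⟩, s⟩, hc⟩ _ ⟨⟨⟨W', hWm'⟩, s'⟩, hc'⟩ _ heq
          simp only [Sigma.mk.injEq, heq_eq_eq] at heq
          obtain ⟨h3, h4⟩ := heq
          subst h3
          subst h4
          rfl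
      refine h1.trans ?_
      rw [Finset.card_sigma]
      have h2 : ∀ W ∈ pf N, (Finset.univ.filter fun s => sb s = N /ₘ W).card ≤ (r + 1) ^ om N := by
        intro W hWN
        refine (h.fib (N /ₘ W)).trans ?_
        refine (Nat.pow_le_pow_left (Nat.le_succ r) _).trans (Nat.pow_le_pow_right (by omega) ?_)
        unfold om
        refine Finset.card_le_card fun P hP => ?_
        have hP' := mem_pf' hP
        obtain ⟨Q, hQ⟩ := (mem_pf' hWN).2.2
        have e1 : N /ₘ W = Q := by rw [hQ, mul_divByMonic_cancel_left _ (mem_pf' hWN).1]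
        refine (mem_pf hN.ne_zero).2 ⟨hP'.1, hP'.2.1, ?_⟩
        rw [hQ]
        exact (e1 ▸ hP'.2.2).mul_left W
      refine (Finset.sum_le_sum h2).trans ?_
      rw [Finset.sum_const, smul_eq_mul, mul_pow]
      refine Nat.mul_le_mul_right _ ?_
      exact Nat.lt_two_pow_self.le

open Classical in
/-- the kernel of lemma T2 -/
noncomputable def k2 (ν : ℕ) (sb : S → F[X]) (tb : T → F[X]) (h η : F[X] → S → T → ℝ)
    (κ : T → F[X]) (m : F[X]) (p : S2 ν sb) (Y : F[X]) (t : T) : ℝ :=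
  if IsCoprime Y (tb t) then
    h m p.1.2 t * η p.1.1.1 p.1.2 t * js (Y /ₘ sb2 ν sb p) (κ t) * js m p.1.1.1 else 0

theorem abs_k2_le (ν : ℕ) (sb : S → F[X]) (tb : T → F[X]) {h η : F[X] → S → T → ℝ} (κ : T → F[X])
    (hh : ∀ m s t, |h m s t| ≤ 1) (hη : ∀ m s t, |η m s t| ≤ 1) (m : F[X]) (p : S2 ν sb) (Y : F[X])
    (t : T) : |k2 ν sb tb h η κ m p Y t| ≤ 1 := by
  unfold k2
  split_ifs
  · rw [abs_mul, abs_mul, abs_mul]
    exact mul_le_one₀ (mul_le_one₀ (mul_le_one₀ (hh _ _ _) (abs_nonneg _) (hη _ _ _)) (abs_nonneg _)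
      (abs_js_le _ _)) (abs_nonneg _) (abs_js_le _ _)
  · rw [abs_zero]; norm_num

theorem TS2_eq [Fintype S] [Fintype T] {d μ ν e r : ℕ} (hν : ν ≤ e) (hed : e ≤ d) (n : F[X]) (b c : F)
    {sb : S → F[X]} {tb : T → F[X]} (hs : SmL (e - ν) r sb) (ht : SmL e r tb)
    (f : F[X] → S → F[X] → ℝ) (g : T → F[X] → ℝ) (h η : F[X] → S → T → ℝ) (κ : T → F[X]) :
    TS2 d μ ν n b c sb tb f g h η κ = TT d μ b c n (sb2 ν sb) tb
      (fun p Y => f p.1.1.1 p.1.2 (Y /ₘ sb2 ν sb p))
      (fun t Z => g t (Z /ₘ tb t)) (k2 ν sb tb h η κ) := by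
  classical
  unfold TS2 TT
  refine Finset.sum_congr rfl fun m _ => ?_
  have hG := sum_S2 (F := F) ν sb (fun W s => ∑ t, ∑ Y ∈ Mo F d, ∑ Z ∈ Mo F d,
    if W * sb s ∣ Y ∧ tb t ∣ Z ∧ m * n + C b * Y + C c * Z = 0 then
      f W s (Y /ₘ (W * sb s)) * g t (Z /ₘ tb t) * (if IsCoprime Y (tb t) then
        h m s t * η W s t * js (Y /ₘ (W * sb s)) (κ t) * js m W else 0) else 0)
  refine Eq.trans ?_ hG.symm
  refine Finset.sum_congr rfl fun W hW => Finset.sum_congr rfl fun s _ => ?_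
  obtain ⟨w1, w2, w3⟩ := mem_Pr.1 hW
  have hx : (W * sb s).Monic := w1.mul (hs.mo s)
  have hxd : (W * sb s).natDegree = ν + (sb s).natDegree := by
    rw [w1.natDegree_mul (hs.mo s), w2]
  by_cases hc : IsCoprime W (sb s)
  · rw [if_pos hc]
    refine Finset.sum_congr rfl fun t _ => ?_
    have hdd : d - ν - (sb s).natDegree = d - (W * sb s).natDegree := by rw [hxd]; omega
    rw [hdd, reidx hx (by rw [hxd]; have := hs.dg s; omega)]
    refine Finset.sum_congr rfl fun Y _ => ?_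
    by_cases h1 : W * sb s ∣ Y
    · rw [if_pos h1, reidx (ht.mo t) ((ht.dg t).trans hed)]
      refine Finset.sum_congr rfl fun Z _ => ?_
      have e1 : W * sb s * (Y /ₘ (W * sb s)) = Y := by
        obtain ⟨Q, hQ⟩ := h1
        rw [hQ, mul_divByMonic_cancel_left Q hx]
      by_cases h2 : tb t ∣ Z
      · have e2 : tb t * (Z /ₘ tb t) = Z := by
          obtain ⟨Q, hQ⟩ := h2
          rw [hQ, mul_divByMonic_cancel_left Q (ht.mo t)]
        rw [if_pos h2, e1, e2]
        by_cases h3 : m * n + C b * Y + C c * Z = 0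
        · rw [if_pos (c := W * sb s ∣ Y ∧ tb t ∣ Z ∧ m * n + C b * Y + C c * Z = 0) ⟨h1, h2, h3⟩]
          by_cases h4 : IsCoprime Y (tb t)
          · rw [if_pos (c := m * n + C b * Y + C c * Z = 0 ∧ IsCoprime Y (tb t) ∧
              IsCoprime W (sb s)) ⟨h3, h4, hc⟩, if_pos h4]
            ring
          · rw [if_neg (c := m * n + C b * Y + C c * Z = 0 ∧ IsCoprime Y (tb t) ∧
              IsCoprime W (sb s)) (fun h => h4 h.2.1), if_neg h4, mul_zero]
        · rw [if_neg (c := m * n + C b * Y + C c * Z = 0 ∧ IsCoprime Y (tb t) ∧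
              IsCoprime W (sb s)) (fun h => h3 h.1),
            if_neg (c := W * sb s ∣ Y ∧ tb t ∣ Z ∧ m * n + C b * Y + C c * Z = 0)
              (fun h => h3 h.2.2)]
      · rw [if_neg h2, if_neg (fun h => h2 h.2.1)]
    · rw [if_neg h1]
      symm
      refine Finset.sum_eq_zero fun Z _ => ?_
      rw [if_neg (fun h => h1 h.1)]
  · rw [if_neg hc]
    refine Finset.sum_eq_zero fun t _ => Finset.sum_eq_zero fun Q _ =>
      Finset.sum_eq_zero fun R _ => ?_
    rw [if_neg (fun h => hc h.2.2)]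

end Pool.Agent.H74.TL
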