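import Pool.Agent.H74.TL.Tv

set_option autoImplicit false

/-!
# Lemma T: the bound for the square sum
-/

namespace Pool.Agent.H74.TL

open Polynomial Pool.Agent.H94.PC Pool.Agent.H94.PS Pool.Agent.H74.ST

variable {F : Type} [Field F] [Finite F] {S T : Type} [Fintype S] [Fintype T]

omit [Finite F] in
theorem sum_reorder [Finite F] (μ : ℕ) (X : T → T → S × (F[X] × F[X]) → S × (F[X] × F[X]) → ℝ) :
    ∑ t, ∑ t', ∑ w₁ ∈ KK F S μ, ∑ w₂ ∈ KK F S μ, X t t' w₁ w₂ =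
      ∑ p₁ ∈ Pr F μ ×ˢ Pr F μ, ∑ p₂ ∈ Pr F μ ×ˢ Pr F μ, ∑ x : (T × T) × (S × S),
        X x.1.1 x.1.2 (x.2.1, p₁) (x.2.2, p₂) := by
  classical
  have h1 : ∀ (G : S × (F[X] × F[X]) → ℝ), ∑ w ∈ KK F S μ, G w =
      ∑ s, ∑ p ∈ Pr F μ ×ˢ Pr F μ, G (s, p) := by
    intro G
    unfold KK
    rw [Finset.sum_product]
  calc ∑ t, ∑ t', ∑ w₁ ∈ KK F S μ, ∑ w₂ ∈ KK F S μ, X t t' w₁ w₂
      = ∑ tt : T × T, ∑ s₁, ∑ p₁ ∈ Pr F μ ×ˢ Pr F μ, ∑ s₂, ∑ p₂ ∈ Pr F μ ×ˢ Pr F μ,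
          X tt.1 tt.2 (s₁, p₁) (s₂, p₂) := by
        rw [Fintype.sum_prod_type]
        refine Finset.sum_congr rfl fun t _ => Finset.sum_congr rfl fun t' _ => ?_
        rw [h1]
        refine Finset.sum_congr rfl fun s₁ _ => Finset.sum_congr rfl fun p₁ _ => ?_
        rw [h1]
    _ = ∑ tt : T × T, ∑ ss : S × S, ∑ p₁ ∈ Pr F μ ×ˢ Pr F μ, ∑ p₂ ∈ Pr F μ ×ˢ Pr F μ,
          X tt.1 tt.2 (ss.1, p₁) (ss.2, p₂) := by
        refine Finset.sum_congr rfl fun tt _ => ?_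
        rw [Fintype.sum_prod_type]
        refine Finset.sum_congr rfl fun s₁ _ => ?_
        rw [Finset.sum_comm]
    _ = ∑ x : (T × T) × (S × S), ∑ p₁ ∈ Pr F μ ×ˢ Pr F μ, ∑ p₂ ∈ Pr F μ ×ˢ Pr F μ,
          X x.1.1 x.1.2 (x.2.1, p₁) (x.2.2, p₂) := by
        rw [Fintype.sum_prod_type (f := fun x : (T × T) × (S × S) =>
          ∑ p₁ ∈ Pr F μ ×ˢ Pr F μ, ∑ p₂ ∈ Pr F μ ×ˢ Pr F μ,
            X x.1.1 x.1.2 (x.2.1, p₁) (x.2.2, p₂))]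
    _ = ∑ p₁ ∈ Pr F μ ×ˢ Pr F μ, ∑ x : (T × T) × (S × S), ∑ p₂ ∈ Pr F μ ×ˢ Pr F μ,
          X x.1.1 x.1.2 (x.2.1, p₁) (x.2.2, p₂) := Finset.sum_comm
    _ = _ := by
        refine Finset.sum_congr rfl fun p₁ _ => ?_
        rw [Finset.sum_comm]

open Classical in
/-- the family of the four small labels -/
theorem UF4 {e r : ℕ} {sb : S → F[X]} {tb : T → F[X]} (hs : SmL e r sb) (ht : SmL e r tb) :
    UF ((1 + r) * (1 + r) * ((1 + r) * (1 + r))) e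
      (fun x : (T × T) × (S × S) => UU sb tb x.1.1 x.1.2 x.2.1 x.2.2) := by
  have h1 := (UF.of_SmL ht).prod (UF.of_SmL ht)
  have h2 := (UF.of_SmL hs).prod (UF.of_SmL hs)
  exact h1.prod h2

theorem A4_sep {e r : ℕ} {c : F} {n : F[X]} {sb : S → F[X]} {tb : T → F[X]} (hs : SmL e r sb)
    (ht : SmL e r tb) (t t' : T) (s₁ s₂ : S) (l m₁ m₂ : F[X]) :
    Sep (LL (UU sb tb t t' s₁ s₂)) (A4 c n sb tb t t' s₁ s₂ l m₁ m₂) := by
  classical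
  have h1 : Sep (LL (pf (tb t))) (fun Z => tb t ∣ Z) := by
    rw [LL_pf (ht.mo t) (ht.sq t)]
    intro Z Z' h h'
    exact dvd_sub h h'
  have h2 : Sep (LL (pf (tb t'))) (fun Z => tb t' ∣ Z + sh c n l) := by
    rw [LL_pf (ht.mo t') (ht.sq t')]; exact Sep.dvd _ _
  have h3 : Sep (LL (pf (sb s₁))) (fun Z => sb s₁ ∣ Z + sh c n m₁) := by
    rw [LL_pf (hs.mo s₁) (hs.sq s₁)]; exact Sep.dvd _ _
  have h4 : Sep (LL (pf (sb s₂))) (fun Z => sb s₂ ∣ Z + sh c n m₂) := by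
    rw [LL_pf (hs.mo s₂) (hs.sq s₂)]; exact Sep.dvd _ _
  exact Sep.and (isP_union (isP_pf _) (isP_pf _)) (isP_union (isP_pf _) (isP_pf _))
    (Sep.and (isP_pf _) (isP_pf _) h1 h2) (Sep.and (isP_pf _) (isP_pf _) h3 h4)

open Classical in
theorem IS_le {e r d : ℕ} (hed : 4 * e ≤ d) {b c : F}
    {n : F[X]} {sb : S → F[X]} {tb : T → F[X]} (hs : SmL e r sb) (ht : SmL e r tb)
    (k : F[X] → S → F[X] → T → ℝ) (hk : ∀ m s Y t, |k m s Y t| ≤ 1) (t t' : T)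
    (w₁ w₂ : S × (F[X] × F[X])) (l m₁ m₂ : F[X]) :
    |∑ Z ∈ Mo F d, (if A4 c n sb tb t t' w₁.1 w₂.1 l m₁ m₂ Z then
      kk b c n k w₁ Z t t' * kk b c n k w₂ Z t t' else 0)| ≤
      (Nat.card F : ℝ) ^ d * iv (LL (UU sb tb t t' w₁.1 w₂.1)) := by
  have hdeg := (deg_UU hs ht t t' w₁.1 w₂.1).trans hed
  have h1 := card_sep_Mo (LL_monic (isP_UU sb tb t t' w₁.1 w₂.1)) hdeg
    (A4_sep (c := c) (n := n) hs ht t t' w₁.1 w₂.1 l m₁ m₂)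
  refine le_trans ?_ h1
  refine (Finset.abs_sum_le_sum_abs _ _).trans ?_
  rw [← Finset.sum_filter_add_sum_filter_not (Mo F d) (A4 c n sb tb t t' w₁.1 w₂.1 l m₁ m₂)]
  have h3 : ∑ Z ∈ (Mo F d).filter (fun Z => ¬ A4 c n sb tb t t' w₁.1 w₂.1 l m₁ m₂ Z),
      |(if A4 c n sb tb t t' w₁.1 w₂.1 l m₁ m₂ Z then
      kk b c n k w₁ Z t t' * kk b c n k w₂ Z t t' else 0)| = 0 := by
    refine Finset.sum_eq_zero fun Z hZ => ?_
    rw [if_neg (Finset.mem_filter.1 hZ).2, abs_zero]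
  rw [h3, add_zero]
  have hkk : ∀ w Z, |kk b c n k w Z t t'| ≤ 1 := fun w Z => by
    unfold kk
    rw [abs_mul]
    exact mul_le_one₀ (hk _ _ _ _) (abs_nonneg _) (hk _ _ _ _)
  refine (Finset.sum_le_sum (g := fun _ => (1 : ℝ)) fun Z _ => ?_).trans (by simp)
  split_ifs
  · rw [abs_mul]
    exact mul_le_one₀ (hkk _ _) (abs_nonneg _) (hkk _ _)
  · rw [abs_zero]; norm_num

/-- the sum of `1 / |LL U|` over the four labels with one of four primes in `U` -/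
theorem sum_bad {e r μ : ℕ} (he : 1 ≤ e) (hμe : μ ≤ e) {sb : S → F[X]} {tb : T → F[X]}
    (hs : SmL e r sb) (ht : SmL e r tb) (ρ : Fin 4 → F[X]) (hρ : ∀ i, ρ i ∈ Pr F μ)
    [∀ x : (T × T) × (S × S), Decidable (∃ i, ρ i ∈ UU sb tb x.1.1 x.1.2 x.2.1 x.2.2)] :
    ∑ x : (T × T) × (S × S), (if ∃ i, ρ i ∈ UU sb tb x.1.1 x.1.2 x.2.1 x.2.2 then
      iv (LL (UU sb tb x.1.1 x.1.2 x.2.1 x.2.2)) else 0) ≤
      4 * (((1 + r) * (1 + r) * ((1 + r) * (1 + r)) : ℕ) * (3 * e : ℝ) ^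
        ((1 + r) * (1 + r) * ((1 + r) * (1 + r)))) / (Nat.card F : ℝ) ^ μ := by
  classical
  have h1 : ∀ i, ∑ x : (T × T) × (S × S), (if ρ i ∈ UU sb tb x.1.1 x.1.2 x.2.1 x.2.2 then
      iv (LL (UU sb tb x.1.1 x.1.2 x.2.1 x.2.2)) else 0) ≤
      (((1 + r) * (1 + r) * ((1 + r) * (1 + r)) : ℕ) * (3 * e : ℝ) ^
        ((1 + r) * (1 + r) * ((1 + r) * (1 + r)))) / (Nat.card F : ℝ) ^ μ := by
    intro i
    obtain ⟨a1, a2, a3⟩ := mem_Pr.1 (hρ i)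
    have h2 := (UF4 hs ht).sum_iv_mem he (ρ := ρ i) (mem_PP.2 ⟨a1, a3, by omega⟩)
    refine h2.trans (le_of_eq ?_)
    unfold iv
    rw [a2]
    ring
  have h2 : ∀ x : (T × T) × (S × S), (if ∃ i, ρ i ∈ UU sb tb x.1.1 x.1.2 x.2.1 x.2.2 then
      iv (LL (UU sb tb x.1.1 x.1.2 x.2.1 x.2.2)) else 0) ≤
      ∑ i, (if ρ i ∈ UU sb tb x.1.1 x.1.2 x.2.1 x.2.2 then
        iv (LL (UU sb tb x.1.1 x.1.2 x.2.1 x.2.2)) else 0) := by
    intro x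
    have hnn : ∀ i ∈ (Finset.univ : Finset (Fin 4)), 0 ≤ (if ρ i ∈ UU sb tb x.1.1 x.1.2 x.2.1 x.2.2 then
        iv (LL (UU sb tb x.1.1 x.1.2 x.2.1 x.2.2)) else 0) := fun i _ => by
      split_ifs; exacts [iv_nonneg _, le_rfl]
    split_ifs with h3
    · obtain ⟨i, hi⟩ := h3
      refine le_trans ?_ (Finset.single_le_sum hnn (Finset.mem_univ i))
      rw [if_pos hi]
    · exact Finset.sum_nonneg hnn
  refine (Finset.sum_le_sum fun x _ => h2 x).trans ?_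
  rw [Finset.sum_comm]
  refine (Finset.sum_le_sum fun i _ => h1 i).trans (le_of_eq ?_)
  rw [Finset.sum_const, Finset.card_univ, Fintype.card_fin, nsmul_eq_mul]
  push_cast
  ring

end Pool.Agent.H74.TL
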