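import Pool.Agent.H74.TL.Ta

set_option autoImplicit false

/-!
# Lemma T2: the sums over `Z`
-/

namespace Pool.Agent.H74.TL

open Polynomial Pool.Agent.H94.PC Pool.Agent.H94.PS Pool.Agent.H74.ST

variable {F : Type} [Field F] [Finite F] {S T : Type}

open Classical in
/-- the factor of the kernel that depends on `m` -/
noncomputable def D2 (b : F) (n : F[X]) (tb : T → F[X]) (h : F[X] → S → T → ℝ) (κ : T → F[X])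
    (m : F[X]) (s : S) (t : T) : ℝ :=
  if IsCoprime (-(C b⁻¹ * (m * n))) (tb t) then h m s t * js (-(C b⁻¹ * (m * n))) (κ t) else 0

/-- the factor of the kernel that depends on `W` -/
noncomputable def E2 (sb : S → F[X]) (η : F[X] → S → T → ℝ) (κ : T → F[X])
    (W : F[X]) (s : S) (t : T) : ℝ := η W s t * js (W * sb s) (κ t)

theorem abs_D2_le (b : F) (n : F[X]) (tb : T → F[X]) {h : F[X] → S → T → ℝ} (κ : T → F[X])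
    (hh : ∀ m s t, |h m s t| ≤ 1) (m : F[X]) (s : S) (t : T) : |D2 b n tb h κ m s t| ≤ 1 := by
  unfold D2
  split_ifs
  · rw [abs_mul]
    exact mul_le_one₀ (hh _ _ _) (abs_nonneg _) (abs_js_le _ _)
  · rw [abs_zero]; norm_num

theorem abs_E2_le (sb : S → F[X]) {η : F[X] → S → T → ℝ} (κ : T → F[X])
    (hη : ∀ m s t, |η m s t| ≤ 1) (W : F[X]) (s : S) (t : T) : |E2 sb η κ W s t| ≤ 1 := by
  unfold E2
  rw [abs_mul]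
  exact mul_le_one₀ (hη _ _ _) (abs_nonneg _) (abs_js_le _ _)

theorem k2_eval {ν : ℕ} {b c : F} (hb : b ≠ 0) (hc : c ≠ 0) {n m Z : F[X]} {sb : S → F[X]}
    {tb : T → F[X]} (h η : F[X] → S → T → ℝ) {κ : T → F[X]} (hsb : ∀ s, (sb s).Monic)
    (hκ : ∀ t, (κ t).Monic ∧ κ t ∣ tb t) {p : S2 ν sb} {t : T}
    (hs : sb2 ν sb p ∣ yv b c n m Z) (ht : tb t ∣ Z) :
    k2 ν sb tb h η κ m p (yv b c n m Z) t =
      D2 b n tb h κ m p.1.2 t * (E2 sb η κ p.1.1.1 p.1.2 t * js m p.1.1.1) := by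
  have hx : (sb2 ν sb p).Monic := (mem_Pr.1 p.1.1.2).1.mul (hsb _)
  obtain ⟨h1, h2⟩ := eval_small hb hc hx (hκ t).1 (hκ t).2 hs ht
  unfold k2 D2 E2
  by_cases h4 : IsCoprime (yv b c n m Z) (tb t)
  · rw [if_pos h4, if_pos (h1.1 h4), h2 h4]
    unfold sb2
    ring
  · rw [if_neg h4, if_neg (fun h5 => h4 (h1.2 h5)), zero_mul]

section
variable [Fintype S] [Fintype T]

open Classical in
/-- the sum over `Z` -/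
noncomputable def IS2 (d ν : ℕ) (b c : F) (n : F[X]) (sb : S → F[X]) (tb : T → F[X])
    (h η : F[X] → S → T → ℝ) (κ : T → F[X]) (p₁ p₂ : F[X] × F[X]) (t t' : T) (s₁ s₂ : S2 ν sb) : ℝ :=
  ∑ Z ∈ Mo F d, if A4 c n (sb2 ν sb) tb t t' s₁ s₂ (p₁.1 - p₁.2) p₁.1 p₂.1 Z then
    kk b c n (k2 ν sb tb h η κ) (s₁, p₁) Z t t' * kk b c n (k2 ν sb tb h η κ) (s₂, p₂) Z t t' else 0

open Classical in
/-- the number of `Z` for the reduced labels -/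
noncomputable def N0 (d : ℕ) (c : F) (n : F[X]) (sb : S → F[X]) (tb : T → F[X])
    (p₁ p₂ : F[X] × F[X]) (t t' : T) (s₁ s₂ : S) : ℝ :=
  ∑ Z ∈ Mo F d, if A4 c n sb tb t t' s₁ s₂ (p₁.1 - p₁.2) p₁.1 p₂.1 Z then 1 else 0

/-- the good configurations -/
def Gd (sb : S → F[X]) (tb : T → F[X]) (t t' : T) (s₁ s₂ : S) (W₁ W₂ : F[X]) : Prop :=
  W₁ ∉ UU sb tb t t' s₁ s₂ ∧ W₂ ∉ UU sb tb t t' s₁ s₂ ∧ W₁ ≠ W₂

theorem A4_sb2 {ν : ℕ} {c : F} {n : F[X]} {sb : S → F[X]} {tb : T → F[X]} (t t' : T)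
    (s₁ s₂ : S2 ν sb) (l m₁ m₂ Z : F[X]) :
    A4 c n (sb2 ν sb) tb t t' s₁ s₂ l m₁ m₂ Z ↔
      (A4 c n sb tb t t' s₁.1.2 s₂.1.2 l m₁ m₂ Z ∧ s₂.1.1.1 ∣ Z + sh c n m₂) ∧
        s₁.1.1.1 ∣ Z + sh c n m₁ := by
  have key : ∀ (s : S2 ν sb) (A : F[X]), sb2 ν sb s ∣ A ↔ sb s.1.2 ∣ A ∧ s.1.1.1 ∣ A := by
    intro s A
    unfold sb2
    constructor
    · intro h
      exact ⟨(dvd_mul_left _ _).trans h, (dvd_mul_right _ _).trans h⟩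
    · rintro ⟨h1, h2⟩
      exact s.2.mul_dvd h2 h1
  unfold A4
  rw [key, key]
  tauto

theorem N0_good {d ν e r : ℕ} (hd : 8 * e ≤ d) (hν : ν ≤ e) {c : F} {n : F[X]} {sb : S → F[X]}
    {tb : T → F[X]} (hs : SmL (e - ν) r sb) (ht : SmL e r tb) (p₁ p₂ : F[X] × F[X]) (t t' : T)
    (s₁ s₂ : S2 ν sb) (hG : Gd sb tb t t' s₁.1.2 s₂.1.2 s₁.1.1.1 s₂.1.1.1)
    [∀ Z, Decidable (A4 c n (sb2 ν sb) tb t t' s₁ s₂ (p₁.1 - p₁.2) p₁.1 p₂.1 Z)] :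
    (Nat.card F : ℝ) ^ (2 * ν) * ∑ Z ∈ Mo F d,
      (if A4 c n (sb2 ν sb) tb t t' s₁ s₂ (p₁.1 - p₁.2) p₁.1 p₂.1 Z then (1 : ℝ) else 0) =
      N0 d c n sb tb p₁ p₂ t t' s₁.1.2 s₂.1.2 := by
  classical
  obtain ⟨a1, a2, a3⟩ := mem_Pr.1 s₁.1.1.2
  obtain ⟨b1, b2, b3⟩ := mem_Pr.1 s₂.1.1.2
  have hs' : SmL e r sb := ⟨hs.mo, hs.sq, fun s => (hs.dg s).trans (Nat.sub_le _ _), hs.fib⟩
  have hU := isP_UU sb tb t t' s₁.1.2 s₂.1.2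
  have hUd := deg_UU hs' ht t t' s₁.1.2 s₂.1.2
  have hUv := dvd_UU hs' ht t t' s₁.1.2 s₂.1.2
  have hUm := LL_monic hU
  set L := LL (UU sb tb t t' s₁.1.2 s₂.1.2) with hL
  have c1 : IsCoprime (L * s₂.1.1.1) s₁.1.1.1 := IsCoprime.mul_left (coprime_LL hU ⟨a1, a3⟩ hG.1)
    (coprime_of_ne ⟨b1, b3⟩ ⟨a1, a3⟩ hG.2.2.symm)
  have c2 : IsCoprime L s₂.1.1.1 := coprime_LL hU ⟨b1, b3⟩ hG.2.1
  have e1 := equi a1 (hUm.mul b1).ne_zero c1 (d := d)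
    (by rw [hUm.natDegree_mul b1]; omega)
    (fun Z => A4 c n sb tb t t' s₁.1.2 s₂.1.2 (p₁.1 - p₁.2) p₁.1 p₂.1 Z ∧
      s₂.1.1.1 ∣ Z + sh c n p₂.1) (by
      intro Z a
      refine and_congr ?_ ?_
      · exact A4_shift ⟨⟨hUv.1.1.mul_right _, hUv.1.2.mul_right _⟩, hUv.2.1.mul_right _,
          hUv.2.2.mul_right _⟩ Z a
      · have e : Z + L * s₂.1.1.1 * a + sh c n p₂.1 = (Z + sh c n p₂.1) + s₂.1.1.1 * (L * a) := by ring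
        rw [e]
        exact dvd_add_left (dvd_mul_right _ _)) (sh c n p₁.1)
  have e2 := equi b1 hUm.ne_zero c2 (d := d) (by omega)
    (fun Z => A4 c n sb tb t t' s₁.1.2 s₂.1.2 (p₁.1 - p₁.2) p₁.1 p₂.1 Z) (by
      intro Z a
      exact A4_shift hUv Z a) (sh c n p₂.1)
  have e3 : ∑ Z ∈ Mo F d,
      (if A4 c n (sb2 ν sb) tb t t' s₁ s₂ (p₁.1 - p₁.2) p₁.1 p₂.1 Z then (1 : ℝ) else 0) =
      ∑ Z ∈ Mo F d, (if (A4 c n sb tb t t' s₁.1.2 s₂.1.2 (p₁.1 - p₁.2) p₁.1 p₂.1 Z ∧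
        s₂.1.1.1 ∣ Z + sh c n p₂.1) ∧ s₁.1.1.1 ∣ Z + sh c n p₁.1 then (1 : ℝ) else 0) :=
    Finset.sum_congr rfl fun Z _ => if_congr (A4_sb2 t t' s₁ s₂ _ _ _ Z) rfl rfl
  rw [a2] at e1
  rw [b2] at e2
  have e4 : (Nat.card F : ℝ) ^ ν * ∑ Z ∈ Mo F d, (if (A4 c n sb tb t t' s₁.1.2 s₂.1.2
      (p₁.1 - p₁.2) p₁.1 p₂.1 Z ∧ s₂.1.1.1 ∣ Z + sh c n p₂.1) ∧ s₁.1.1.1 ∣ Z + sh c n p₁.1
      then (1 : ℝ) else 0) = ∑ Z ∈ Mo F d, (if A4 c n sb tb t t' s₁.1.2 s₂.1.2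
      (p₁.1 - p₁.2) p₁.1 p₂.1 Z ∧ s₂.1.1.1 ∣ Z + sh c n p₂.1 then (1 : ℝ) else 0) := by
    convert e1
  have e5 : (Nat.card F : ℝ) ^ ν * ∑ Z ∈ Mo F d, (if A4 c n sb tb t t' s₁.1.2 s₂.1.2
      (p₁.1 - p₁.2) p₁.1 p₂.1 Z ∧ s₂.1.1.1 ∣ Z + sh c n p₂.1 then (1 : ℝ) else 0) =
      N0 d c n sb tb p₁ p₂ t t' s₁.1.2 s₂.1.2 := by
    unfold N0
    convert e2
  rw [e3, two_mul, pow_add, mul_assoc, e4, e5]

theorem IS2_term {ν : ℕ} {b c : F} (hb : b ≠ 0) (hc : c ≠ 0) {n : F[X]}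
    {sb : S → F[X]} {tb : T → F[X]} (hsb : ∀ s, (sb s).Monic)
    (h η : F[X] → S → T → ℝ) {κ : T → F[X]} (hκ : ∀ t, (κ t).Monic ∧ κ t ∣ tb t)
    {p₁ p₂ : F[X] × F[X]} (hl : p₁.1 - p₁.2 = p₂.1 - p₂.2) {t t' : T} {s₁ s₂ : S2 ν sb} {Z : F[X]}
    (hA : A4 c n (sb2 ν sb) tb t t' s₁ s₂ (p₁.1 - p₁.2) p₁.1 p₂.1 Z) :
    kk b c n (k2 ν sb tb h η κ) (s₁, p₁) Z t t' * kk b c n (k2 ν sb tb h η κ) (s₂, p₂) Z t t' =
    (E2 sb η κ s₁.1.1.1 s₁.1.2 t * E2 sb η κ s₁.1.1.1 s₁.1.2 t' *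
      (js p₁.1 s₁.1.1.1 * js p₁.2 s₁.1.1.1)) *
    (D2 b n tb h κ p₁.1 s₁.1.2 t * D2 b n tb h κ p₁.2 s₁.1.2 t' *
      (D2 b n tb h κ p₂.1 s₂.1.2 t * D2 b n tb h κ p₂.2 s₂.1.2 t') *
      (E2 sb η κ s₂.1.1.1 s₂.1.2 t * E2 sb η κ s₂.1.1.1 s₂.1.2 t' *
      (js p₂.1 s₂.1.1.1 * js p₂.2 s₂.1.1.1))) := by
  obtain ⟨⟨A1, A2⟩, A3, A4'⟩ := hA
  have s1 : sb2 ν sb s₁ ∣ yv b c n p₁.1 Z := (dvd_yv hb hc n p₁.1 Z _).2 A3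
  have s2 : sb2 ν sb s₂ ∣ yv b c n p₂.1 Z := (dvd_yv hb hc n p₂.1 Z _).2 A4'
  have e1 := k2_eval hb hc h η hsb hκ s1 A1
  have e2 := k2_eval hb hc h η hsb hκ s2 A1
  have y1 := yv_shift (b := b) hc n p₁.1 p₁.2 Z
  have y2 := yv_shift (b := b) hc n p₂.1 p₂.2 Z
  rw [← hl] at y2
  have e1' := k2_eval hb hc h η hsb hκ (t := t') (p := s₁) (y1 ▸ s1) A2
  have e2' := k2_eval hb hc h η hsb hκ (t := t') (p := s₂) (y2 ▸ s2) A2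
  rw [← y1] at e1'
  rw [← y2] at e2'
  unfold kk
  simp only
  rw [e1, e1', e2, e2']
  ring

open Classical in
/-- the value in the good case -/
noncomputable def gv (d ν : ℕ) (b c : F) (n : F[X]) (sb : S → F[X]) (tb : T → F[X])
    (h η : F[X] → S → T → ℝ) (κ : T → F[X]) (p₁ p₂ : F[X] × F[X]) (t t' : T) (s₁ s₂ : S)
    (W₁ W₂ : F[X]) : ℝ :=
  if Gd sb tb t t' s₁ s₂ W₁ W₂ then
    (E2 sb η κ W₁ s₁ t * E2 sb η κ W₁ s₁ t' * (js p₁.1 W₁ * js p₁.2 W₁)) *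
    (D2 b n tb h κ p₁.1 s₁ t * D2 b n tb h κ p₁.2 s₁ t' *
      (D2 b n tb h κ p₂.1 s₂ t * D2 b n tb h κ p₂.2 s₂ t') *
      (E2 sb η κ W₂ s₂ t * E2 sb η κ W₂ s₂ t' * (js p₂.1 W₂ * js p₂.2 W₂))) *
    (N0 d c n sb tb p₁ p₂ t t' s₁ s₂ / (Nat.card F : ℝ) ^ (2 * ν)) else 0

theorem IS2_good {d ν e r : ℕ} (hd : 8 * e ≤ d) (hν : ν ≤ e) {b c : F} (hb : b ≠ 0) (hc : c ≠ 0)
    {n : F[X]} {sb : S → F[X]} {tb : T → F[X]} (hs : SmL (e - ν) r sb) (ht : SmL e r tb)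
    (h η : F[X] → S → T → ℝ) {κ : T → F[X]} (hκ : ∀ t, (κ t).Monic ∧ κ t ∣ tb t)
    {p₁ p₂ : F[X] × F[X]} (hl : p₁.1 - p₁.2 = p₂.1 - p₂.2) (t t' : T) (s₁ s₂ : S2 ν sb)
    (hG : Gd sb tb t t' s₁.1.2 s₂.1.2 s₁.1.1.1 s₂.1.1.1) :
    IS2 d ν b c n sb tb h η κ p₁ p₂ t t' s₁ s₂ =
      gv d ν b c n sb tb h η κ p₁ p₂ t t' s₁.1.2 s₂.1.2 s₁.1.1.1 s₂.1.1.1 := by
  classical
  have hq : (0 : ℝ) < (Nat.card F : ℝ) := q_pos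
  have hN := N0_good hd hν hs ht p₁ p₂ t t' s₁ s₂ hG (c := c) (n := n)
  unfold gv IS2
  rw [if_pos hG, ← hN, mul_comm ((Nat.card F : ℝ) ^ (2 * ν)), mul_div_assoc,
    div_self (pow_pos hq _).ne', mul_one, Finset.mul_sum]
  refine Finset.sum_congr rfl fun Z _ => ?_
  by_cases hA : A4 c n (sb2 ν sb) tb t t' s₁ s₂ (p₁.1 - p₁.2) p₁.1 p₂.1 Z
  · rw [if_pos hA, if_pos hA, mul_one]
    exact IS2_term hb hc hs.mo h η hκ hl hA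
  · rw [if_neg hA, if_neg hA, mul_zero]

theorem abs_IS2_le {d ν e r : ℕ} (hd : 8 * e ≤ d) (hν : ν ≤ e) {b c : F}
    {n : F[X]} {sb : S → F[X]} {tb : T → F[X]} (hs : SmL (e - ν) r sb) (ht : SmL e r tb)
    {h η : F[X] → S → T → ℝ} {κ : T → F[X]} (hh : ∀ m s t, |h m s t| ≤ 1)
    (hη : ∀ m s t, |η m s t| ≤ 1) (p₁ p₂ : F[X] × F[X]) (t t' : T) (s₁ s₂ : S2 ν sb) :
    |IS2 d ν b c n sb tb h η κ p₁ p₂ t t' s₁ s₂| ≤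
      (Nat.card F : ℝ) ^ d * iv (LL (UU (sb2 ν sb) tb t t' s₁ s₂)) := by
  have ht' : SmL e (2 * (r + 1)) tb := SmL.mono ht (by omega)
  exact IS_le (by omega) (SmL_sb2 hν hs) ht' _ (abs_k2_le ν sb tb κ hh hη) t t' (s₁, p₁) (s₂, p₂)
    (p₁.1 - p₁.2) p₁.1 p₂.1

/-- in the remaining case the sum is empty or one of the primes divides `(m₁ - m₂) n` -/
theorem IS2_bad {d ν : ℕ} {b c : F} (hb : b ≠ 0) (hc : c ≠ 0)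
    {n : F[X]} {sb : S → F[X]} {tb : T → F[X]} (hsb : ∀ s, (sb s).Monic) (htb : ∀ t, (tb t).Monic)
    (h η : F[X] → S → T → ℝ) {κ : T → F[X]}
    {p₁ p₂ : F[X] × F[X]} (t t' : T) (s₁ s₂ : S2 ν sb)
    (hl : p₁.1 - p₁.2 = p₂.1 - p₂.2)
    (hG : ¬ Gd sb tb t t' s₁.1.2 s₂.1.2 s₁.1.1.1 s₂.1.1.1)
    (hB : ¬ (s₁.1.1.1 ∣ (p₁.1 - p₂.1) * n ∨ s₂.1.1.1 ∣ (p₁.1 - p₂.1) * n)) :
    IS2 d ν b c n sb tb h η κ p₁ p₂ t t' s₁ s₂ = 0 := by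
  classical
  obtain ⟨a1, a2, a3⟩ := mem_Pr.1 s₁.1.1.2
  obtain ⟨b1, b2, b3⟩ := mem_Pr.1 s₂.1.1.2
  unfold IS2
  refine Finset.sum_eq_zero fun Z _ => ?_
  split_ifs with hA
  swap
  · rfl
  have hA2 := (A4_sb2 (c := c) (n := n) (tb := tb) t t' s₁ s₂ (p₁.1 - p₁.2) p₁.1 p₂.1 Z).1 hA
  obtain ⟨⟨hA0, hW2⟩, hW1⟩ := hA2
  obtain ⟨⟨A1, A2⟩, A3, A4'⟩ := hA0
  have s1 : sb2 ν sb s₁ ∣ yv b c n p₁.1 Z := (dvd_yv hb hc n p₁.1 Z _).2 hA.2.1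
  have s2 : sb2 ν sb s₂ ∣ yv b c n p₂.1 Z := (dvd_yv hb hc n p₂.1 Z _).2 hA.2.2
  have w1 : s₁.1.1.1 ∣ yv b c n p₁.1 Z := (dvd_mul_right _ _).trans s1
  have w2 : s₂.1.1.1 ∣ yv b c n p₂.1 Z := (dvd_mul_right _ _).trans s2
  -- both differences
  have key : ∀ W : F[X], W ∣ Z + sh c n p₁.1 → W ∣ Z + sh c n p₂.1 → W ∣ (p₁.1 - p₂.1) * n := by
    intro W h1 h2
    have h3 := dvd_sub h1 h2
    have h4 : Z + sh c n p₁.1 - (Z + sh c n p₂.1) = C c⁻¹ * ((p₁.1 - p₂.1) * n) := by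
      unfold sh; ring
    rw [h4] at h3
    have hu : IsUnit (C c⁻¹ : F[X]) := isUnit_C.2 (inv_ne_zero hc).isUnit
    rwa [mul_comm, hu.dvd_mul_right] at h3
  -- a prime dividing `Y` and `tb t` kills the kernel
  have kill : ∀ (m : F[X]) (p : S2 ν sb) (Y W : F[X]) (t : T), Irreducible W → W ∣ Y → W ∣ tb t →
      k2 ν sb tb h η κ m p Y t = 0 := by
    intro m p Y W t hWi h1 h2
    unfold k2
    rw [if_neg]
    intro hcop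
    exact hWi.not_isUnit (hcop.isUnit_of_dvd' h1 h2)
  by_cases g1 : s₁.1.1.1 ∈ UU sb tb t t' s₁.1.2 s₂.1.2
  · unfold UU at g1
    rcases Finset.mem_union.1 g1 with g | g
    · rcases Finset.mem_union.1 g with g | g
      · have := kill p₁.1 s₁ _ _ t a3 w1 (mem_pf' g).2.2
        unfold kk
        simp only
        rw [this]; ring
      · have := kill p₁.2 s₁ _ _ t' a3 w1 (mem_pf' g).2.2
        unfold kk
        simp only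
        rw [this]; ring
    · rcases Finset.mem_union.1 g with g | g
      · exact absurd (s₁.2.isUnit_of_dvd' dvd_rfl (mem_pf' g).2.2) a3.not_isUnit
      · exact absurd (Or.inl (key _ hW1 ((mem_pf' g).2.2.trans A4'))) hB
  · by_cases g2 : s₂.1.1.1 ∈ UU sb tb t t' s₁.1.2 s₂.1.2
    · unfold UU at g2
      rcases Finset.mem_union.1 g2 with g | g
      · rcases Finset.mem_union.1 g with g | g
        · have := kill p₂.1 s₂ _ _ t b3 w2 (mem_pf' g).2.2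
          unfold kk
          simp only
          rw [this]; ring
        · have := kill p₂.2 s₂ _ _ t' b3 w2 (mem_pf' g).2.2
          unfold kk
          simp only
          rw [this]; ring
      · rcases Finset.mem_union.1 g with g | g
        · exact absurd (Or.inr (key _ ((mem_pf' g).2.2.trans A3) hW2)) hB
        · exact absurd (s₂.2.isUnit_of_dvd' dvd_rfl (mem_pf' g).2.2) b3.not_isUnit
    · by_cases g3 : s₁.1.1.1 = s₂.1.1.1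
      · exact absurd (Or.inl (key _ hW1 (g3 ▸ hW2))) hB
      · exact absurd ⟨g1, g2, g3⟩ hG

end

end Pool.Agent.H74.TL
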