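import Pool.Agent.H74.TL.Tc

set_option autoImplicit false

/-!
# Lemma T2: the bound for the square sum
-/

namespace Pool.Agent.H74.TL

open Polynomial Pool.Agent.H94.PC Pool.Agent.H94.PS Pool.Agent.H74.ST

variable {F : Type} [Field F] [Finite F] {S T : Type} [Fintype S] [Fintype T]

omit [Fintype S] [Fintype T] in
theorem card_pf_le {G : F[X]} (hG : G ≠ 0) : (pf G).card ≤ G.natDegree := by
  have h1 : LL (pf G) ∣ G := (LL_dvd (isP_pf G) G).2 fun P hP => (mem_pf' hP).2.2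
  have h2 := natDegree_le_of_dvd h1 hG
  refine le_trans ?_ h2
  unfold LL
  rw [natDegree_prod_of_monic _ _ fun P hP => (mem_pf' hP).1, Finset.card_eq_sum_ones]
  exact Finset.sum_le_sum fun P hP => (mem_pf' hP).2.1.natDegree_pos

/-- the exponent -/
def RR (r : ℕ) : ℕ := (1 + 2 * (r + 1)) * (1 + 2 * (r + 1)) * ((1 + 2 * (r + 1)) * (1 + 2 * (r + 1)))

theorem UF4' {e r ν : ℕ} (hν : ν ≤ e) {sb : S → F[X]} {tb : T → F[X]}
    (hs : SmL (e - ν) r sb) (ht : SmL e r tb) :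
    UF (RR r) e (fun x : (T × T) × (S2 ν sb × S2 ν sb) =>
      UU (sb2 ν sb) tb x.1.1 x.1.2 x.2.1 x.2.2) :=
  UF4 (SmL_sb2 hν hs) (SmL.mono ht (by omega))

theorem sum_bd {e r ν d : ℕ} (he : 1 ≤ e) (hν : ν ≤ e) {sb : S → F[X]} {tb : T → F[X]}
    (hs : SmL (e - ν) r sb) (ht : SmL e r tb) {G : F[X]} (hG : G ≠ 0) (hGd : G.natDegree ≤ d)
    [∀ x : (T × T) × (S2 ν sb × S2 ν sb), Decidable (x.2.1.1.1.1 ∣ G ∨ x.2.2.1.1.1 ∣ G)] :
    ∑ x : (T × T) × (S2 ν sb × S2 ν sb), (if x.2.1.1.1.1 ∣ G ∨ x.2.2.1.1.1 ∣ G then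
      iv (LL (UU (sb2 ν sb) tb x.1.1 x.1.2 x.2.1 x.2.2)) else 0) ≤
      d * ((RR r : ℕ) * (3 * e : ℝ) ^ RR r / (Nat.card F : ℝ) ^ ν) := by
  classical
  set PW := (pf G).filter fun W => W.natDegree = ν with hPW
  have hmem : ∀ (s : S2 ν sb), s.1.1.1 ∣ G → s.1.1.1 ∈ PW := by
    intro s h
    obtain ⟨a1, a2, a3⟩ := mem_Pr.1 s.1.1.2
    exact Finset.mem_filter.2 ⟨(mem_pf hG).2 ⟨a1, a3, h⟩, a2⟩
  have hpfs : ∀ (s : S2 ν sb), s.1.1.1 ∈ pf (sb2 ν sb s) := by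
    intro s
    obtain ⟨a1, a2, a3⟩ := mem_Pr.1 s.1.1.2
    have h0 : sb2 ν sb s ≠ 0 := (a1.mul (hs.mo _)).ne_zero
    exact (mem_pf h0).2 ⟨a1, a3, dvd_mul_right _ _⟩
  have h1 : ∀ W ∈ PW, ∑ x : (T × T) × (S2 ν sb × S2 ν sb),
      (if W ∈ UU (sb2 ν sb) tb x.1.1 x.1.2 x.2.1 x.2.2 then
      iv (LL (UU (sb2 ν sb) tb x.1.1 x.1.2 x.2.1 x.2.2)) else 0) ≤
      (RR r : ℕ) * (3 * e : ℝ) ^ RR r / (Nat.card F : ℝ) ^ ν := by
    intro W hW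
    rw [hPW, Finset.mem_filter] at hW
    have hW' := mem_pf' hW.1
    have h2 := (UF4' hν hs ht).sum_iv_mem he (ρ := W) (mem_PP.2 ⟨hW'.1, hW'.2.1, by omega⟩)
    refine h2.trans (le_of_eq ?_)
    unfold iv
    rw [hW.2]
    ring
  have h2 : ∀ x : (T × T) × (S2 ν sb × S2 ν sb), (if x.2.1.1.1.1 ∣ G ∨ x.2.2.1.1.1 ∣ G then
      iv (LL (UU (sb2 ν sb) tb x.1.1 x.1.2 x.2.1 x.2.2)) else 0) ≤
      ∑ W ∈ PW, (if W ∈ UU (sb2 ν sb) tb x.1.1 x.1.2 x.2.1 x.2.2 then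
        iv (LL (UU (sb2 ν sb) tb x.1.1 x.1.2 x.2.1 x.2.2)) else 0) := by
    intro x
    have hnn : ∀ W ∈ PW, 0 ≤ (if W ∈ UU (sb2 ν sb) tb x.1.1 x.1.2 x.2.1 x.2.2 then
        iv (LL (UU (sb2 ν sb) tb x.1.1 x.1.2 x.2.1 x.2.2)) else 0) := fun W _ => by
      split_ifs; exacts [iv_nonneg _, le_rfl]
    by_cases h3 : x.2.1.1.1.1 ∣ G ∨ x.2.2.1.1.1 ∣ G
    · rw [if_pos h3]
      rcases h3 with h3 | h3
      · refine le_trans ?_ (Finset.single_le_sum hnn (hmem _ h3))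
        rw [if_pos]
        exact Finset.mem_union_right _ (Finset.mem_union_left _ (hpfs _))
      · refine le_trans ?_ (Finset.single_le_sum hnn (hmem _ h3))
        rw [if_pos]
        exact Finset.mem_union_right _ (Finset.mem_union_right _ (hpfs _))
    · rw [if_neg h3]
      exact Finset.sum_nonneg hnn
  refine (Finset.sum_le_sum fun x _ => h2 x).trans ?_
  rw [Finset.sum_comm]
  refine (Finset.sum_le_sum h1).trans ?_
  rw [Finset.sum_const, nsmul_eq_mul]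
  refine mul_le_mul_of_nonneg_right ?_ (by positivity)
  have h3 : PW.card ≤ d := (Finset.card_filter_le _ _).trans ((card_pf_le hG).trans hGd)
  exact_mod_cast h3

theorem N0_le {d ν e r : ℕ} (hd : 8 * e ≤ d) {c : F} {n : F[X]} {sb : S → F[X]}
    {tb : T → F[X]} (hs : SmL (e - ν) r sb) (ht : SmL e r tb) (p₁ p₂ : F[X] × F[X]) (t t' : T)
    (s₁ s₂ : S) : |N0 d c n sb tb p₁ p₂ t t' s₁ s₂| ≤
      (Nat.card F : ℝ) ^ d * iv (LL (UU sb tb t t' s₁ s₂)) := by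
  classical
  have hs' : SmL e r sb := ⟨hs.mo, hs.sq, fun s => (hs.dg s).trans (Nat.sub_le _ _), hs.fib⟩
  have hdeg : (LL (UU sb tb t t' s₁ s₂)).natDegree ≤ d := (deg_UU hs' ht t t' s₁ s₂).trans (by omega)
  have h1 := card_sep_Mo (LL_monic (isP_UU sb tb t t' s₁ s₂)) hdeg
    (A4_sep (c := c) (n := n) hs' ht t t' s₁ s₂ (p₁.1 - p₁.2) p₁.1 p₂.1)
  unfold N0
  rw [Finset.sum_boole, abs_of_nonneg (Nat.cast_nonneg _)]
  exact h1

/-- the sum over `W₁` of the good values -/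
theorem gsum_W1 {d ν e r : ℕ} (hd : 8 * e ≤ d) {b c : F}
    {n : F[X]} {sb : S → F[X]} {tb : T → F[X]} (hs : SmL (e - ν) r sb) (ht : SmL e r tb)
    {h η : F[X] → S → T → ℝ} {κ : T → F[X]} (hh : ∀ m s t, |h m s t| ≤ 1)
    (hη : ∀ m s t, |η m s t| ≤ 1) (t t' : T) (s₁ s₂ : S) (W₂ : F[X]) :
    ∃ β : F[X] → ℝ, (∀ W, |β W| ≤ 1) ∧ ∀ p₁ p₂ : F[X] × F[X],
      |∑ W₁ ∈ Pr F ν, (open Classical in if IsCoprime W₁ (sb s₁) then
        gv d ν b c n sb tb h η κ p₁ p₂ t t' s₁ s₂ W₁ W₂ else 0)| ≤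
      ((Nat.card F : ℝ) ^ d * iv (LL (UU sb tb t t' s₁ s₂)) / (Nat.card F : ℝ) ^ (2 * ν)) *
        |∑ W ∈ Pr F ν, β W * (js p₁.1 W * js p₁.2 W)| := by
  classical
  have hq : (0 : ℝ) < (Nat.card F : ℝ) := q_pos
  refine ⟨fun W => if IsCoprime W (sb s₁) ∧ Gd sb tb t t' s₁ s₂ W W₂ then
    E2 sb η κ W s₁ t * E2 sb η κ W s₁ t' else 0, ?_, ?_⟩
  · intro W
    simp only
    split_ifs
    · rw [abs_mul]
      exact mul_le_one₀ (abs_E2_le sb κ hη _ _ _) (abs_nonneg _) (abs_E2_le sb κ hη _ _ _)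
    · rw [abs_zero]; norm_num
  · intro p₁ p₂
    set K : ℝ := (D2 b n tb h κ p₁.1 s₁ t * D2 b n tb h κ p₁.2 s₁ t' *
      (D2 b n tb h κ p₂.1 s₂ t * D2 b n tb h κ p₂.2 s₂ t') *
      (E2 sb η κ W₂ s₂ t * E2 sb η κ W₂ s₂ t' * (js p₂.1 W₂ * js p₂.2 W₂))) *
      (N0 d c n sb tb p₁ p₂ t t' s₁ s₂ / (Nat.card F : ℝ) ^ (2 * ν)) with hK
    have h1 : ∑ W₁ ∈ Pr F ν, (if IsCoprime W₁ (sb s₁) then
        gv d ν b c n sb tb h η κ p₁ p₂ t t' s₁ s₂ W₁ W₂ else 0) =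
        K * ∑ W ∈ Pr F ν, (if IsCoprime W (sb s₁) ∧ Gd sb tb t t' s₁ s₂ W W₂ then
    E2 sb η κ W s₁ t * E2 sb η κ W s₁ t' else 0) * (js p₁.1 W * js p₁.2 W) := by
      rw [Finset.mul_sum]
      refine Finset.sum_congr rfl fun W _ => ?_
      unfold gv
      by_cases a1 : IsCoprime W (sb s₁)
      · rw [if_pos a1]
        by_cases a2 : Gd sb tb t t' s₁ s₂ W W₂
        · rw [if_pos a2, if_pos ⟨a1, a2⟩, hK]; ring
        · rw [if_neg a2, if_neg (fun h => a2 h.2), zero_mul, mul_zero]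
      · rw [if_neg a1, if_neg (fun h => a1 h.1), zero_mul, mul_zero]
    rw [h1, abs_mul]
    refine mul_le_mul_of_nonneg_right ?_ (abs_nonneg _)
    have b1 := abs_D2_le b n tb κ hh p₁.1 s₁ t
    have b2 := abs_D2_le b n tb κ hh p₁.2 s₁ t'
    have b3 := abs_D2_le b n tb κ hh p₂.1 s₂ t
    have b4 := abs_D2_le b n tb κ hh p₂.2 s₂ t'
    have b5 := abs_E2_le sb κ hη W₂ s₂ t
    have b6 := abs_E2_le sb κ hη W₂ s₂ t'
    have b7 := abs_js_le p₂.1 W₂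
    have b8 := abs_js_le p₂.2 W₂
    have hN := N0_le hd hs ht p₁ p₂ t t' s₁ s₂ (c := c) (n := n)
    rw [hK, abs_mul, abs_div, abs_of_nonneg (pow_pos hq (2 * ν)).le]
    have hfac : |(D2 b n tb h κ p₁.1 s₁ t * D2 b n tb h κ p₁.2 s₁ t' *
      (D2 b n tb h κ p₂.1 s₂ t * D2 b n tb h κ p₂.2 s₂ t') *
      (E2 sb η κ W₂ s₂ t * E2 sb η κ W₂ s₂ t' * (js p₂.1 W₂ * js p₂.2 W₂)))| ≤ 1 := by
      simp only [abs_mul]
      have n1 := abs_nonneg (D2 b n tb h κ p₁.1 s₁ t)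
      refine mul_le_one₀ (mul_le_one₀ (mul_le_one₀ b1 (abs_nonneg _) b2) (by positivity)
        (mul_le_one₀ b3 (abs_nonneg _) b4)) (by positivity)
        (mul_le_one₀ (mul_le_one₀ b5 (abs_nonneg _) b6) (by positivity)
          (mul_le_one₀ b7 (abs_nonneg _) b8))
    refine (mul_le_mul_of_nonneg_right hfac (by positivity)).trans ?_
    rw [one_mul]
    exact div_le_div_of_nonneg_right hN (pow_pos hq _).le

end Pool.Agent.H74.TL
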