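import Pool.Agent.H74.TL.Td

set_option autoImplicit false

/-!
# Lemma T2: the good sum and the bound for the square sum
-/

namespace Pool.Agent.H74.TL

open Polynomial Pool.Agent.H94.PC Pool.Agent.H94.PS Pool.Agent.H74.ST

variable {F : Type} [Field F] [Finite F] {S T : Type} [Fintype S] [Fintype T]

open Classical in
/-- the number of completions of a pair of primes -/
theorem pair_count (μ : ℕ) (p₁ : F[X] × F[X]) :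
    ∑ p₂ ∈ Pr F μ ×ˢ Pr F μ, (if p₁.1 - p₁.2 = p₂.1 - p₂.2 then (1 : ℝ) else 0) ≤
      (Nat.card F : ℝ) ^ μ := by
  rw [Finset.sum_boole]
  refine le_trans ?_ (card_Pr_le' (F := F) μ)
  have : ((Pr F μ ×ˢ Pr F μ).filter fun p₂ : F[X] × F[X] => p₁.1 - p₁.2 = p₂.1 - p₂.2).card ≤
      (Pr F μ).card := by
    refine Finset.card_le_card_of_injOn (fun p => p.1) ?_ ?_
    · intro p hp
      rw [Finset.mem_coe, Finset.mem_filter, Finset.mem_product] at hp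
      exact Finset.mem_coe.2 hp.1.1
    · intro p hp p' hp' heq
      rw [Finset.mem_coe, Finset.mem_filter] at hp hp'
      have heq' : p.1 = p'.1 := heq
      have e1 : p.1 - p.2 = p'.1 - p'.2 := hp.2.symm.trans hp'.2
      rw [heq'] at e1
      exact Prod.ext heq' (sub_right_injective e1)
  exact_mod_cast this

open Classical in
/-- the sum of the good values over the labels, as sums over primes -/
theorem gv_sum (d ν : ℕ) (b c : F) (n : F[X]) (sb : S → F[X]) (tb : T → F[X])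
    (h η : F[X] → S → T → ℝ) (κ : T → F[X]) (p₁ p₂ : F[X] × F[X]) :
    ∑ x : (T × T) × (S2 ν sb × S2 ν sb), gv d ν b c n sb tb h η κ p₁ p₂ x.1.1 x.1.2
      x.2.1.1.2 x.2.2.1.2 x.2.1.1.1.1 x.2.2.1.1.1 ≤
    ∑ tt : T × T, ∑ s₁, ∑ s₂, ∑ W₂ ∈ Pr F ν, |∑ W₁ ∈ Pr F ν, if IsCoprime W₁ (sb s₁) then
      gv d ν b c n sb tb h η κ p₁ p₂ tt.1 tt.2 s₁ s₂ W₁ W₂ else 0| := by
  rw [Fintype.sum_prod_type]
  refine Finset.sum_le_sum fun tt _ => ?_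
  rw [Fintype.sum_prod_type]
  have h1 : ∀ p : S2 ν sb, ∑ p' : S2 ν sb, gv d ν b c n sb tb h η κ p₁ p₂ tt.1 tt.2
      p.1.2 p'.1.2 p.1.1.1 p'.1.1.1 =
      ∑ W₂ ∈ Pr F ν, ∑ s₂, if IsCoprime W₂ (sb s₂) then
        gv d ν b c n sb tb h η κ p₁ p₂ tt.1 tt.2 p.1.2 s₂ p.1.1.1 W₂ else 0 := fun p =>
    sum_S2 ν sb (fun W s => gv d ν b c n sb tb h η κ p₁ p₂ tt.1 tt.2 p.1.2 s p.1.1.1 W)
  rw [Finset.sum_congr rfl fun p _ => h1 p]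
  rw [sum_S2 ν sb (fun W₁ s₁ => ∑ W₂ ∈ Pr F ν, ∑ s₂, if IsCoprime W₂ (sb s₂) then
        gv d ν b c n sb tb h η κ p₁ p₂ tt.1 tt.2 s₁ s₂ W₁ W₂ else 0), Finset.sum_comm]
  refine Finset.sum_le_sum fun s₁ _ => ?_
  have h2 : ∀ W₁ ∈ Pr F ν, (if IsCoprime W₁ (sb s₁) then ∑ W₂ ∈ Pr F ν, ∑ s₂,
      (if IsCoprime W₂ (sb s₂) then gv d ν b c n sb tb h η κ p₁ p₂ tt.1 tt.2 s₁ s₂ W₁ W₂ else 0)
      else 0) = ∑ s₂, ∑ W₂ ∈ Pr F ν, (if IsCoprime W₂ (sb s₂) then (if IsCoprime W₁ (sb s₁) then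
        gv d ν b c n sb tb h η κ p₁ p₂ tt.1 tt.2 s₁ s₂ W₁ W₂ else 0) else 0) := by
    intro W₁ _
    rw [Finset.sum_comm]
    by_cases a : IsCoprime W₁ (sb s₁)
    · rw [if_pos a]
      refine Finset.sum_congr rfl fun s₂ _ => Finset.sum_congr rfl fun W₂ _ => ?_
      rw [if_pos a]
    · rw [if_neg a]
      symm
      refine Finset.sum_eq_zero fun s₂ _ => Finset.sum_eq_zero fun W₂ _ => ?_
      rw [if_neg a, ite_self]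
  rw [Finset.sum_congr rfl h2, Finset.sum_comm]
  refine Finset.sum_le_sum fun s₂ _ => ?_
  rw [Finset.sum_comm]
  refine Finset.sum_le_sum fun W₂ _ => ?_
  by_cases a : IsCoprime W₂ (sb s₂)
  · rw [Finset.sum_congr rfl fun W₁ _ => if_pos a]
    exact le_abs_self _
  · rw [Finset.sum_congr rfl fun W₁ _ => if_neg a, Finset.sum_const_zero]
    exact abs_nonneg _

/-- a weighted sum over two pairs -/
theorem two_pairs (μ : ℕ) (X : F[X] × F[X] → ℝ) (hX : ∀ p, 0 ≤ X p) (B : ℝ)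
    (hB : ∑ p ∈ Pr F μ ×ˢ Pr F μ, X p ≤ B)
    [∀ p₁ p₂ : F[X] × F[X], Decidable (p₁.1 - p₁.2 = p₂.1 - p₂.2)] :
    ∑ p₁ ∈ Pr F μ ×ˢ Pr F μ, ∑ p₂ ∈ Pr F μ ×ˢ Pr F μ,
      (if p₁.1 - p₁.2 = p₂.1 - p₂.2 then X p₁ else 0) ≤ (Nat.card F : ℝ) ^ μ * B := by
  classical
  have hq : (0 : ℝ) < (Nat.card F : ℝ) := q_pos
  refine le_trans (Finset.sum_le_sum (g := fun p₁ => (Nat.card F : ℝ) ^ μ * X p₁) fun p₁ _ => ?_) ?_
  · have h1 := mul_le_mul_of_nonneg_right (pair_count μ p₁) (hX p₁)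
    refine le_trans (le_of_eq ?_) h1
    rw [Finset.sum_mul]
    refine Finset.sum_congr rfl fun p₂ _ => ?_
    by_cases h : p₁.1 - p₁.2 = p₂.1 - p₂.2
    · rw [if_pos h, if_pos h, one_mul]
    · rw [if_neg h, if_neg h, zero_mul]
  · rw [← Finset.mul_sum]
    exact mul_le_mul_of_nonneg_left hB (pow_pos hq _).le

open Classical in
/-- the good part -/
theorem good_le (h2 : (2 : F) ≠ 0) {d e r μ ν : ℕ} (he : 1 ≤ e) (hd : 8 * e ≤ d) {b c : F}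
    {n : F[X]} {sb : S → F[X]} {tb : T → F[X]} (hs : SmL (e - ν) r sb) (ht : SmL e r tb)
    {h η : F[X] → S → T → ℝ} {κ : T → F[X]} (hh : ∀ m s t, |h m s t| ≤ 1)
    (hη : ∀ m s t, |η m s t| ≤ 1) :
    ∑ p₁ ∈ Pr F μ ×ˢ Pr F μ, ∑ p₂ ∈ Pr F μ ×ˢ Pr F μ,
      (if p₁.1 - p₁.2 = p₂.1 - p₂.2 then
        ∑ tt : T × T, ∑ s₁, ∑ s₂, ∑ W₂ ∈ Pr F ν, |∑ W₁ ∈ Pr F ν, if IsCoprime W₁ (sb s₁) then
          gv d ν b c n sb tb h η κ p₁ p₂ tt.1 tt.2 s₁ s₂ W₁ W₂ else 0| else 0) ≤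
      (3 * e : ℝ) ^ ((1 + r) * (1 + r) * ((1 + r) * (1 + r))) * ((Nat.card F : ℝ) ^ d *
        ((Nat.card F : ℝ) ^ μ * BB F μ ν) / (Nat.card F : ℝ) ^ ν) := by
  have hq : (0 : ℝ) < (Nat.card F : ℝ) := q_pos
  have hs' : SmL e r sb := ⟨hs.mo, hs.sq, fun s => (hs.dg s).trans (Nat.sub_le _ _), hs.fib⟩
  -- exchange the sums
  have h1 : ∑ p₁ ∈ Pr F μ ×ˢ Pr F μ, ∑ p₂ ∈ Pr F μ ×ˢ Pr F μ,
      (if p₁.1 - p₁.2 = p₂.1 - p₂.2 then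
        ∑ tt : T × T, ∑ s₁, ∑ s₂, ∑ W₂ ∈ Pr F ν, |∑ W₁ ∈ Pr F ν, if IsCoprime W₁ (sb s₁) then
          gv d ν b c n sb tb h η κ p₁ p₂ tt.1 tt.2 s₁ s₂ W₁ W₂ else 0| else 0) =
      ∑ tt : T × T, ∑ s₁, ∑ s₂, ∑ W₂ ∈ Pr F ν, ∑ p₁ ∈ Pr F μ ×ˢ Pr F μ, ∑ p₂ ∈ Pr F μ ×ˢ Pr F μ,
        (if p₁.1 - p₁.2 = p₂.1 - p₂.2 then |∑ W₁ ∈ Pr F ν, if IsCoprime W₁ (sb s₁) then
          gv d ν b c n sb tb h η κ p₁ p₂ tt.1 tt.2 s₁ s₂ W₁ W₂ else 0| else 0) := by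
    have e1 : ∀ p₁ p₂ : F[X] × F[X], (if p₁.1 - p₁.2 = p₂.1 - p₂.2 then
        ∑ tt : T × T, ∑ s₁, ∑ s₂, ∑ W₂ ∈ Pr F ν, |∑ W₁ ∈ Pr F ν, if IsCoprime W₁ (sb s₁) then
          gv d ν b c n sb tb h η κ p₁ p₂ tt.1 tt.2 s₁ s₂ W₁ W₂ else 0| else 0) =
        ∑ tt : T × T, ∑ s₁, ∑ s₂, ∑ W₂ ∈ Pr F ν, (if p₁.1 - p₁.2 = p₂.1 - p₂.2 then
          |∑ W₁ ∈ Pr F ν, if IsCoprime W₁ (sb s₁) then
          gv d ν b c n sb tb h η κ p₁ p₂ tt.1 tt.2 s₁ s₂ W₁ W₂ else 0| else 0) := by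
      intro p₁ p₂
      by_cases a : p₁.1 - p₁.2 = p₂.1 - p₂.2
      · rw [if_pos a]
        refine Finset.sum_congr rfl fun tt _ => Finset.sum_congr rfl fun s₁ _ =>
          Finset.sum_congr rfl fun s₂ _ => Finset.sum_congr rfl fun W₂ _ => ?_
        rw [if_pos a]
      · rw [if_neg a]
        symm
        refine Finset.sum_eq_zero fun tt _ => Finset.sum_eq_zero fun s₁ _ =>
          Finset.sum_eq_zero fun s₂ _ => Finset.sum_eq_zero fun W₂ _ => ?_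
        rw [if_neg a]
    rw [Finset.sum_congr rfl fun p₁ _ => Finset.sum_congr rfl fun p₂ _ => e1 p₁ p₂]
    have e2 : ∀ (Φ : F[X] × F[X] → F[X] × F[X] → T × T → ℝ),
        ∑ p₁ ∈ Pr F μ ×ˢ Pr F μ, ∑ p₂ ∈ Pr F μ ×ˢ Pr F μ, ∑ tt : T × T, Φ p₁ p₂ tt =
        ∑ tt : T × T, ∑ p₁ ∈ Pr F μ ×ˢ Pr F μ, ∑ p₂ ∈ Pr F μ ×ˢ Pr F μ, Φ p₁ p₂ tt := by
      intro Φ
      rw [Finset.sum_comm' (s := Finset.univ) (t := fun _ => Pr F μ ×ˢ Pr F μ)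
        (t' := Pr F μ ×ˢ Pr F μ) (s' := fun _ => Finset.univ)]
      · refine Finset.sum_congr rfl fun p₁ _ => ?_
        rw [Finset.sum_comm]
      · intro x y; simp
    have e3 : ∀ (Φ : F[X] × F[X] → F[X] × F[X] → S → ℝ),
        ∑ p₁ ∈ Pr F μ ×ˢ Pr F μ, ∑ p₂ ∈ Pr F μ ×ˢ Pr F μ, ∑ s : S, Φ p₁ p₂ s =
        ∑ s : S, ∑ p₁ ∈ Pr F μ ×ˢ Pr F μ, ∑ p₂ ∈ Pr F μ ×ˢ Pr F μ, Φ p₁ p₂ s := by
      intro Φ
      rw [Finset.sum_comm' (s := Finset.univ) (t := fun _ => Pr F μ ×ˢ Pr F μ)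
        (t' := Pr F μ ×ˢ Pr F μ) (s' := fun _ => Finset.univ)]
      · refine Finset.sum_congr rfl fun p₁ _ => ?_
        rw [Finset.sum_comm]
      · intro x y; simp
    have e4 : ∀ (Φ : F[X] × F[X] → F[X] × F[X] → F[X] → ℝ),
        ∑ p₁ ∈ Pr F μ ×ˢ Pr F μ, ∑ p₂ ∈ Pr F μ ×ˢ Pr F μ, ∑ W ∈ Pr F ν, Φ p₁ p₂ W =
        ∑ W ∈ Pr F ν, ∑ p₁ ∈ Pr F μ ×ˢ Pr F μ, ∑ p₂ ∈ Pr F μ ×ˢ Pr F μ, Φ p₁ p₂ W := by
      intro Φ
      rw [Finset.sum_comm' (s := Pr F ν) (t := fun _ => Pr F μ ×ˢ Pr F μ)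
        (t' := Pr F μ ×ˢ Pr F μ) (s' := fun _ => Pr F ν)]
      · refine Finset.sum_congr rfl fun p₁ _ => ?_
        rw [Finset.sum_comm]
      · intro x y; tauto
    rw [e2]
    refine Finset.sum_congr rfl fun tt _ => ?_
    rw [e3]
    refine Finset.sum_congr rfl fun s₁ _ => ?_
    rw [e3]
    refine Finset.sum_congr rfl fun s₂ _ => ?_
    rw [e4]
  rw [h1]
  -- each inner sum
  have h3 : ∀ (tt : T × T) (s₁ s₂ : S), ∀ W₂ ∈ Pr F ν,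
      ∑ p₁ ∈ Pr F μ ×ˢ Pr F μ, ∑ p₂ ∈ Pr F μ ×ˢ Pr F μ,
        (if p₁.1 - p₁.2 = p₂.1 - p₂.2 then |∑ W₁ ∈ Pr F ν, if IsCoprime W₁ (sb s₁) then
          gv d ν b c n sb tb h η κ p₁ p₂ tt.1 tt.2 s₁ s₂ W₁ W₂ else 0| else 0) ≤
      ((Nat.card F : ℝ) ^ d * iv (LL (UU sb tb tt.1 tt.2 s₁ s₂)) / (Nat.card F : ℝ) ^ (2 * ν)) *
        ((Nat.card F : ℝ) ^ μ * BB F μ ν) := by
    intro tt s₁ s₂ W₂ _
    obtain ⟨β, hβ, hβ2⟩ := gsum_W1 hd hs ht hh hη tt.1 tt.2 s₁ s₂ W₂ (b := b) (c := c) (n := n)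
      (κ := κ)
    set K0 : ℝ := (Nat.card F : ℝ) ^ d * iv (LL (UU sb tb tt.1 tt.2 s₁ s₂)) /
      (Nat.card F : ℝ) ^ (2 * ν) with hK0
    have hK00 : 0 ≤ K0 := by
      have := iv_nonneg (LL (UU sb tb tt.1 tt.2 s₁ s₂))
      positivity
    have h4 : ∑ p₁ ∈ Pr F μ ×ˢ Pr F μ, ∑ p₂ ∈ Pr F μ ×ˢ Pr F μ,
        (if p₁.1 - p₁.2 = p₂.1 - p₂.2 then |∑ W₁ ∈ Pr F ν, if IsCoprime W₁ (sb s₁) then
          gv d ν b c n sb tb h η κ p₁ p₂ tt.1 tt.2 s₁ s₂ W₁ W₂ else 0| else 0) ≤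
        ∑ p₁ ∈ Pr F μ ×ˢ Pr F μ, ∑ p₂ ∈ Pr F μ ×ˢ Pr F μ,
        (if p₁.1 - p₁.2 = p₂.1 - p₂.2 then K0 * |∑ W ∈ Pr F ν, β W * (js p₁.1 W * js p₁.2 W)|
          else 0) := by
      refine Finset.sum_le_sum fun p₁ _ => Finset.sum_le_sum fun p₂ _ => ?_
      by_cases a : p₁.1 - p₁.2 = p₂.1 - p₂.2
      · rw [if_pos a, if_pos a]
        exact hβ2 p₁ p₂
      · rw [if_neg a, if_neg a]
    refine h4.trans ?_
    have h5 := two_pairs μ (fun p => K0 * |∑ W ∈ Pr F ν, β W * (js p.1 W * js p.2 W)|)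
      (fun p => by positivity) (K0 * BB F μ ν) (by
        rw [← Finset.mul_sum]
        exact mul_le_mul_of_nonneg_left (bil_BB h2 μ ν β hβ) hK00)
    have h6 : (Nat.card F : ℝ) ^ μ * (K0 * BB F μ ν) = K0 * ((Nat.card F : ℝ) ^ μ * BB F μ ν) := by
      ring
    rw [h6] at h5
    exact h5
  have hC : 0 ≤ (Nat.card F : ℝ) ^ μ * BB F μ ν := by
    have := BB_nonneg (F := F) μ ν
    positivity
  have h4 : ∀ (tt : T × T) (s₁ s₂ : S), ∑ W₂ ∈ Pr F ν,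
      ∑ p₁ ∈ Pr F μ ×ˢ Pr F μ, ∑ p₂ ∈ Pr F μ ×ˢ Pr F μ,
        (if p₁.1 - p₁.2 = p₂.1 - p₂.2 then |∑ W₁ ∈ Pr F ν, if IsCoprime W₁ (sb s₁) then
          gv d ν b c n sb tb h η κ p₁ p₂ tt.1 tt.2 s₁ s₂ W₁ W₂ else 0| else 0) ≤
      iv (LL (UU sb tb tt.1 tt.2 s₁ s₂)) * ((Nat.card F : ℝ) ^ d *
        ((Nat.card F : ℝ) ^ μ * BB F μ ν) / (Nat.card F : ℝ) ^ ν) := by
    intro tt s₁ s₂
    refine (Finset.sum_le_sum (h3 tt s₁ s₂)).trans ?_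
    rw [Finset.sum_const, nsmul_eq_mul]
    have h5 := card_Pr_le' (F := F) ν
    have hiv := iv_nonneg (LL (UU sb tb tt.1 tt.2 s₁ s₂))
    have h6 : 0 ≤ ((Nat.card F : ℝ) ^ d * iv (LL (UU sb tb tt.1 tt.2 s₁ s₂)) /
      (Nat.card F : ℝ) ^ (2 * ν)) * ((Nat.card F : ℝ) ^ μ * BB F μ ν) := by positivity
    refine (mul_le_mul_of_nonneg_right h5 h6).trans (le_of_eq ?_)
    rw [two_mul, pow_add]
    have hqn : (Nat.card F : ℝ) ^ ν ≠ 0 := (pow_pos hq ν).ne'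
    field_simp
  refine (Finset.sum_le_sum fun tt _ => Finset.sum_le_sum fun s₁ _ => Finset.sum_le_sum fun s₂ _ =>
    h4 tt s₁ s₂).trans ?_
  have h5 := (UF4 hs' ht).sum_iv he
  have hD : 0 ≤ (Nat.card F : ℝ) ^ d *
        ((Nat.card F : ℝ) ^ μ * BB F μ ν) / (Nat.card F : ℝ) ^ ν := by positivity
  refine le_trans (le_of_eq ?_) (mul_le_mul_of_nonneg_right h5 hD)
  rw [Fintype.sum_prod_type (f := fun x : (T × T) × (S × S) =>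
    iv (LL (UU sb tb x.1.1 x.1.2 x.2.1 x.2.2))), Finset.sum_mul]
  refine Finset.sum_congr rfl fun tt _ => ?_
  rw [Fintype.sum_prod_type (f := fun y : S × S => iv (LL (UU sb tb tt.1 tt.2 y.1 y.2))),
    Finset.sum_mul]
  refine Finset.sum_congr rfl fun s₁ _ => ?_
  rw [Finset.sum_mul]

end Pool.Agent.H74.TL
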