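import Pool.Agent.H74.TL.Te

set_option autoImplicit false

/-!
# Lemma T2
-/

namespace Pool.Agent.H74.TL

open Polynomial Pool.Agent.H94.PC Pool.Agent.H94.PS Pool.Agent.H74.ST

variable {F : Type} [Field F] [Finite F]

section
variable {S T : Type} [Fintype S] [Fintype T]

open Classical in
/-- the sum of the absolute values of the good parts -/
noncomputable def GS (d ν : ℕ) (b c : F) (n : F[X]) (sb : S → F[X]) (tb : T → F[X])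
    (h η : F[X] → S → T → ℝ) (κ : T → F[X]) (p₁ p₂ : F[X] × F[X]) : ℝ :=
  ∑ tt : T × T, ∑ s₁, ∑ s₂, ∑ W₂ ∈ Pr F ν, |∑ W₁ ∈ Pr F ν, if IsCoprime W₁ (sb s₁) then
    gv d ν b c n sb tb h η κ p₁ p₂ tt.1 tt.2 s₁ s₂ W₁ W₂ else 0|

theorem GS_nonneg (d ν : ℕ) (b c : F) (n : F[X]) (sb : S → F[X]) (tb : T → F[X])
    (h η : F[X] → S → T → ℝ) (κ : T → F[X]) (p₁ p₂ : F[X] × F[X]) :
    0 ≤ GS d ν b c n sb tb h η κ p₁ p₂ :=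
  Finset.sum_nonneg fun _ _ => Finset.sum_nonneg fun _ _ => Finset.sum_nonneg fun _ _ =>
    Finset.sum_nonneg fun _ _ => abs_nonneg _

open Classical in
/-- the bound for two fixed pairs of primes -/
theorem fix_le {d e r μ ν : ℕ} (he : 1 ≤ e) (hd : 8 * e ≤ d)
    (hν : ν ≤ e) {b c : F} (hb : b ≠ 0) (hc : c ≠ 0)
    {n : F[X]} (hn0 : n ≠ 0) (hn : n.natDegree + μ = d)
    {sb : S → F[X]} {tb : T → F[X]} (hs : SmL (e - ν) r sb) (ht : SmL e r tb)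
    {h η : F[X] → S → T → ℝ} {κ : T → F[X]} (hh : ∀ m s t, |h m s t| ≤ 1)
    (hη : ∀ m s t, |η m s t| ≤ 1) (hκ : ∀ t, (κ t).Monic ∧ κ t ∣ tb t)
    {p₁ p₂ : F[X] × F[X]} (hp₁ : p₁ ∈ Pr F μ ×ˢ Pr F μ) (hp₂ : p₂ ∈ Pr F μ ×ˢ Pr F μ) :
    ∑ x : (T × T) × (S2 ν sb × S2 ν sb), (if p₁.1 - p₁.2 = p₂.1 - p₂.2 then
      IS2 d ν b c n sb tb h η κ p₁ p₂ x.1.1 x.1.2 x.2.1 x.2.2 else 0) ≤
    (if p₁.1 - p₁.2 = p₂.1 - p₂.2 ∧ (p₁.1 = p₂.1 ∨ p₁.1 = p₁.2) then (1 : ℝ) else 0) *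
      ((Nat.card F : ℝ) ^ d * (3 * e : ℝ) ^ RR r) +
    (if p₁.1 - p₁.2 = p₂.1 - p₂.2 then (1 : ℝ) else 0) *
      ((Nat.card F : ℝ) ^ d * (d * ((RR r : ℕ) * (3 * e : ℝ) ^ RR r / (Nat.card F : ℝ) ^ ν))) +
    (if p₁.1 - p₁.2 = p₂.1 - p₂.2 then GS d ν b c n sb tb h η κ p₁ p₂ else 0) := by
  have hq : (0 : ℝ) < (Nat.card F : ℝ) := q_pos
  have hB0 : 0 ≤ (Nat.card F : ℝ) ^ d * (d * ((RR r : ℕ) * (3 * e : ℝ) ^ RR r /
    (Nat.card F : ℝ) ^ ν)) := by positivity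
  have hA0 : 0 ≤ (Nat.card F : ℝ) ^ d * (3 * e : ℝ) ^ RR r := by positivity
  have hG0 := GS_nonneg d ν b c n sb tb h η κ p₁ p₂
  by_cases hl : p₁.1 - p₁.2 = p₂.1 - p₂.2
  swap
  · rw [if_neg (fun h => hl h.1), if_neg hl, if_neg hl, zero_mul, zero_mul, add_zero, add_zero]
    refine le_of_eq (Finset.sum_eq_zero fun x _ => ?_)
    rw [if_neg hl]
  · have hsum : ∑ x : (T × T) × (S2 ν sb × S2 ν sb), (if p₁.1 - p₁.2 = p₂.1 - p₂.2 then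
        IS2 d ν b c n sb tb h η κ p₁ p₂ x.1.1 x.1.2 x.2.1 x.2.2 else 0) =
        ∑ x : (T × T) × (S2 ν sb × S2 ν sb),
          IS2 d ν b c n sb tb h η κ p₁ p₂ x.1.1 x.1.2 x.2.1 x.2.2 :=
      Finset.sum_congr rfl fun x _ => if_pos hl
    rw [hsum, if_pos (c := p₁.1 - p₁.2 = p₂.1 - p₂.2) hl, if_pos (c := p₁.1 - p₁.2 = p₂.1 - p₂.2) hl,
      one_mul]
    have hIS : ∀ x : (T × T) × (S2 ν sb × S2 ν sb),
        IS2 d ν b c n sb tb h η κ p₁ p₂ x.1.1 x.1.2 x.2.1 x.2.2 ≤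
        (Nat.card F : ℝ) ^ d * iv (LL (UU (sb2 ν sb) tb x.1.1 x.1.2 x.2.1 x.2.2)) := fun x =>
      (le_abs_self _).trans (abs_IS2_le hd hν hs ht hh hη p₁ p₂ x.1.1 x.1.2 x.2.1 x.2.2)
    by_cases hE : p₁.1 = p₂.1 ∨ p₁.1 = p₁.2
    · rw [if_pos ⟨hl, hE⟩, one_mul]
      refine (Finset.sum_le_sum fun x _ => hIS x).trans ?_
      rw [← Finset.mul_sum]
      have h5 := mul_le_mul_of_nonneg_left ((UF4' hν hs ht).sum_iv he) (pow_pos hq d).le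
      linarith
    · rw [if_neg (fun h => hE h.2), zero_mul, zero_add]
      push Not at hE
      have hm : p₁.1 - p₂.1 ≠ 0 := sub_ne_zero.2 hE.1
      have hGne : (p₁.1 - p₂.1) * n ≠ 0 := mul_ne_zero hm hn0
      have hGdeg : ((p₁.1 - p₂.1) * n).natDegree ≤ d := by
        have h6 := diff_deg (Finset.mem_product.1 hp₁).1 (Finset.mem_product.1 hp₂).1
        rw [degree_eq_natDegree hm] at h6
        have h7 : (p₁.1 - p₂.1).natDegree < μ := by exact_mod_cast h6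
        rw [natDegree_mul hm hn0]
        omega
      have hx : ∀ x : (T × T) × (S2 ν sb × S2 ν sb),
          IS2 d ν b c n sb tb h η κ p₁ p₂ x.1.1 x.1.2 x.2.1 x.2.2 ≤
          (Nat.card F : ℝ) ^ d * (if x.2.1.1.1.1 ∣ (p₁.1 - p₂.1) * n ∨
            x.2.2.1.1.1 ∣ (p₁.1 - p₂.1) * n then
            iv (LL (UU (sb2 ν sb) tb x.1.1 x.1.2 x.2.1 x.2.2)) else 0) +
          gv d ν b c n sb tb h η κ p₁ p₂ x.1.1 x.1.2 x.2.1.1.2 x.2.2.1.2 x.2.1.1.1.1 x.2.2.1.1.1 := by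
        intro x
        by_cases hG : Gd sb tb x.1.1 x.1.2 x.2.1.1.2 x.2.2.1.2 x.2.1.1.1.1 x.2.2.1.1.1
        · rw [IS2_good hd hν hb hc hs ht h η hκ hl x.1.1 x.1.2 x.2.1 x.2.2 hG]
          have : 0 ≤ (Nat.card F : ℝ) ^ d * (if x.2.1.1.1.1 ∣ (p₁.1 - p₂.1) * n ∨
            x.2.2.1.1.1 ∣ (p₁.1 - p₂.1) * n then
            iv (LL (UU (sb2 ν sb) tb x.1.1 x.1.2 x.2.1 x.2.2)) else 0) := by
            have := iv_nonneg (LL (UU (sb2 ν sb) tb x.1.1 x.1.2 x.2.1 x.2.2))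
            split_ifs <;> positivity
          linarith
        · have hgv : gv d ν b c n sb tb h η κ p₁ p₂ x.1.1 x.1.2 x.2.1.1.2 x.2.2.1.2 x.2.1.1.1.1
              x.2.2.1.1.1 = 0 := by
            unfold gv; rw [if_neg hG]
          rw [hgv, add_zero]
          by_cases hBd : x.2.1.1.1.1 ∣ (p₁.1 - p₂.1) * n ∨ x.2.2.1.1.1 ∣ (p₁.1 - p₂.1) * n
          · rw [if_pos hBd]
            exact hIS x
          · rw [if_neg hBd, mul_zero]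
            exact le_of_eq (IS2_bad hb hc hs.mo ht.mo h η x.1.1 x.1.2 x.2.1 x.2.2 hl hG hBd)
      refine (Finset.sum_le_sum fun x _ => hx x).trans ?_
      rw [Finset.sum_add_distrib, ← Finset.mul_sum]
      refine add_le_add (mul_le_mul_of_nonneg_left (sum_bd he hν hs ht hGne hGdeg)
        (pow_pos hq d).le) ?_
      exact gv_sum d ν b c n sb tb h η κ p₁ p₂

/-- the bound for the square sum of lemma T2 -/
theorem W2_2_le (h2 : (2 : F) ≠ 0) {d e r μ ν : ℕ} (he : 1 ≤ e) (hd : 8 * e ≤ d)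
    (hν : ν ≤ e) {b c : F} (hb : b ≠ 0) (hc : c ≠ 0)
    {n : F[X]} (hn0 : n ≠ 0) (hn : n.natDegree + μ = d)
    {sb : S → F[X]} {tb : T → F[X]} (hs : SmL (e - ν) r sb) (ht : SmL e r tb)
    {h η : F[X] → S → T → ℝ} {κ : T → F[X]} (hh : ∀ m s t, |h m s t| ≤ 1)
    (hη : ∀ m s t, |η m s t| ≤ 1) (hκ : ∀ t, (κ t).Monic ∧ κ t ∣ tb t) :
    W2 d μ b c n (sb2 ν sb) tb (k2 ν sb tb h η κ) ≤
      2 * (Nat.card F : ℝ) ^ (2 * μ) * ((Nat.card F : ℝ) ^ d * (3 * e : ℝ) ^ RR r) +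
      (Nat.card F : ℝ) ^ (3 * μ) *
        ((Nat.card F : ℝ) ^ d * (d * ((RR r : ℕ) * (3 * e : ℝ) ^ RR r / (Nat.card F : ℝ) ^ ν))) +
      (3 * e : ℝ) ^ ((1 + r) * (1 + r) * ((1 + r) * (1 + r))) * ((Nat.card F : ℝ) ^ d *
        ((Nat.card F : ℝ) ^ μ * BB F μ ν) / (Nat.card F : ℝ) ^ ν) := by
  classical
  have hq : (0 : ℝ) < (Nat.card F : ℝ) := q_pos
  have hB0 : 0 ≤ (Nat.card F : ℝ) ^ d * (d * ((RR r : ℕ) * (3 * e : ℝ) ^ RR r /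
    (Nat.card F : ℝ) ^ ν)) := by positivity
  have hA0 : 0 ≤ (Nat.card F : ℝ) ^ d * (3 * e : ℝ) ^ RR r := by positivity
  have h1 : W2 d μ b c n (sb2 ν sb) tb (k2 ν sb tb h η κ) =
      ∑ p₁ ∈ Pr F μ ×ˢ Pr F μ, ∑ p₂ ∈ Pr F μ ×ˢ Pr F μ,
        ∑ x : (T × T) × (S2 ν sb × S2 ν sb), (if p₁.1 - p₁.2 = p₂.1 - p₂.2 then
          IS2 d ν b c n sb tb h η κ p₁ p₂ x.1.1 x.1.2 x.2.1 x.2.2 else 0) := by
    unfold W2
    rw [sum_reorder μ (fun t t' w₁ w₂ => if w₁.2.1 - w₁.2.2 = w₂.2.1 - w₂.2.2 then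
        ∑ Z ∈ Mo F d, if A4 c n (sb2 ν sb) tb t t' w₁.1 w₂.1 (w₁.2.1 - w₁.2.2) w₁.2.1 w₂.2.1 Z then
          kk b c n (k2 ν sb tb h η κ) w₁ Z t t' * kk b c n (k2 ν sb tb h η κ) w₂ Z t t' else 0
      else 0)]
    rfl
  rw [h1]
  refine (Finset.sum_le_sum fun p₁ hp₁ => Finset.sum_le_sum fun p₂ hp₂ =>
    fix_le he hd hν hb hc hn0 hn hs ht hh hη hκ hp₁ hp₂).trans ?_
  have hsplit : ∀ (X Y Z : F[X] × F[X] → F[X] × F[X] → ℝ) (A B : ℝ),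
      ∑ p₁ ∈ Pr F μ ×ˢ Pr F μ, ∑ p₂ ∈ Pr F μ ×ˢ Pr F μ, (X p₁ p₂ * A + Y p₁ p₂ * B + Z p₁ p₂) =
      (∑ p₁ ∈ Pr F μ ×ˢ Pr F μ, ∑ p₂ ∈ Pr F μ ×ˢ Pr F μ, X p₁ p₂) * A +
      (∑ p₁ ∈ Pr F μ ×ˢ Pr F μ, ∑ p₂ ∈ Pr F μ ×ˢ Pr F μ, Y p₁ p₂) * B +
      ∑ p₁ ∈ Pr F μ ×ˢ Pr F μ, ∑ p₂ ∈ Pr F μ ×ˢ Pr F μ, Z p₁ p₂ := by
    intro X Y Z A B
    rw [Finset.sum_mul, Finset.sum_mul, ← Finset.sum_add_distrib, ← Finset.sum_add_distrib]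
    refine Finset.sum_congr rfl fun p₁ _ => ?_
    rw [Finset.sum_mul, Finset.sum_mul, ← Finset.sum_add_distrib, ← Finset.sum_add_distrib]
  rw [hsplit]
  have g1 := quad_bad (F := F) μ
  have g2 := quad_all (F := F) μ
  have g3 := good_le h2 (μ := μ) he hd hs ht hh hη (b := b) (c := c) (n := n) (κ := κ)
  exact add_le_add (add_le_add (mul_le_mul_of_nonneg_right g1 hA0)
    (mul_le_mul_of_nonneg_right g2 hB0)) g3

end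

theorem pow4_add3 (x y z : ℝ) :
    (x + y + z) ^ 4 ≤ 27 * (x ^ 4 + y ^ 4 + z ^ 4) := by
  have h1 : (x + y + z) ^ 2 ≤ 3 * (x ^ 2 + y ^ 2 + z ^ 2) := by
    nlinarith [sq_nonneg (x - y), sq_nonneg (y - z), sq_nonneg (x - z)]
  have h2 : (x ^ 2 + y ^ 2 + z ^ 2) ^ 2 ≤ 3 * (x ^ 4 + y ^ 4 + z ^ 4) := by
    nlinarith [sq_nonneg (x ^ 2 - y ^ 2), sq_nonneg (y ^ 2 - z ^ 2), sq_nonneg (x ^ 2 - z ^ 2)]
  calc (x + y + z) ^ 4 = ((x + y + z) ^ 2) ^ 2 := by ring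
    _ ≤ (3 * (x ^ 2 + y ^ 2 + z ^ 2)) ^ 2 := pow_le_pow_left₀ (sq_nonneg _) h1 2
    _ = 9 * (x ^ 2 + y ^ 2 + z ^ 2) ^ 2 := by ring
    _ ≤ _ := by linarith

/-- the fourth power of the bound -/
theorem W4_le {d e r μ ν : ℕ} (hd : 10 * e ≤ d) (hμ : μ ≤ e) (hν : ν ≤ e) :
    (2 * (Nat.card F : ℝ) ^ (2 * μ) * ((Nat.card F : ℝ) ^ d * (3 * e : ℝ) ^ RR r) +
      (Nat.card F : ℝ) ^ (3 * μ) *
        ((Nat.card F : ℝ) ^ d * (d * ((RR r : ℕ) * (3 * e : ℝ) ^ RR r / (Nat.card F : ℝ) ^ ν))) +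
      (3 * e : ℝ) ^ ((1 + r) * (1 + r) * ((1 + r) * (1 + r))) * ((Nat.card F : ℝ) ^ d *
        ((Nat.card F : ℝ) ^ μ * BB F μ ν) / (Nat.card F : ℝ) ^ ν)) ^ 4 *
      (Nat.card F : ℝ) ^ (min μ ν) ≤
    27 * (17 + (RR r : ℝ) ^ 4) * ((d : ℝ) + 1) ^ (4 * RR r + 4) *
      (Nat.card F : ℝ) ^ (4 * (d + 3 * μ)) := by
  have hq : (0 : ℝ) < (Nat.card F : ℝ) := q_pos
  have hq1 : (1 : ℝ) ≤ (Nat.card F : ℝ) := by
    exact_mod_cast (Nat.card_pos : 0 < Nat.card F)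
  have hBB := BB_nonneg (F := F) μ ν
  have h3 := three_e_le hd
  have h30 : (0 : ℝ) ≤ 3 * e := by positivity
  have hd0 : (0 : ℝ) ≤ (d : ℝ) := Nat.cast_nonneg d
  have hd1 : (1 : ℝ) ≤ (d : ℝ) + 1 := by linarith
  set q : ℝ := (Nat.card F : ℝ) with hqdef
  set D : ℝ := (d : ℝ) + 1 with hD
  set E : ℝ := (3 * e : ℝ) ^ RR r with hE
  set E' : ℝ := (3 * e : ℝ) ^ ((1 + r) * (1 + r) * ((1 + r) * (1 + r))) with hE'
  have hRle : (1 + r) * (1 + r) * ((1 + r) * (1 + r)) ≤ RR r := by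
    unfold RR
    have : 1 + r ≤ 1 + 2 * (r + 1) := by omega
    gcongr
  have hE1 : E ≤ D ^ RR r := pow_le_pow_left₀ h30 h3 _
  have hE'1 : E' ≤ D ^ RR r := (pow_le_pow_left₀ h30 h3 _).trans (pow_le_pow_right₀ hd1 hRle)
  have hE0 : 0 ≤ E := by positivity
  have hE'0 : 0 ≤ E' := by positivity
  have hD4 : (D ^ RR r) ^ 4 ≤ D ^ (4 * RR r + 4) := by
    rw [← pow_mul]; exact pow_le_pow_right₀ hd1 (by omega)
  have hQ0 : 0 ≤ q ^ (4 * (d + 3 * μ)) := by positivity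
  -- the three parts
  have p1 : (2 * q ^ (2 * μ) * (q ^ d * E)) ^ 4 * q ^ (min μ ν) ≤
      16 * D ^ (4 * RR r + 4) * q ^ (4 * (d + 3 * μ)) := by
    have e1 : (2 * q ^ (2 * μ) * (q ^ d * E)) ^ 4 * q ^ (min μ ν) =
        16 * E ^ 4 * q ^ (2 * μ * 4 + d * 4 + min μ ν) := by
      simp only [pow_add, pow_mul]; ring
    rw [e1]
    refine mul_le_mul (mul_le_mul_of_nonneg_left ((pow_le_pow_left₀ hE0 hE1 4).trans hD4)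
      (by norm_num)) (pow_le_pow_right₀ hq1 ?_) (by positivity) (by positivity)
    have := min_le_left μ ν
    omega
  have p2 : (q ^ (3 * μ) * (q ^ d * (d * ((RR r : ℕ) * E / q ^ ν)))) ^ 4 * q ^ (min μ ν) ≤
      (RR r : ℝ) ^ 4 * D ^ (4 * RR r + 4) * q ^ (4 * (d + 3 * μ)) := by
    have e1 : (q ^ (3 * μ) * (q ^ d * (d * ((RR r : ℕ) * E / q ^ ν)))) ^ 4 * q ^ (min μ ν) =
        (RR r : ℝ) ^ 4 * ((d : ℝ) ^ 4 * E ^ 4) * q ^ (4 * (d + 3 * μ)) *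
          (q ^ (min μ ν) / (q ^ ν) ^ 4) := by
      have e2 : q ^ (4 * (d + 3 * μ)) = (q ^ (3 * μ)) ^ 4 * (q ^ d) ^ 4 := by
        rw [← pow_mul, ← pow_mul, ← pow_add]; congr 1; ring
      rw [e2]
      field_simp
    rw [e1]
    have e3 : q ^ (min μ ν) / (q ^ ν) ^ 4 ≤ 1 := by
      rw [div_le_one (by positivity), ← pow_mul]
      refine pow_le_pow_right₀ hq1 ?_
      have := min_le_right μ ν
      omega
    have e4 : (d : ℝ) ^ 4 * E ^ 4 ≤ D ^ (4 * RR r + 4) := by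
      have : (d : ℝ) ^ 4 ≤ D ^ 4 := pow_le_pow_left₀ hd0 (by linarith) 4
      calc (d : ℝ) ^ 4 * E ^ 4 ≤ D ^ 4 * (D ^ RR r) ^ 4 :=
            mul_le_mul this (pow_le_pow_left₀ hE0 hE1 4) (by positivity) (by positivity)
        _ = D ^ (4 * RR r + 4) := by rw [← pow_mul, ← pow_add]; congr 1; ring
    calc (RR r : ℝ) ^ 4 * ((d : ℝ) ^ 4 * E ^ 4) * q ^ (4 * (d + 3 * μ)) *
          (q ^ (min μ ν) / (q ^ ν) ^ 4)
        ≤ (RR r : ℝ) ^ 4 * ((d : ℝ) ^ 4 * E ^ 4) * q ^ (4 * (d + 3 * μ)) * 1 :=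
          mul_le_mul_of_nonneg_left e3 (by positivity)
      _ ≤ _ := by
          rw [mul_one]
          exact mul_le_mul_of_nonneg_right (mul_le_mul_of_nonneg_left e4 (by positivity)) hQ0
  have p3 : (E' * (q ^ d * (q ^ μ * BB F μ ν) / q ^ ν)) ^ 4 * q ^ (min μ ν) ≤
      D ^ (4 * RR r + 4) * q ^ (4 * (d + 3 * μ)) := by
    have e1 : (E' * (q ^ d * (q ^ μ * BB F μ ν) / q ^ ν)) ^ 4 * q ^ (min μ ν) =
        E' ^ 4 * ((q ^ d) ^ 4 * (q ^ μ) ^ 4 / (q ^ ν) ^ 4) * (BB F μ ν ^ 4 * q ^ (min μ ν)) := by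
      field_simp
    rw [e1, BB_pow]
    have e2 : E' ^ 4 * ((q ^ d) ^ 4 * (q ^ μ) ^ 4 / (q ^ ν) ^ 4) *
        (((μ : ℝ) + ν + 1) * q ^ (4 * (2 * μ + ν))) =
        (E' ^ 4 * ((μ : ℝ) + ν + 1)) * q ^ (4 * (d + 3 * μ)) := by
      have e3 : q ^ (4 * (2 * μ + ν)) = (q ^ μ) ^ 8 * (q ^ ν) ^ 4 := by
        rw [← pow_mul, ← pow_mul, ← pow_add]; congr 1; ring
      have e4 : q ^ (4 * (d + 3 * μ)) = (q ^ d) ^ 4 * (q ^ μ) ^ 12 := by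
        rw [← pow_mul, ← pow_mul, ← pow_add]; congr 1; ring
      rw [e3, e4]
      field_simp
    rw [e2]
    refine mul_le_mul_of_nonneg_right ?_ hQ0
    have e5 : ((μ : ℝ) + ν + 1) ≤ D ^ 4 := by
      have h6 : (μ : ℝ) + ν + 1 ≤ D := by
        have : μ + ν ≤ d := by omega
        have : ((μ + ν : ℕ) : ℝ) ≤ (d : ℝ) := by exact_mod_cast this
        push_cast at this
        rw [hD]; linarith
      exact h6.trans (le_self_pow₀ hd1 (by norm_num))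
    calc E' ^ 4 * ((μ : ℝ) + ν + 1) ≤ (D ^ RR r) ^ 4 * D ^ 4 :=
          mul_le_mul (pow_le_pow_left₀ hE'0 hE'1 4) e5 (by positivity) (by positivity)
      _ = D ^ (4 * RR r + 4) := by rw [← pow_mul, ← pow_add]; congr 1; ring
  have h5 := mul_le_mul_of_nonneg_right (pow4_add3 (2 * q ^ (2 * μ) * (q ^ d * E))
    (q ^ (3 * μ) * (q ^ d * (d * ((RR r : ℕ) * E / q ^ ν))))
    (E' * (q ^ d * (q ^ μ * BB F μ ν) / q ^ ν))) (pow_pos hq (min μ ν)).le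
  refine h5.trans ?_
  have h6 : 27 * ((2 * q ^ (2 * μ) * (q ^ d * E)) ^ 4 +
      (q ^ (3 * μ) * (q ^ d * (d * ((RR r : ℕ) * E / q ^ ν)))) ^ 4 +
      (E' * (q ^ d * (q ^ μ * BB F μ ν) / q ^ ν)) ^ 4) * q ^ (min μ ν) =
      27 * ((2 * q ^ (2 * μ) * (q ^ d * E)) ^ 4 * q ^ (min μ ν) +
      (q ^ (3 * μ) * (q ^ d * (d * ((RR r : ℕ) * E / q ^ ν)))) ^ 4 * q ^ (min μ ν) +
      (E' * (q ^ d * (q ^ μ * BB F μ ν) / q ^ ν)) ^ 4 * q ^ (min μ ν)) := by ring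
  rw [h6]
  have h7 : 27 * (17 + (RR r : ℝ) ^ 4) * D ^ (4 * RR r + 4) * q ^ (4 * (d + 3 * μ)) =
      27 * (16 * D ^ (4 * RR r + 4) * q ^ (4 * (d + 3 * μ)) +
        (RR r : ℝ) ^ 4 * D ^ (4 * RR r + 4) * q ^ (4 * (d + 3 * μ)) +
        D ^ (4 * RR r + 4) * q ^ (4 * (d + 3 * μ))) := by ring
  rw [h7]
  linarith

theorem num1 {X P W Q Y : ℝ} (hQ : 0 ≤ Q) (h1 : X ^ 4 ≤ P * W)
    (hW : W ^ 4 * Q ≤ Y) : X ^ 16 * Q ≤ P ^ 4 * Y := by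
  have hX4 : (0 : ℝ) ≤ X ^ 4 := by positivity
  have e16 : X ^ 16 = (X ^ 4) ^ 4 := by ring
  have h2 : (X ^ 4) ^ 4 ≤ (P * W) ^ 4 := pow_le_pow_left₀ hX4 h1 4
  calc X ^ 16 * Q = (X ^ 4) ^ 4 * Q := by rw [e16]
    _ ≤ (P * W) ^ 4 * Q := mul_le_mul_of_nonneg_right h2 hQ
    _ = P ^ 4 * (W ^ 4 * Q) := by ring
    _ ≤ P ^ 4 * Y := mul_le_mul_of_nonneg_left hW (by positivity)

theorem num2 {q x D R : ℝ} {d μ a b c K o : ℕ} (hq : 0 < q) (hx : 0 ≤ x) (hxD : x ≤ D)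
    (hD : 1 ≤ D) (hR : R ≤ K) (hK : 8 * a + 4 * b + c ≤ K) (hK1 : 1 ≤ K) :
    ((q ^ d * x ^ a) ^ 2 * (q ^ (d + μ) * x ^ b)) ^ 4 * (R * D ^ c * q ^ (4 * (d + 3 * μ))) ≤
      K * D ^ K * (K : ℝ) ^ o * q ^ (16 * (d + μ)) := by
  have e1 : q ^ (16 * (d + μ)) = (q ^ d) ^ 8 * (q ^ (d + μ)) ^ 4 * q ^ (4 * (d + 3 * μ)) := by
    rw [← pow_mul, ← pow_mul, ← pow_add, ← pow_add]; congr 1; ring
  have e2 : x ^ (8 * a + 4 * b) = (x ^ a) ^ 8 * (x ^ b) ^ 4 := by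
    rw [← pow_mul, ← pow_mul, ← pow_add]; congr 1; ring
  have e3 : ((q ^ d * x ^ a) ^ 2 * (q ^ (d + μ) * x ^ b)) ^ 4 *
      (R * D ^ c * q ^ (4 * (d + 3 * μ))) =
      R * (x ^ (8 * a + 4 * b) * D ^ c) * q ^ (16 * (d + μ)) := by
    rw [e1, e2]; ring
  rw [e3]
  have k2' : x ^ (8 * a + 4 * b) * D ^ c ≤ D ^ K := by
    refine (mul_le_mul_of_nonneg_right (pow_le_pow_left₀ hx hxD _) (by positivity)).trans ?_
    rw [← pow_add]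
    exact pow_le_pow_right₀ hD hK
  have k3 : (1 : ℝ) ≤ (K : ℝ) ^ o := by
    apply one_le_pow₀
    exact_mod_cast hK1
  have k4 : (0 : ℝ) ≤ q ^ (16 * (d + μ)) := by positivity
  have k5 : (0 : ℝ) ≤ x ^ (8 * a + 4 * b) * D ^ c := by positivity
  have k6 : (0 : ℝ) ≤ K * D ^ K := by positivity
  calc R * (x ^ (8 * a + 4 * b) * D ^ c) * q ^ (16 * (d + μ))
      ≤ K * D ^ K * q ^ (16 * (d + μ)) := by
        refine mul_le_mul_of_nonneg_right ?_ k4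
        exact mul_le_mul hR k2' k5 (by positivity)
    _ ≤ _ := mul_le_mul_of_nonneg_right (le_mul_of_one_le_right k6 k3) k4

section
variable {S T : Type} [Fintype S] [Fintype T]

/-- the main step of lemma T2 -/
theorem t2_core (h2 : (2 : F) ≠ 0) {d e r μ ν : ℕ} (hed : 10 * e ≤ d) (he : 1 ≤ e) (hμe : μ ≤ e)
    (hνe : ν ≤ e) {b c : F} (hb : b ≠ 0) (hc : c ≠ 0)
    {n : F[X]} (hn0 : n ≠ 0) (hn : n.natDegree + μ = d) (hlc : n.leadingCoeff + b + c = 0)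
    {sb : S → F[X]} {tb : T → F[X]} (hs : SmL (e - ν) r sb) (ht : SmL e r tb)
    {f : F[X] → S → F[X] → ℝ} {g : T → F[X] → ℝ}
    {h η : F[X] → S → T → ℝ} {κ : T → F[X]} (hf : ∀ W s Q, |f W s Q| ≤ 1)
    (hg : ∀ t R, |g t R| ≤ 1) (hh : ∀ m s t, |h m s t| ≤ 1)
    (hη : ∀ m s t, |η m s t| ≤ 1) (hκ : ∀ t, (κ t).Monic ∧ κ t ∣ tb t) :
    TS2 d μ ν n b c sb tb f g h η κ ^ 16 * (Nat.card F : ℝ) ^ (min μ ν) ≤
    (((Nat.card F : ℝ) ^ d * (3 * e : ℝ) ^ (1 + 2 * (r + 1))) ^ 2 *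
      ((Nat.card F : ℝ) ^ (d + μ) *
        (3 * e : ℝ) ^ ((1 + 2 * (r + 1)) * (1 + 2 * (r + 1))))) ^ 4 *
      (27 * (17 + (RR r : ℝ) ^ 4) * ((d : ℝ) + 1) ^ (4 * RR r + 4) *
        (Nat.card F : ℝ) ^ (4 * (d + 3 * μ))) := by
  have hs2 := SmL_sb2 (F := F) hνe hs
  have ht2 : SmL e (2 * (r + 1)) tb := SmL.mono ht (by omega)
  obtain ⟨hW0, hmain⟩ := csg he (by omega : 2 * e ≤ d) hb hc hn0 hn hlc hs2 ht2
    (fun p Y => f p.1.1.1 p.1.2 (Y /ₘ sb2 ν sb p)) (fun t Z => g t (Z /ₘ tb t))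
    (k2 ν sb tb h η κ) (fun s Y => hf _ _ _) (fun t Z => hg _ _)
  rw [← TS2_eq hνe (by omega) n b c hs ht f g h η κ] at hmain
  have hW := W2_2_le h2 he (by omega) hνe hb hc hn0 hn hs ht hh hη hκ
  refine num1 (by positivity) hmain ?_
  exact (mul_le_mul_of_nonneg_right (pow_le_pow_left₀ hW0 hW 4)
    (pow_pos q_pos _).le).trans (W4_le hed hμe hνe)

theorem t2_zero {d e r μ ν : ℕ} (hed : 10 * e ≤ d)
    (hνe : ν ≤ e) {b c : F}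
    {n : F[X]} (hn0 : n ≠ 0) (hn : n.natDegree + μ = d) (hlc : ¬ n.leadingCoeff + b + c = 0)
    {sb : S → F[X]} {tb : T → F[X]} (hs : SmL (e - ν) r sb) (ht : SmL e r tb)
    (f : F[X] → S → F[X] → ℝ) (g : T → F[X] → ℝ)
    (h η : F[X] → S → T → ℝ) (κ : T → F[X]) :
    TS2 d μ ν n b c sb tb f g h η κ = 0 := by
  rw [TS2_eq hνe (by omega) n b c hs ht f g h η κ, TT_zero hn hn0 hlc]

end

/-- lemma T2 -/
theorem tl2_main (h2 : (2 : F) ≠ 0) (r : ℕ) : ∃ K : ℕ, ∀ d e μ ν : ℕ, 10 * e ≤ d → 1 ≤ μ → μ ≤ e →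
    1 ≤ ν → ν ≤ e →
    ∀ (n : F[X]) (b c : F), b ≠ 0 → c ≠ 0 → n ≠ 0 → n.natDegree + μ = d →
    ∀ (S T : Type) [Fintype S] [Fintype T] (sb : S → F[X]) (tb : T → F[X]),
      SmL (e - ν) r sb → SmL e r tb →
    ∀ (f : F[X] → S → F[X] → ℝ) (g : T → F[X] → ℝ) (h : F[X] → S → T → ℝ)
      (η : F[X] → S → T → ℝ) (κ : T → F[X]),
      (∀ W s Q, |f W s Q| ≤ 1) → (∀ t R, |g t R| ≤ 1) → (∀ m s t, |h m s t| ≤ 1) →
      (∀ W s t, |η W s t| ≤ 1) → (∀ t, (κ t).Monic ∧ κ t ∣ tb t) →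
      TS2 d μ ν n b c sb tb f g h η κ ^ 16 * (Nat.card F : ℝ) ^ (min μ ν) ≤
        K * ((d : ℝ) + 1) ^ K * (K : ℝ) ^ om n * (Nat.card F : ℝ) ^ (16 * (d + μ)) := by
  obtain ⟨K, hK1, hK2, hK3⟩ : ∃ K : ℕ, 27 * (17 + (RR r : ℝ) ^ 4) ≤ (K : ℝ) ∧
      8 * (1 + 2 * (r + 1)) + 4 * ((1 + 2 * (r + 1)) * (1 + 2 * (r + 1))) + (4 * RR r + 4) ≤ K ∧
      1 ≤ K := by
    obtain ⟨K1, hK1⟩ := exists_nat_ge (27 * (17 + (RR r : ℝ) ^ 4))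
    generalize 8 * (1 + 2 * (r + 1)) + 4 * ((1 + 2 * (r + 1)) * (1 + 2 * (r + 1))) +
      (4 * RR r + 4) = K2
    refine ⟨K1 + K2 + 1, hK1.trans ?_, by omega, by omega⟩
    push_cast
    have : (0 : ℝ) ≤ (K2 : ℝ) := Nat.cast_nonneg K2
    linarith
  refine ⟨K, ?_⟩
  intro d e μ ν hed hμ hμe hν hνe n b c hb hc hn0 hn S T _ _ sb tb hs ht f g h η κ hf hg hh hη hκ
  by_cases hlc : n.leadingCoeff + b + c = 0
  · have hd1 : (1 : ℝ) ≤ (d : ℝ) + 1 := by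
      have : (0 : ℝ) ≤ (d : ℝ) := Nat.cast_nonneg d
      linarith
    exact (t2_core h2 hed (hμ.trans hμe) hμe hνe hb hc hn0 hn hlc hs ht hf hg hh hη hκ).trans
      (num2 q_pos (by positivity) (three_e_le hed) hd1 hK1 hK2 hK3)
  · rw [t2_zero hed hνe hn0 hn hlc hs ht f g h η κ, zero_pow (by norm_num), zero_mul]
    positivity

end Pool.Agent.H74.TL
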