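import Pool.Agent.H74.TL.Ker

set_option autoImplicit false

/-!
# Lemma T: the complete sums vanish
-/

namespace Pool.Agent.H74.TL

open Polynomial Pool.Agent.H94.PC Pool.Agent.H94.PS Pool.Agent.H74.ST

variable {F : Type} [Field F] [Finite F] {S T : Type} [Fintype S] [Fintype T]

open Classical in
/-- the primes of the small labels -/
noncomputable def UU (sb : S → F[X]) (tb : T → F[X]) (t t' : T) (s₁ s₂ : S) : Finset F[X] :=
  (pf (tb t) ∪ pf (tb t')) ∪ (pf (sb s₁) ∪ pf (sb s₂))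

omit [Fintype S] [Fintype T] in
theorem isP_union [DecidableEq F[X]] {U V : Finset F[X]} (hU : IsP U) (hV : IsP V) : IsP (U ∪ V) := by
  intro P hP
  rcases Finset.mem_union.1 hP with h | h
  exacts [hU P h, hV P h]

omit [Fintype S] [Fintype T] in
theorem isP_UU (sb : S → F[X]) (tb : T → F[X]) (t t' : T) (s₁ s₂ : S) : IsP (UU sb tb t t' s₁ s₂) := by
  classical
  exact isP_union (isP_union (isP_pf _) (isP_pf _)) (isP_union (isP_pf _) (isP_pf _))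

theorem deg_UU {e r : ℕ} {sb : S → F[X]} {tb : T → F[X]} (hs : SmL e r sb) (ht : SmL e r tb)
    (t t' : T) (s₁ s₂ : S) : (LL (UU sb tb t t' s₁ s₂)).natDegree ≤ 4 * e := by
  classical
  have h1 : (LL (pf (tb t) ∪ pf (tb t'))).natDegree ≤ 2 * e := by
    refine (deg_union (isP_pf _) (isP_pf _)).trans ?_
    rw [LL_pf (ht.mo t) (ht.sq t), LL_pf (ht.mo t') (ht.sq t')]
    have := ht.dg t
    have := ht.dg t'
    omega
  have h2 : (LL (pf (sb s₁) ∪ pf (sb s₂))).natDegree ≤ 2 * e := by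
    refine (deg_union (isP_pf _) (isP_pf _)).trans ?_
    rw [LL_pf (hs.mo s₁) (hs.sq s₁), LL_pf (hs.mo s₂) (hs.sq s₂)]
    have := hs.dg s₁
    have := hs.dg s₂
    omega
  have h3 := deg_union (isP_union (isP_pf (tb t)) (isP_pf (tb t')))
    (isP_union (isP_pf (sb s₁)) (isP_pf (sb s₂)))
  unfold UU
  omega

omit [Fintype S] [Fintype T] in
theorem LL_dvd_LL {U V : Finset F[X]} (h : V ⊆ U) : LL V ∣ LL U :=
  Finset.prod_dvd_prod_of_subset _ _ _ h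

theorem dvd_UU {e r : ℕ} {sb : S → F[X]} {tb : T → F[X]} (hs : SmL e r sb) (ht : SmL e r tb)
    (t t' : T) (s₁ s₂ : S) : (tb t ∣ LL (UU sb tb t t' s₁ s₂) ∧ tb t' ∣ LL (UU sb tb t t' s₁ s₂)) ∧
      sb s₁ ∣ LL (UU sb tb t t' s₁ s₂) ∧ sb s₂ ∣ LL (UU sb tb t t' s₁ s₂) := by
  classical
  refine ⟨⟨?_, ?_⟩, ?_, ?_⟩
  · conv_lhs => rw [← LL_pf (ht.mo t) (ht.sq t)]
    exact LL_dvd_LL (Finset.subset_union_left.trans Finset.subset_union_left)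
  · conv_lhs => rw [← LL_pf (ht.mo t') (ht.sq t')]
    exact LL_dvd_LL (Finset.subset_union_right.trans Finset.subset_union_left)
  · conv_lhs => rw [← LL_pf (hs.mo s₁) (hs.sq s₁)]
    exact LL_dvd_LL (Finset.subset_union_left.trans Finset.subset_union_right)
  · conv_lhs => rw [← LL_pf (hs.mo s₂) (hs.sq s₂)]
    exact LL_dvd_LL (Finset.subset_union_right.trans Finset.subset_union_right)

omit [Fintype S] [Fintype T] in
theorem js_shift {m M : F[X]} (hm : m.Monic) (h : m ∣ M) (Z a κ : F[X]) :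
    js (Z + M * a + κ) m = js (Z + κ) m := by
  refine js_congr hm ?_
  have e : Z + M * a + κ - (Z + κ) = M * a := by ring
  rw [e]
  exact h.mul_right a

omit [Fintype S] [Fintype T] in
theorem A4_shift {c : F} {n : F[X]} {sb : S → F[X]} {tb : T → F[X]} {t t' : T} {s₁ s₂ : S}
    {l m₁ m₂ M : F[X]} (h : (tb t ∣ M ∧ tb t' ∣ M) ∧ sb s₁ ∣ M ∧ sb s₂ ∣ M) (Z a : F[X]) :
    A4 c n sb tb t t' s₁ s₂ l m₁ m₂ (Z + M * a) ↔ A4 c n sb tb t t' s₁ s₂ l m₁ m₂ Z := by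
  have key : ∀ x κ : F[X], x ∣ M → (x ∣ Z + M * a + κ ↔ x ∣ Z + κ) := by
    intro x κ hx
    have e : Z + M * a + κ = (Z + κ) + M * a := by ring
    rw [e]
    exact dvd_add_left (hx.mul_right a)
  have key0 : ∀ x : F[X], x ∣ M → (x ∣ Z + M * a ↔ x ∣ Z) := by
    intro x hx
    exact dvd_add_left (hx.mul_right a)
  unfold A4
  rw [key0 _ h.1.1, key _ _ h.1.2, key _ _ h.2.1, key _ _ h.2.2]

omit [Fintype S] [Fintype T] in
theorem not_dvd_of_not_mem {x m : F[X]} (hx : x ≠ 0) (hm : m.Monic) (hmi : Irreducible m)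
    (h : m ∉ pf x) : ¬ m ∣ x := fun hd => h ((mem_pf hx).2 ⟨hm, hmi, hd⟩)

open Classical in
/-- the terms of the sum over `Z` -/
theorem term_eval {e r d μ : ℕ} {b c : F} (hb : b ≠ 0) (hc : c ≠ 0)
    {n : F[X]} (hn0 : n ≠ 0) (hn : n.natDegree + μ = d) (hlc : n.leadingCoeff + b + c = 0)
    {sb : S → F[X]} {tb : T → F[X]} (hs : SmL e r sb) (ht : SmL e r tb)
    (h : F[X] → S → T → ℝ) {κ : T → F[X]} (hκ : ∀ t, (κ t).Monic ∧ κ t ∣ tb t) {t t' : T} {s₁ s₂ : S}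
    {m₁ m₁' m₂ m₂' : F[X]} (h1 : m₁ ∈ Pr F μ) (h1' : m₁' ∈ Pr F μ) (hm2 : m₂ ∈ Pr F μ)
    (hm2' : m₂' ∈ Pr F μ) (hl : m₁ - m₁' = m₂ - m₂')
    (n1 : m₁ ∉ UU sb tb t t' s₁ s₂) (n1' : m₁' ∉ UU sb tb t t' s₁ s₂)
    (n2 : m₂ ∉ UU sb tb t t' s₁ s₂) (n2' : m₂' ∉ UU sb tb t t' s₁ s₂) {Z : F[X]} (hZ : Z ∈ Mo F d) :
    (if A4 c n sb tb t t' s₁ s₂ (m₁ - m₁') m₁ m₂ Z then
      kk b c n (kT sb tb h κ) (s₁, (m₁, m₁')) Z t t' * kk b c n (kT sb tb h κ) (s₂, (m₂, m₂')) Z t t'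
      else 0) =
    (DT d b c n sb tb h κ m₁ s₁ t * DT d b c n sb tb h κ m₁' s₁ t' *
      (DT d b c n sb tb h κ m₂ s₂ t * DT d b c n sb tb h κ m₂' s₂ t')) *
    (if A4 c n sb tb t t' s₁ s₂ (m₁ - m₁') m₁ m₂ Z then 1 else 0) *
    (js (Z + 0) m₁ * js (Z + sh c n (m₁ - m₁')) m₁' * js (Z + 0) m₂ *
      js (Z + sh c n (m₁ - m₁')) m₂') := by
  obtain ⟨a1, a2, a3⟩ := mem_Pr.1 h1
  obtain ⟨a1', a2', a3'⟩ := mem_Pr.1 h1'
  obtain ⟨b1, b2, b3⟩ := mem_Pr.1 hm2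
  obtain ⟨b1', b2', b3'⟩ := mem_Pr.1 hm2'
  by_cases hA : A4 c n sb tb t t' s₁ s₂ (m₁ - m₁') m₁ m₂ Z
  · rw [if_pos hA, if_pos hA, add_zero]
    obtain ⟨⟨A1, A2⟩, A3, A4'⟩ := hA
    have d1 : ¬ m₁ ∣ sb s₁ := not_dvd_of_not_mem (hs.mo s₁).ne_zero a1 a3 fun hx =>
      n1 (Finset.mem_union_right _ (Finset.mem_union_left _ hx))
    have d1' : ¬ m₁' ∣ sb s₁ := not_dvd_of_not_mem (hs.mo s₁).ne_zero a1' a3' fun hx =>
      n1' (Finset.mem_union_right _ (Finset.mem_union_left _ hx))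
    have d2 : ¬ m₂ ∣ sb s₂ := not_dvd_of_not_mem (hs.mo s₂).ne_zero b1 b3 fun hx =>
      n2 (Finset.mem_union_right _ (Finset.mem_union_right _ hx))
    have d2' : ¬ m₂' ∣ sb s₂ := not_dvd_of_not_mem (hs.mo s₂).ne_zero b1' b3' fun hx =>
      n2' (Finset.mem_union_right _ (Finset.mem_union_right _ hx))
    have Y1 := yv_mem hb hn hn0 hlc ⟨a1, a2⟩ hZ
    have Y2 := yv_mem hb hn hn0 hlc ⟨b1, b2⟩ hZ
    have s1 : sb s₁ ∣ yv b c n m₁ Z := (dvd_yv hb hc n m₁ Z _).2 A3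
    have s2 : sb s₂ ∣ yv b c n m₂ Z := (dvd_yv hb hc n m₂ Z _).2 A4'
    have e1 := kT_eval hb hc h hs.mo hκ a1 a3 d1 s1 A1 Y1
    have e2 := kT_eval hb hc h hs.mo hκ b1 b3 d2 s2 A1 Y2
    have y1 := yv_shift (b := b) hc n m₁ m₁' Z
    have y2 := yv_shift (b := b) hc n m₂ m₂' Z
    rw [← hl] at y2
    have e1' := kT_eval hb hc h hs.mo hκ a1' a3' (t := t') d1' (y1 ▸ s1) A2 (y1 ▸ Y1)
    have e2' := kT_eval hb hc h hs.mo hκ b1' b3' (t := t') d2' (y2 ▸ s2) A2 (y2 ▸ Y2)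
    rw [← y1] at e1'
    rw [← y2] at e2'
    unfold kk
    simp only
    rw [e1, e1', e2, e2']
    ring
  · rw [if_neg hA, if_neg hA]
    ring

open Classical in
theorem IS_zero (h2 : (2 : F) ≠ 0) {e r d μ : ℕ} (hed : 8 * e ≤ d) (hμe : μ ≤ e)
    {b c : F} (hb : b ≠ 0) (hc : c ≠ 0)
    {n : F[X]} (hn0 : n ≠ 0) (hn : n.natDegree + μ = d) (hlc : n.leadingCoeff + b + c = 0)
    {sb : S → F[X]} {tb : T → F[X]} (hs : SmL e r sb) (ht : SmL e r tb)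
    (h : F[X] → S → T → ℝ) {κ : T → F[X]} (hκ : ∀ t, (κ t).Monic ∧ κ t ∣ tb t) {t t' : T} {s₁ s₂ : S}
    {m₁ m₁' m₂ m₂' : F[X]} (h1 : m₁ ∈ Pr F μ) (h1' : m₁' ∈ Pr F μ) (hm2 : m₂ ∈ Pr F μ)
    (hm2' : m₂' ∈ Pr F μ) (hl : m₁ - m₁' = m₂ - m₂') (hne : m₁ ≠ m₂) (hne' : m₁ ≠ m₁')
    (n1 : m₁ ∉ UU sb tb t t' s₁ s₂) (n1' : m₁' ∉ UU sb tb t t' s₁ s₂)
    (n2 : m₂ ∉ UU sb tb t t' s₁ s₂) (n2' : m₂' ∉ UU sb tb t t' s₁ s₂) :
    ∑ Z ∈ Mo F d, (if A4 c n sb tb t t' s₁ s₂ (m₁ - m₁') m₁ m₂ Z then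
      kk b c n (kT sb tb h κ) (s₁, (m₁, m₁')) Z t t' * kk b c n (kT sb tb h κ) (s₂, (m₂, m₂')) Z t t'
      else 0) = 0 := by
  obtain ⟨a1, a2, a3⟩ := mem_Pr.1 h1
  obtain ⟨a1', a2', a3'⟩ := mem_Pr.1 h1'
  obtain ⟨b1, b2, b3⟩ := mem_Pr.1 hm2
  obtain ⟨b1', b2', b3'⟩ := mem_Pr.1 hm2'
  rw [Finset.sum_congr rfl fun Z hZ => term_eval hb hc hn0 hn hlc hs ht h hκ h1 h1' hm2 hm2' hl
    n1 n1' n2 n2' hZ]
  set D := DT d b c n sb tb h κ m₁ s₁ t * DT d b c n sb tb h κ m₁' s₁ t' *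
      (DT d b c n sb tb h κ m₂ s₂ t * DT d b c n sb tb h κ m₂' s₂ t') with hD
  set l := m₁ - m₁' with hldef
  have hU := isP_UU sb tb t t' s₁ s₂
  have hUdeg := deg_UU hs ht t t' s₁ s₂
  have hUdvd := dvd_UU hs ht t t' s₁ s₂
  have hUm := LL_monic hU
  set L := LL (UU sb tb t t' s₁ s₂) with hL
  by_cases hcase : m₁ = m₂'
  · -- the prime `m₁'`
    have c1 : m₁' ≠ m₂ := by
      intro h3
      have h4 : m₁ - m₂ = m₂ - m₁ := by
        calc m₁ - m₂ = m₁ - m₁' := by rw [h3]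
          _ = l := hldef.symm
          _ = m₂ - m₂' := hl
          _ = m₂ - m₁ := by rw [hcase]
      have h5 : (2 : F[X]) * (m₁ - m₂) = 0 := by linear_combination h4
      have h6 : (2 : F[X]) ≠ 0 := by
        have : (2 : F[X]) = C (2 : F) := (map_ofNat C 2).symm
        rw [this]
        exact C_ne_zero.2 h2
      rcases mul_eq_zero.1 h5 with h7 | h7
      · exact h6 h7
      · exact hne (sub_eq_zero.1 h7)
    have cop : IsCoprime (L * (m₁ * m₂ * m₂')) m₁' := by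
      refine IsCoprime.mul_left (coprime_LL hU ⟨a1', a3'⟩ n1') (IsCoprime.mul_left
        (IsCoprime.mul_left ?_ ?_) ?_)
      · exact coprime_of_ne ⟨a1, a3⟩ ⟨a1', a3'⟩ hne'
      · exact coprime_of_ne ⟨b1, b3⟩ ⟨a1', a3'⟩ c1.symm
      · exact coprime_of_ne ⟨b1', b3'⟩ ⟨a1', a3'⟩ (hcase ▸ hne')
    have hMm : (L * (m₁ * m₂ * m₂')).Monic := hUm.mul ((a1.mul b1).mul b1')
    have hdeg : (L * (m₁ * m₂ * m₂')).natDegree + m₁'.natDegree ≤ d := by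
      rw [hUm.natDegree_mul ((a1.mul b1).mul b1'), (a1.mul b1).natDegree_mul b1',
        a1.natDegree_mul b1]
      omega
    have hv := vanish h2 a1' a3' hMm.ne_zero cop hdeg
      (fun Z => D * (if A4 c n sb tb t t' s₁ s₂ l m₁ m₂ Z then 1 else 0) *
        (js (Z + 0) m₁ * js (Z + 0) m₂ * js (Z + sh c n l) m₂')) (by
        intro Z a
        have d1 : m₁ ∣ L * (m₁ * m₂ * m₂') := ((dvd_mul_right m₁ m₂).mul_right m₂').mul_left L
        have d2 : m₂ ∣ L * (m₁ * m₂ * m₂') := ((dvd_mul_left m₂ m₁).mul_right m₂').mul_left L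
        have d3 : m₂' ∣ L * (m₁ * m₂ * m₂') := (dvd_mul_left m₂' (m₁ * m₂)).mul_left L
        rw [js_shift a1 d1, js_shift b1 d2, js_shift b1' d3]
        have hiff := A4_shift (c := c) (n := n) (l := l) (m₁ := m₁) (m₂ := m₂)
          (M := L * (m₁ * m₂ * m₂')) (sb := sb) (tb := tb) (t := t) (t' := t') (s₁ := s₁) (s₂ := s₂)
          ⟨⟨hUdvd.1.1.mul_right _, hUdvd.1.2.mul_right _⟩, hUdvd.2.1.mul_right _,
            hUdvd.2.2.mul_right _⟩ Z a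
        simp only [hiff]) (sh c n l)
    refine Eq.trans ?_ hv
    refine Finset.sum_congr rfl fun Z _ => ?_
    ring
  · have cop : IsCoprime (L * (m₁' * m₂ * m₂')) m₁ := by
      refine IsCoprime.mul_left (coprime_LL hU ⟨a1, a3⟩ n1) (IsCoprime.mul_left
        (IsCoprime.mul_left ?_ ?_) ?_)
      · exact coprime_of_ne ⟨a1', a3'⟩ ⟨a1, a3⟩ hne'.symm
      · exact coprime_of_ne ⟨b1, b3⟩ ⟨a1, a3⟩ hne.symm
      · exact coprime_of_ne ⟨b1', b3'⟩ ⟨a1, a3⟩ (fun hx => hcase hx.symm)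
    have hMm : (L * (m₁' * m₂ * m₂')).Monic := hUm.mul ((a1'.mul b1).mul b1')
    have hdeg : (L * (m₁' * m₂ * m₂')).natDegree + m₁.natDegree ≤ d := by
      rw [hUm.natDegree_mul ((a1'.mul b1).mul b1'), (a1'.mul b1).natDegree_mul b1',
        a1'.natDegree_mul b1]
      omega
    have hv := vanish h2 a1 a3 hMm.ne_zero cop hdeg
      (fun Z => D * (if A4 c n sb tb t t' s₁ s₂ l m₁ m₂ Z then 1 else 0) *
        (js (Z + sh c n l) m₁' * js (Z + 0) m₂ * js (Z + sh c n l) m₂')) (by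
        intro Z a
        have d1 : m₁' ∣ L * (m₁' * m₂ * m₂') := ((dvd_mul_right m₁' m₂).mul_right m₂').mul_left L
        have d2 : m₂ ∣ L * (m₁' * m₂ * m₂') := ((dvd_mul_left m₂ m₁').mul_right m₂').mul_left L
        have d3 : m₂' ∣ L * (m₁' * m₂ * m₂') := (dvd_mul_left m₂' (m₁' * m₂)).mul_left L
        rw [js_shift a1' d1, js_shift b1 d2, js_shift b1' d3]
        have hiff := A4_shift (c := c) (n := n) (l := l) (m₁ := m₁) (m₂ := m₂)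
          (M := L * (m₁' * m₂ * m₂')) (sb := sb) (tb := tb) (t := t) (t' := t') (s₁ := s₁) (s₂ := s₂)
          ⟨⟨hUdvd.1.1.mul_right _, hUdvd.1.2.mul_right _⟩, hUdvd.2.1.mul_right _,
            hUdvd.2.2.mul_right _⟩ Z a
        simp only [hiff]) 0
    refine Eq.trans ?_ hv
    refine Finset.sum_congr rfl fun Z _ => ?_
    ring

end Pool.Agent.H74.TL
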